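import Pool.Agent.W656.VA9

/-!
Matrices over `ℂ[G]` whose entries are located with respect to a `G`-set: restriction of kernel
vectors, twisting, and reduction of the kernel dimension to the point stabilisers.
-/

set_option autoImplicit false
set_option linter.unusedSectionVars false

open scoped InnerProductSpace ENNReal
open Filter Topology

namespace Pool.Agent.Zk53.AT

open Pool.Agent.H80R2
open Pool.Agent.H80R2.BC (L2 GMat vdim IsTr LInv Equi act kerA dk pt vals TorDiv Coef AtR)
open Pool.Agent.H812R3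
open Pool.Agent.W656.VA

section modular
variable {ι G : Type} [Group G] [Fintype ι]

/-- **Modularity** of the dimension. -/
theorem vdim_modular {K L M : Submodule ℂ (L2 (ι × G))} (hK : IsClosed (K : Set (L2 (ι × G))))
    (hKi : LInv K) (hL : IsClosed (L : Set (L2 (ι × G)))) (hLi : LInv L)
    (hM : IsClosed (M : Set (L2 (ι × G)))) (hMi : LInv M) (hKM : K ≤ M) (hLM : L ≤ M)
    (h : M ⊓ (Kᗮ ⊓ Lᗮ) = ⊥) : vdim K + vdim L = vdim (K ⊓ L) + vdim M := by
  apply le_antisymm
  · exact vdim_super hK hKi hL hLi hM hKM hLM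
  · have h1 := vdim_super (K := M ⊓ Kᗮ) (L := M ⊓ Lᗮ) (M := M ⊓ (K ⊓ L)ᗮ)
      (isClosed_inf hM (isClosed_orth K)) (linv_inf hMi (linv_orth hKi))
      (isClosed_inf hM (isClosed_orth L)) (linv_inf hMi (linv_orth hLi))
      (isClosed_inf hM (isClosed_orth _))
      (inf_le_inf_left _ (Submodule.orthogonal_le inf_le_left))
      (inf_le_inf_left _ (Submodule.orthogonal_le inf_le_right))
    have h2 : (M ⊓ Kᗮ) ⊓ (M ⊓ Lᗮ) = ⊥ := by
      rw [eq_bot_iff, ← h]
      rintro x ⟨⟨a, b⟩, ⟨_, c⟩⟩
      exact ⟨a, b, c⟩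
    rw [h2, vdim_bot, vdim_diff hK hM hKM, vdim_diff hL hM hLM,
      vdim_diff (isClosed_inf hK hL) hM (inf_le_left.trans hKM)] at h1
    linarith

end modular

section loc
variable {ι κ G X : Type} [Group G] [Fintype ι] [MulAction G X]

/-- The entry in row `k` and column `i` is supported on elements moving `a i` to `b k`. -/
def Loc (a : ι → X) (b : κ → X) (M : GMat κ ι G) : Prop :=
  ∀ k i h, M k i h ≠ 0 → h • a i = b k

theorem act_loc {a : ι → X} {b : κ → X} {M : GMat κ ι G} (hM : Loc a b M) (χ : X → Bool)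
    (x : ι × G → ℂ) (k : κ) (g : G) :
    act M (fun p : ι × G => if χ (p.2 • a p.1) then x p else 0) k g =
      if χ (g • b k) then act M x k g else 0 := by
  unfold act Finsupp.sum
  by_cases hc : χ (g • b k) = true
  · rw [if_pos hc]
    refine Finset.sum_congr rfl fun i _ => Finset.sum_congr rfl fun h hh => ?_
    have h3 := hM k i h (Finsupp.mem_support_iff.1 hh)
    simp only [mul_smul, h3, hc, if_true]
  · rw [if_neg hc]
    refine Finset.sum_eq_zero fun i _ => Finset.sum_eq_zero fun h hh => ?_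
    have h3 := hM k i h (Finsupp.mem_support_iff.1 hh)
    simp only [mul_smul, h3]
    rw [if_neg hc, mul_zero]

theorem rs_mem_loc {a : ι → X} {b : κ → X} {M : GMat κ ι G} (hM : Loc a b M) (χ : X → Bool)
    {x : L2 (ι × G)} (hx : x ∈ kerA M) :
    rs (fun p : ι × G => χ (p.2 • a p.1)) x ∈ kerA M := by
  intro k g
  have h1 := act_loc hM χ x k g
  rw [hx k g, ite_self] at h1
  exact h1

theorem Loc.stack {κ' : Type} {a : ι → X} {b : κ → X} {b' : κ' → X} {M : GMat κ ι G}
    {M' : GMat κ' ι G} (hM : Loc a b M) (hM' : Loc a b' M') :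
    Loc a (Sum.elim b b') (BC.stack M M') := by
  rintro (k | k) i h hh
  · exact hM k i h hh
  · exact hM' k i h hh

theorem Loc.map {Y : Type} [MulAction G Y] {a : ι → X} {b : κ → X} {M : GMat κ ι G}
    (hM : Loc a b M) (p : X → Y) (hp : ∀ (g : G) x, p (g • x) = g • p x) :
    Loc (fun i => p (a i)) (fun k => p (b k)) M := by
  intro k i h hh
  rw [← hp, hM k i h hh]

/-! ### twisting -/

/-- the twisted matrix -/
noncomputable def tw (s : κ → G) (t : ι → G) (M : GMat κ ι G) : GMat κ ι G :=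
  fun k i => (M k i).mapDomain (fun h => (s k)⁻¹ * h * t i)

theorem inj_tw (t : ι → G) : Function.Injective (fun p : ι × G => (p.1, p.2 * t p.1)) := by
  rintro ⟨a, b⟩ ⟨c, d⟩ h
  simp only [Prod.mk.injEq] at h
  obtain ⟨rfl, h⟩ := h
  rw [mul_left_inj] at h
  rw [h]

/-- right translation in each coordinate -/
noncomputable def rt (t : ι → G) : L2 (ι × G) →L[ℂ] L2 (ι × G) :=
  KP.pull (fun p => (p.1, p.2 * t p.1)) (inj_tw t)

theorem rt_apply (t : ι → G) (x : L2 (ι × G)) (i : ι) (g : G) :
    rt t x (i, g) = x (i, g * t i) := rfl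

theorem equi_rt (t : ι → G) : Equi (rt t) := by
  apply equi_of
  intro g x
  ext ⟨i, h⟩
  rw [rt_apply, lt_apply, lt_apply, rt_apply, mul_assoc]

theorem act_tw (s : κ → G) (t : ι → G) (M : GMat κ ι G) (x : L2 (ι × G)) (k : κ) (g : G) :
    act (tw s t M) x k g = act M (rt t x) k (g * (s k)⁻¹) := by
  unfold act tw
  refine Finset.sum_congr rfl fun i _ => ?_
  rw [Finsupp.sum_mapDomain_index]
  · refine Finsupp.sum_congr fun h _ => ?_
    rw [rt_apply]
    simp only [mul_assoc]
  · intro b; simp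
  · intro b c d; ring

theorem mem_tw (s : κ → G) (t : ι → G) (M : GMat κ ι G) (x : L2 (ι × G)) :
    x ∈ kerA (tw s t M) ↔ rt t x ∈ kerA M := by
  constructor
  · intro h k g
    have := h k (g * s k)
    rw [act_tw] at this
    simpa using this
  · intro h k g
    rw [act_tw]
    exact h k _

theorem vdim_tw [Fintype κ] (s : κ → G) (t : ι → G) (M : GMat κ ι G) :
    vdim (kerA (tw s t M)) = vdim (kerA M) := by
  have e1 : ∀ x : L2 (ι × G), rt t (rt (fun i => (t i)⁻¹) x) = x := by
    intro x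
    ext ⟨i, g⟩
    rw [rt_apply, rt_apply]
    simp
  have e2 : ∀ x : L2 (ι × G), rt (fun i => (t i)⁻¹) (rt t x) = x := by
    intro x
    ext ⟨i, g⟩
    rw [rt_apply, rt_apply]
    simp
  apply le_antisymm
  · refine vdim_inj_le (isClosed_kerA _) (linv_kerA _) (rt t) (equi_rt t) (isClosed_kerA _)
      (fun x hx => (mem_tw s t M x).1 hx) ?_
    intro x _ hx
    rw [← e2 x, hx, map_zero]
  · refine vdim_inj_le (isClosed_kerA _) (linv_kerA _) (rt fun i => (t i)⁻¹) (equi_rt _)
      (isClosed_kerA _) (fun x hx => ?_) ?_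
    · rw [mem_tw, e1]
      exact hx
    · intro x _ hx
      rw [← e1 x, hx, map_zero]

/-! ### blocks -/

open Classical in
/-- the part of `M` at the point `c` -/
noncomputable def blk (a : ι → X) (b : κ → X) (M : GMat κ ι G) (c : X) :
    GMat {k : κ // b k = c} {i : ι // a i = c} (MulAction.stabilizer G c) :=
  fun k i => (M k i).comapDomain Subtype.val Subtype.val_injective.injOn

theorem inj_blk (a : ι → X) (c : X) (g : G) : Function.Injective
    (fun p : {i : ι // a i = c} × MulAction.stabilizer G c => ((p.1 : ι), g * (p.2 : G))) := by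
  rintro ⟨⟨i, hi⟩, ⟨h, hh⟩⟩ ⟨⟨i', hi'⟩, ⟨h', hh'⟩⟩ e
  simp only [Prod.mk.injEq, mul_right_inj] at e
  obtain ⟨rfl, rfl⟩ := e
  rfl

/-- slices -/
noncomputable def slb (a : ι → X) (c : X) (g : G) :
    L2 (ι × G) →L[ℂ] L2 ({i : ι // a i = c} × MulAction.stabilizer G c) :=
  KP.pull (fun p => ((p.1 : ι), g * (p.2 : G))) (inj_blk a c g)

theorem slb_apply (a : ι → X) (c : X) (g : G) (x : L2 (ι × G)) (i : {i : ι // a i = c})
    (h : MulAction.stabilizer G c) : slb a c g x (i, h) = x ((i : ι), g * (h : G)) := rfl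

/-- block form -/
def Blk (a : ι → X) (b : κ → X) (M : GMat κ ι G) : Prop :=
  ∀ k i h, M k i h ≠ 0 → a i = b k ∧ h ∈ MulAction.stabilizer G (a i)

open Classical in
theorem act_blk_aux {a : ι → X} {b : κ → X} {M : GMat κ ι G} (hM : Blk a b M) (c : X)
    (x : ι × G → ℂ) (g : G) (k : {k : κ // b k = c}) (h : MulAction.stabilizer G c) :
    act (blk a b M c) (fun p => x ((p.1 : ι), g * (p.2 : G))) k h = act M x k (g * h) := by
  unfold act
  have h1 : ∀ i : ι, a i ≠ c → ((M (k : κ) i).sum fun h' c' => c' * x (i, g * h * h')) = 0 := by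
    intro i hi
    unfold Finsupp.sum
    refine Finset.sum_eq_zero fun h' hh => ?_
    exact absurd ((hM k i h' (Finsupp.mem_support_iff.1 hh)).1.trans k.2) hi
  have h2 : ∀ i : {i : ι // a i = c},
      ((blk a b M c k i).sum fun h' c' => c' * x ((i : ι), g * ((h * h' :
        MulAction.stabilizer G c) : G))) =
        (M (k : κ) (i : ι)).sum fun h' c' => c' * x (i, g * h * h') := by
    intro i
    unfold Finsupp.sum blk
    rw [Finsupp.comapDomain_support]
    refine Finset.sum_bij_ne_zero (fun h' _ _ => (h' : G)) ?_ ?_ ?_ ?_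
    · intro h' hh _
      simpa using hh
    · intro h' _ _ h'' _ _ e
      exact Subtype.ext e
    · intro h' hh hne
      have h3 := hM k i h' (Finsupp.mem_support_iff.1 hh)
      have h4 : h' ∈ MulAction.stabilizer G c := by
        have := h3.2
        rwa [i.2] at this
      refine ⟨⟨h', h4⟩, by simpa using hh, ?_, rfl⟩
      rw [Finsupp.comapDomain_apply]
      beta_reduce
      rw [Subgroup.coe_mul, ← mul_assoc]
      exact hne
    · intro h' _ _
      rw [Finsupp.comapDomain_apply]
      beta_reduce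
      rw [Subgroup.coe_mul, ← mul_assoc]
  rw [Finset.sum_congr rfl fun i _ => h2 i]
  rw [← Finset.sum_filter_add_sum_filter_not Finset.univ (fun i => a i = c)
    (fun i => (M (k : κ) i).sum fun h' c' => c' * x (i, g * h * h'))]
  rw [Finset.sum_eq_zero (s := Finset.univ.filter fun i => ¬ a i = c), add_zero]
  · refine (Finset.sum_subtype (p := fun i => a i = c) _ ?_
      (fun i => (M (k : κ) i).sum fun h' c' => c' * x (i, g * h * h'))).symm
    intro i
    simp
  · intro i hi
    exact h1 i (by simpa using hi)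

open Classical in
theorem mem_blk {a : ι → X} {b : κ → X} {M : GMat κ ι G} (hM : Blk a b M) (x : L2 (ι × G)) :
    x ∈ kerA M ↔ ∀ c g, slb a c g x ∈ kerA (blk a b M c) := by
  constructor
  · intro h c g k h'
    have h1 := act_blk_aux hM c x g k h'
    rw [h (k : κ)] at h1
    exact h1
  · intro h k g
    have h1 := act_blk_aux hM (b k) x g ⟨k, rfl⟩ 1
    rw [Subgroup.coe_one, mul_one] at h1
    rw [← h1]
    exact h (b k) g ⟨k, rfl⟩ 1

open Classical in
theorem mem_of_blk [Fintype κ] {a : ι → X} {b : κ → X} {M : GMat κ ι G} (hM : Blk a b M)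
    (Λ : AddSubgroup ℝ) (hΛ : ∀ i, vdim (kerA (blk a b M (a i))) ∈ Λ) :
    vdim (kerA M) ∈ Λ := by
  have hex := fun c : X => exists_vec (isClosed_kerA (blk a b M c))
  choose u hu hu2 hu3 using hex
  set w : ι → L2 (ι × G) := fun i =>
    KP.push (fun p : {j : ι // a j = a i} × MulAction.stabilizer G (a i) =>
      ((p.1 : ι), (p.2 : G))) (by simpa using inj_blk a (a i) (1 : G)) (u (a i) ⟨i, rfl⟩) with hw
  have hw1 : ∀ i (j : {j : ι // a j = a i}) (h : MulAction.stabilizer G (a i)),
      w i ((j : ι), (h : G)) = u (a i) ⟨i, rfl⟩ (j, h) := fun i j h =>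
    pushL_apply _ _ (u (a i) ⟨i, rfl⟩) (j, h)
  have hw0 : ∀ i j g, ¬ (a j = a i ∧ g ∈ MulAction.stabilizer G (a i)) → w i (j, g) = 0 := by
    intro i j g hg
    apply pushL_apply_ne
    rintro ⟨a', b'⟩ h
    simp only [Prod.mk.injEq] at h
    apply hg
    rw [← h.1, ← h.2]
    exact ⟨a'.2, b'.2⟩
  have hkey : vdim (kerA M) = ∑ i, (u (a i) ⟨i, rfl⟩ (⟨i, rfl⟩, 1)).re := by
    rw [vdim_of_vec (isClosed_kerA M) w]
    · refine Finset.sum_congr rfl fun i _ => ?_
      rw [← hw1 i ⟨i, rfl⟩ 1]
      rfl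
    · intro i
      rw [mem_blk hM]
      intro c g
      by_cases hc : c = a i
      · subst hc
        by_cases hg : g ∈ MulAction.stabilizer G (a i)
        · have : slb a (a i) g (w i) = lt _ (⟨g, hg⟩ : MulAction.stabilizer G (a i))
              (u (a i) ⟨i, rfl⟩) := by
            ext ⟨j, h⟩
            rw [slb_apply, lt_apply, ← hw1]
            rfl
          rw [this]
          exact linv_lt (linv_kerA _) _ (hu _ _)
        · have : slb a (a i) g (w i) = 0 := by
            ext ⟨j, h⟩
            rw [slb_apply, hw0]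
            · rfl
            · rintro ⟨_, h3⟩
              exact hg ((Subgroup.mul_mem_cancel_right _ h.2).1 h3)
          rw [this]
          exact Submodule.zero_mem _
      · have : slb a c g (w i) = 0 := by
          ext ⟨j, h⟩
          rw [slb_apply, hw0]
          · rfl
          · rintro ⟨h3, _⟩
            exact hc (j.2.symm.trans h3)
        rw [this]
        exact Submodule.zero_mem _
    · intro i x hx
      have h1 : ⟪w i, x⟫_ℂ = ⟪u (a i) ⟨i, rfl⟩, slb a (a i) 1 x⟫_ℂ := by
        rw [hw]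
        show ⟪KP.push _ _ (u (a i) ⟨i, rfl⟩), x⟫_ℂ = _
        rw [KP.push, ContinuousLinearMap.adjoint_inner_left]
        congr 1
        ext ⟨j, h⟩
        rw [slb_apply, one_mul]
        rfl
      rw [h1, hu2 (a i) ⟨i, rfl⟩ _ ((mem_blk hM x).1 hx (a i) 1), slb_apply, one_mul]
      rfl
  rw [hkey, ← Finset.sum_fiberwise_of_maps_to (s := Finset.univ) (t := Finset.univ.image a)
    (g := a) (fun i _ => Finset.mem_image_of_mem a (Finset.mem_univ i))]
  refine Λ.sum_mem fun c hc => ?_
  obtain ⟨i0, -, rfl⟩ := Finset.mem_image.1 hc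
  have h2 : ∑ i with a i = a i0, (u (a i) ⟨i, rfl⟩ (⟨i, rfl⟩, 1)).re =
      vdim (kerA (blk a b M (a i0))) := by
    rw [hu3 (a i0)]
    rw [Finset.sum_subtype (p := fun i => a i = a i0) (Finset.univ.filter fun i => a i = a i0)
      (by intro i; simp) (fun i => (u (a i) ⟨i, rfl⟩ (⟨i, rfl⟩, 1)).re)]
    refine Finset.sum_congr rfl fun i _ => ?_
    obtain ⟨i, hi⟩ := i
    have : ∀ (c : X) (hi : a i = c), (u (a i) ⟨i, rfl⟩ (⟨i, rfl⟩, 1)).re =
        (u c ⟨i, hi⟩ (⟨i, hi⟩, 1)).re := by
      rintro c rfl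
      rfl
    exact this _ hi
  rw [h2]
  exact hΛ i0

/-- All kernel dimensions over `ℂ[H]` lie in `Λ`. -/
def Good (Λ : AddSubgroup ℝ) (H : Type) [Group H] : Prop := ∀ v : ℝ, Val ⊤ H v → v ∈ Λ

open Classical in
/-- **Located matrices**: the kernel dimension is controlled by the point stabilisers. -/
theorem mem_of_loc [Fintype κ] {a : ι → X} {b : κ → X} {M : GMat κ ι G} (hM : Loc a b M)
    (Λ : AddSubgroup ℝ) (hΛ : ∀ x : X, Good Λ (MulAction.stabilizer G x)) :
    vdim (kerA M) ∈ Λ := by
  set r : X → X := fun x => (Quotient.mk (MulAction.orbitRel G X) x).out with hr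
  have hr1 : ∀ x, ∃ g : G, g • r x = x := by
    intro x
    have h1 : (MulAction.orbitRel G X).r x (r x) :=
      Quotient.exact (Quotient.out_eq (Quotient.mk (MulAction.orbitRel G X) x)).symm
    exact h1
  have hr2 : ∀ (g : G) x, r (g • x) = r x := by
    intro g x
    have h1 : Quotient.mk (MulAction.orbitRel G X) (g • x) =
        Quotient.mk (MulAction.orbitRel G X) x := Quotient.sound ⟨g, rfl⟩
    rw [hr]
    simp only [h1]
  choose τ hτ using hr1
  set s : κ → G := fun k => τ (b k) with hs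
  set t : ι → G := fun i => τ (a i) with ht
  rw [← vdim_tw s t M]
  have hB : Blk (fun i => r (a i)) (fun k => r (b k)) (tw s t M) := by
    intro k i h hh
    unfold tw at hh
    have h1 : h ∈ ((M k i).mapDomain fun h => (s k)⁻¹ * h * t i).support :=
      Finsupp.mem_support_iff.2 hh
    have h2 := Finsupp.mapDomain_support h1
    rw [Finset.mem_image] at h2
    obtain ⟨h', h3, rfl⟩ := h2
    have h4 := hM k i h' (Finsupp.mem_support_iff.1 h3)
    have h5 : r (a i) = r (b k) := by rw [← h4, hr2]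
    refine ⟨h5, ?_⟩
    rw [MulAction.mem_stabilizer_iff, mul_smul, mul_smul, hτ, h4, inv_smul_eq_iff]
    beta_reduce
    rw [h5, hτ]
  exact mem_of_blk hB Λ fun i => hΛ _ _ (val_of _ fun _ _ _ => Subring.mem_top _)

end loc

end Pool.Agent.Zk53.AT
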