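import Pool.Agent.Zk53.AT9

/-!
Extending functions from a vertex stabiliser to the group.
-/

set_option autoImplicit false
set_option linter.unusedSectionVars false

open scoped InnerProductSpace ENNReal
open Filter Topology

namespace Pool.Agent.Zk53.AT

open Pool.Agent.H80R2
open Pool.Agent.H80R2.BC (L2 GMat vdim IsTr LInv Equi act kerA dk pt vals TorDiv Coef AtR)
open Pool.Agent.H812R3
open Pool.Agent.W656.VA

section pi
variable {V : Type} {T : SimpleGraph V}

/-- the graph without the edges at `v` -/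
def cutV (T : SimpleGraph V) (v : V) : SimpleGraph V where
  Adj x y := T.Adj x y ∧ x ≠ v ∧ y ≠ v
  symm := ⟨fun _ _ h => ⟨h.1.symm, h.2.2, h.2.1⟩⟩
  loopless := ⟨fun _ h => h.1.ne rfl⟩

theorem cutV_unique (hT : T.IsAcyclic) (v : V) {w w' x : V} (hw : T.Adj v w) (hw' : T.Adj v w')
    (h : (cutV T v).Reachable w x) (h' : (cutV T v).Reachable w' x) : w = w' := by
  by_contra hne
  have h1 := SimpleGraph.isAcyclic_iff_forall_adj_isBridge.1 hT hw
  rw [SimpleGraph.isBridge_iff] at h1
  apply h1
  have hle : cutV T v ≤ T.deleteEdges {s(v, w)} := by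
    intro a b hab
    rw [SimpleGraph.deleteEdges_adj]
    refine ⟨hab.1, ?_⟩
    intro h2
    rw [Set.mem_singleton_iff, Sym2.eq_iff] at h2
    rcases h2 with ⟨h3, _⟩ | ⟨_, h3⟩
    · exact hab.2.1 h3
    · exact hab.2.2 h3
  have h2 : (T.deleteEdges {s(v, w)}).Reachable w w' := (h.trans h'.symm).mono hle
  have h3 : (T.deleteEdges {s(v, w)}).Adj v w' := by
    rw [SimpleGraph.deleteEdges_adj]
    refine ⟨hw', ?_⟩
    intro h2
    rw [Set.mem_singleton_iff, Sym2.eq_iff] at h2
    rcases h2 with ⟨_, h3⟩ | ⟨h3, h4⟩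
    · exact hne h3.symm
    · exact hne (h3 ▸ h4 ▸ rfl)
  exact h3.reachable.trans h2.symm

open Classical in
/-- the projection to the neighbours of `v` -/
noncomputable def prj (T : SimpleGraph V) (v x : V) : V :=
  if h : ∃ w, T.Adj v w ∧ (cutV T v).Reachable w x then h.choose else v

theorem prj_eq (hT : T.IsAcyclic) (v : V) {x w : V} (hw : T.Adj v w)
    (h : (cutV T v).Reachable w x) : prj T v x = w := by
  unfold prj
  have hex : ∃ w, T.Adj v w ∧ (cutV T v).Reachable w x := ⟨w, hw, h⟩
  rw [dif_pos hex]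
  exact cutV_unique hT v hex.choose_spec.1 hw hex.choose_spec.2 h

theorem prj_adj (hT : T.IsAcyclic) (v : V) {x y : V} (hxy : T.Adj x y) (hx : x ≠ v)
    (hy : y ≠ v) : prj T v x = prj T v y := by
  have hadj : (cutV T v).Adj x y := ⟨hxy, hx, hy⟩
  by_cases h : ∃ w, T.Adj v w ∧ (cutV T v).Reachable w x
  · obtain ⟨w, hw, h⟩ := h
    rw [prj_eq hT v hw h, prj_eq hT v hw (h.trans hadj.reachable)]
  · have h' : ¬ ∃ w, T.Adj v w ∧ (cutV T v).Reachable w y := by
      rintro ⟨w, hw, h2⟩
      exact h ⟨w, hw, h2.trans hadj.symm.reachable⟩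
    unfold prj
    rw [dif_neg h, dif_neg h']

theorem prj_self (hT : T.IsAcyclic) (v : V) {w : V} (hw : T.Adj v w) : prj T v w = w :=
  prj_eq hT v hw (SimpleGraph.Reachable.refl _)

end pi

section ext
variable {G V : Type} [Group G] [MulAction G V] {T : SimpleGraph V}

open Classical in
/-- the bound -/
noncomputable def Bd (H : Subgroup G) (L : List (G × G)) (f : G → ℂ) (g : G) : ℝ :=
  (L.map fun p => if g * p.1 ∈ H then ‖f (g * p.1) - f (g * p.1 * p.2)‖ else 0).sum

theorem Bd_append (H : Subgroup G) (L L' : List (G × G)) (f : G → ℂ) (g : G) :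
    Bd H (L ++ L') f g = Bd H L f g + Bd H L' f g := by
  unfold Bd
  rw [List.map_append, List.sum_append]

theorem Bd_nonneg (H : Subgroup G) (L : List (G × G)) (f : G → ℂ) (g : G) : 0 ≤ Bd H L f g := by
  classical
  unfold Bd
  apply List.sum_nonneg
  intro x hx
  rw [List.mem_map] at hx
  obtain ⟨p, _, rfl⟩ := hx
  split_ifs
  · exact norm_nonneg _
  · exact le_rfl

theorem Bd_mem (H : Subgroup G) (L : List (G × G)) (f : G → ℂ) (g : G) (p : G × G) (hp : p ∈ L)
    (hg : g * p.1 ∈ H) : ‖f (g * p.1) - f (g * p.1 * p.2)‖ ≤ Bd H L f g := by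
  classical
  induction L with
  | nil => simp at hp
  | cons q L ih =>
    have e : Bd H (q :: L) f g = Bd H [q] f g + Bd H L f g := Bd_append H [q] L f g
    rw [e]
    rcases List.mem_cons.1 hp with rfl | h
    · have h1 : Bd H [p] f g = ‖f (g * p.1) - f (g * p.1 * p.2)‖ := by
        unfold Bd
        simp [hg]
      rw [h1]
      linarith [Bd_nonneg H L f g]
    · linarith [ih h, Bd_nonneg H [q] f g]

variable (v : V)

/-- orbit representatives for the stabiliser -/
theorem exists_rep : ∃ (r : V → V) (κ : V → G), (∀ x, κ x ∈ MulAction.stabilizer G v ∧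
    κ x • r x = x) ∧ ∀ h ∈ MulAction.stabilizer G v, ∀ x, r (h • x) = r x := by
  set H := MulAction.stabilizer G v
  set r : V → V := fun x => (Quotient.mk (MulAction.orbitRel H V) x).out with hr
  have hr1 : ∀ x, ∃ g : H, g • r x = x := by
    intro x
    have h1 : (MulAction.orbitRel H V).r x (r x) :=
      Quotient.exact (Quotient.out_eq (Quotient.mk (MulAction.orbitRel H V) x)).symm
    exact h1
  choose κ hκ using hr1
  refine ⟨r, fun x => κ x, fun x => ⟨(κ x).2, hκ x⟩, ?_⟩
  intro h hh x
  have h1 : Quotient.mk (MulAction.orbitRel H V) ((⟨h, hh⟩ : H) • x) =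
      Quotient.mk (MulAction.orbitRel H V) x := Quotient.sound ⟨⟨h, hh⟩, rfl⟩
  have h2 : ((⟨h, hh⟩ : H) • x) = h • x := rfl
  rw [hr, ← h2]
  simp only [h1]

/-- transporters -/
theorem exists_trans : ∃ γ : V → G, γ v = 1 ∧ ∀ g : G, γ (g • v) • v = g • v := by
  classical
  refine ⟨fun u => if u = v then 1 else if h : ∃ g : G, g • v = u then h.choose else 1, by simp,
    fun g => ?_⟩
  beta_reduce
  by_cases h1 : g • v = v
  · rw [if_pos h1, one_smul, h1]
  · have h2 : ∃ g' : G, g' • v = g • v := ⟨g, rfl⟩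
    rw [if_neg h1, dif_pos h2]
    exact h2.choose_spec

theorem finite_move (hfin : ∀ v w : V, T.Adj v w → Finite {g : G // g • v = v ∧ g • w = w})
    {x y : V} (hxy : T.Adj x y) (x' y' : V) : {g : G | g • x = x' ∧ g • y = y'}.Finite := by
  have h2 : {g : G | g • x = x ∧ g • y = y}.Finite := hfin x y hxy
  by_cases hne : ∃ g0 : G, g0 • x = x' ∧ g0 • y = y'
  · obtain ⟨g0, h4, h5⟩ := hne
    refine (h2.image fun g => g0 * g).subset ?_
    rintro g ⟨h6, h7⟩
    refine ⟨g0⁻¹ * g, ⟨?_, ?_⟩, by simp⟩
    · rw [mul_smul, h6, inv_smul_eq_iff, h4]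
    · rw [mul_smul, h7, inv_smul_eq_iff, h5]
  · refine Set.Finite.subset Set.finite_empty ?_
    intro g hg
    exact hne ⟨g, hg⟩

/-- **Extension of functions** from a vertex stabiliser to the group. -/
theorem extension (hT : T.IsTree)
    (hact : ∀ (g : G) (v w : V), T.Adj v w → T.Adj (g • v) (g • w))
    (hfin : ∀ v w : V, T.Adj v w → Finite {g : G // g • v = v ∧ g • w = w}) :
    ∃ E : (G → ℂ) → (G → ℂ), (∀ f, ∀ h ∈ MulAction.stabilizer G v, E f h = f h) ∧
      (∀ f, ∀ g ∉ MulAction.stabilizer G v, ∀ h ∈ MulAction.stabilizer G v,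
        E f (g * h) = E f g) ∧
      ∀ a : G, ∃ L : List (G × G), (∀ p ∈ L, p.2 ∈ MulAction.stabilizer G v) ∧
        ∀ f g, ‖E f (g * a) - E f g‖ ≤ Bd (MulAction.stabilizer G v) L f g := by
  classical
  obtain ⟨r, κ, hκ, hr⟩ := exists_rep (G := G) v
  obtain ⟨γ, hγ1, hγ⟩ := exists_trans (G := G) v
  set H := MulAction.stabilizer G v with hH
  have memH : ∀ g : G, g ∈ H ↔ g • v = v := fun g => MulAction.mem_stabilizer_iff
  set F : (G → ℂ) → G → V → ℂ := fun f g u =>
    if g • u = v then f (g * γ u) else f (κ (prj T v (g • u))) with hF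
  have hFpos : ∀ f g u, g • u = v → F f g u = f (g * γ u) := fun f g u h => if_pos h
  have hFneg : ∀ f g u, g • u ≠ v → F f g u = f (κ (prj T v (g • u))) := fun f g u h => if_neg h
  -- `g * γ u` lies in `H` when `g • u = v`
  have hγH : ∀ g u, g • u = v → g * γ u ∈ H := by
    intro g u h
    have h1 : u = g⁻¹ • v := by rw [← h, inv_smul_smul]
    rw [memH, mul_smul]
    have h2 := hγ g⁻¹
    rw [← h1] at h2
    rw [h2, h]
  -- half of the step lemma
  have half : ∀ a b : V, T.Adj a b → ∃ L : List (G × G), (∀ p ∈ L, p.2 ∈ H) ∧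
      ∀ f g, g • a = v → ‖F f g a - F f g b‖ ≤ Bd H L f g := by
    intro a b hab
    by_cases horb : ∃ g0 : G, g0 • a = v
    · obtain ⟨g0, hg0⟩ := horb
      have hγa : γ a • v = a := by
        have h1 : a = g0⁻¹ • v := by rw [← hg0, inv_smul_smul]
        have h2 := hγ g0⁻¹
        rwa [← h1] at h2
      set ε : V := (γ a)⁻¹ • b with hε
      have hvε : T.Adj v ε := by
        have h1 := hact (γ a)⁻¹ a b hab
        rwa [inv_smul_eq_iff.2 hγa.symm] at h1
      have hvr : T.Adj v (r ε) := by
        have h1 := hact (κ ε)⁻¹ v ε hvε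
        rw [inv_smul_eq_iff.2 (hκ ε).2.symm, inv_smul_eq_iff.2 ((memH _).1 (hκ ε).1).symm] at h1
        exact h1
      have hfinS := finite_move (G := G) hfin hvr v ε
      refine ⟨hfinS.toFinset.toList.map fun c => (γ a, c), ?_, ?_⟩
      · intro p hp
        rw [List.mem_map] at hp
        obtain ⟨c, hc, rfl⟩ := hp
        rw [Finset.mem_toList, Set.Finite.mem_toFinset] at hc
        exact (memH c).2 hc.1
      · intro f g hga
        have hgb : g • b ≠ v := by
          intro h
          exact hab.ne (MulAction.injective g (hga.trans h.symm))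
        have hadj : T.Adj v (g • b) := by
          have := hact g a b hab
          rwa [hga] at this
        set k := g * γ a with hk
        have hkH : k ∈ H := hγH g a hga
        have hkb : g • b = k • ε := by
          rw [hk, hε, mul_smul, smul_inv_smul]
        set c := k⁻¹ * κ (g • b) with hc
        have hcv : c • v = v := by
          rw [hc]
          exact (memH _).1 (H.mul_mem (H.inv_mem hkH) (hκ _).1)
        have hcr : c • r ε = ε := by
          have h1 : r ε = r (g • b) := by rw [hkb, hr k hkH]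
          rw [hc, mul_smul, h1, (hκ _).2, hkb, inv_smul_smul]
        have hmem : (γ a, c) ∈ hfinS.toFinset.toList.map fun c => (γ a, c) := by
          rw [List.mem_map]
          refine ⟨c, ?_, rfl⟩
          rw [Finset.mem_toList, Set.Finite.mem_toFinset]
          exact ⟨hcv, hcr⟩
        have h2 := Bd_mem H _ f g (γ a, c) hmem hkH
        rw [hFpos f g a hga, hFneg f g b hgb, prj_self hT.isAcyclic v hadj]
        have h3 : κ (g • b) = g * γ a * c := by
          rw [hc, hk]
          group
        rw [h3]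
        exact h2
    · refine ⟨[], by simp, fun f g h => absurd ⟨g, h⟩ horb⟩
  -- the step lemma
  have step : ∀ a b : V, T.Adj a b → ∃ L : List (G × G), (∀ p ∈ L, p.2 ∈ H) ∧
      ∀ f g, ‖F f g a - F f g b‖ ≤ Bd H L f g := by
    intro a b hab
    obtain ⟨L1, h1, h2⟩ := half a b hab
    obtain ⟨L2, h3, h4⟩ := half b a hab.symm
    refine ⟨L1 ++ L2, ?_, fun f g => ?_⟩
    · intro p hp
      rcases List.mem_append.1 hp with h | h
      · exact h1 p h
      · exact h3 p h
    · rw [Bd_append]
      by_cases ha : g • a = v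
      · linarith [h2 f g ha, Bd_nonneg H L2 f g]
      · by_cases hb : g • b = v
        · have h5 := h4 f g hb
          rw [norm_sub_rev] at h5
          linarith [Bd_nonneg H L1 f g]
        · rw [hFneg f g a ha, hFneg f g b hb, prj_adj hT.isAcyclic v (hact g a b hab) ha hb,
            sub_self, norm_zero]
          linarith [Bd_nonneg H L1 f g, Bd_nonneg H L2 f g]
  have walk : ∀ {a b : V} (_ : T.Walk a b), ∃ L : List (G × G), (∀ p ∈ L, p.2 ∈ H) ∧
      ∀ f g, ‖F f g a - F f g b‖ ≤ Bd H L f g := by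
    intro a b p
    induction p with
    | nil => exact ⟨[], by simp, fun f g => by simp [Bd]⟩
    | @cons a c b h _ ih =>
      obtain ⟨L1, h1, h2⟩ := step a c h
      obtain ⟨L2, h3, h4⟩ := ih
      refine ⟨L1 ++ L2, ?_, fun f g => ?_⟩
      · intro p hp
        rcases List.mem_append.1 hp with h | h
        · exact h1 p h
        · exact h3 p h
      · rw [Bd_append]
        calc ‖F f g a - F f g b‖ = ‖(F f g a - F f g c) + (F f g c - F f g b)‖ := by ring_nf
          _ ≤ ‖F f g a - F f g c‖ + ‖F f g c - F f g b‖ := norm_add_le _ _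
          _ ≤ _ := add_le_add (h2 f g) (h4 f g)
  refine ⟨fun f g => F f g v, ?_, ?_, ?_⟩
  · intro f h hh
    show F f h v = f h
    rw [hFpos f h v ((memH h).1 hh), hγ1, mul_one]
  · intro f g hg h hh
    show F f (g * h) v = F f g v
    have h1 : (g * h) • v = g • v := by rw [mul_smul, (memH h).1 hh]
    have h2 : g • v ≠ v := fun h' => hg ((memH g).2 h')
    rw [hFneg f g v h2, hFneg f (g * h) v (by rw [h1]; exact h2), h1]
  · intro a
    obtain ⟨p⟩ := hT.connected.preconnected v (a • v)
    obtain ⟨L, h1, h2⟩ := walk p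
    refine ⟨(γ (a • v), (γ (a • v))⁻¹ * a) :: L, ?_, fun f g => ?_⟩
    · intro q hq
      rcases List.mem_cons.1 hq with rfl | h
      · show (γ (a • v))⁻¹ * a ∈ H
        rw [memH, mul_smul, inv_smul_eq_iff, hγ]
      · exact h1 q h
    · have e : Bd H ((γ (a • v), (γ (a • v))⁻¹ * a) :: L) f g =
          Bd H [(γ (a • v), (γ (a • v))⁻¹ * a)] f g + Bd H L f g := Bd_append H [_] L f g
      rw [e]
      have key : ‖F f (g * a) v - F f g (a • v)‖ ≤ Bd H [(γ (a • v), (γ (a • v))⁻¹ * a)] f g := by
        have h3 : (g * a) • v = g • a • v := mul_smul g a v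
        by_cases h4 : g • a • v = v
        · rw [hFpos f g (a • v) h4, hFpos f (g * a) v (h3.trans h4), hγ1, mul_one]
          have h5 : g * γ (a • v) ∈ H := hγH g (a • v) h4
          have h6 := Bd_mem H [(γ (a • v), (γ (a • v))⁻¹ * a)] f g _ (List.mem_singleton.2 rfl) h5
          rw [norm_sub_rev] at h6
          have h7 : g * γ (a • v) * ((γ (a • v))⁻¹ * a) = g * a := by group
          simp only [h7] at h6
          exact h6
        · rw [hFneg f g (a • v) h4, hFneg f (g * a) v (by rw [h3]; exact h4), h3, sub_self,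
            norm_zero]
          exact Bd_nonneg _ _ _ _
      have h8 := h2 f g
      rw [norm_sub_rev] at h8
      calc ‖F f (g * a) v - F f g v‖
          = ‖(F f (g * a) v - F f g (a • v)) + (F f g (a • v) - F f g v)‖ := by ring_nf
        _ ≤ ‖F f (g * a) v - F f g (a • v)‖ + ‖F f g (a • v) - F f g v‖ := norm_add_le _ _
        _ ≤ _ := add_le_add key h8

end ext

end Pool.Agent.Zk53.AT
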