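import Pool.Agent.Zk53.AT10

/-!
Vertex stabilisers are finitely generated; the restriction of gradients is onto.
-/

set_option autoImplicit false
set_option linter.unusedSectionVars false

open scoped InnerProductSpace ENNReal
open Filter Topology

namespace Pool.Agent.Zk53.AT

open Pool.Agent.H80R2
open Pool.Agent.H80R2.BC (L2 GMat vdim IsTr LInv Equi act kerA dk pt vals TorDiv Coef AtR)
open Pool.Agent.H812R3
open Pool.Agent.W656.VA

variable {G V : Type} [Group G] [MulAction G V] {T : SimpleGraph V} (v : V)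

theorem const_of_gen {ι : Type} (s : ι → G) (hs : Subgroup.closure (Set.range s) = ⊤)
    (f : G → ℂ) (hf : ∀ i g, f (g * s i) = f g) (a g : G) : f (g * a) = f g := by
  have ha : a ∈ Subgroup.closure (Set.range s) := by
    rw [hs]
    trivial
  revert g
  induction ha using Subgroup.closure_induction with
  | mem x hx =>
    obtain ⟨i, rfl⟩ := hx
    exact hf i
  | one => intro g; rw [mul_one]
  | mul x y _ _ hx hy => intro g; rw [← mul_assoc, hy, hx]
  | inv x _ hx =>
    intro g
    have := hx (g * x⁻¹)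
    rw [inv_mul_cancel_right] at this
    exact this.symm

theorem Bd_zero (H : Subgroup G) (L : List (G × G)) (f : G → ℂ) (g : G)
    (h : ∀ p ∈ L, ∀ k ∈ H, f (k * p.2) = f k) : Bd H L f g = 0 := by
  classical
  unfold Bd
  apply List.sum_eq_zero
  intro x hx
  rw [List.mem_map] at hx
  obtain ⟨p, hp, rfl⟩ := hx
  split_ifs with hg
  · rw [h p hp _ hg, sub_self, norm_zero]
  · rfl

/-- Vertex stabilisers of finitely generated groups acting on trees with finite edge stabilisers
are finitely generated. -/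
theorem stab_fg (hT : T.IsTree)
    (hact : ∀ (g : G) (v w : V), T.Adj v w → T.Adj (g • v) (g • w))
    (hfin : ∀ v w : V, T.Adj v w → Finite {g : G // g • v = v ∧ g • w = w})
    {ι : Type} [Fintype ι] (s : ι → G) (hs : Subgroup.closure (Set.range s) = ⊤) :
    ∃ (n : ℕ) (t : Fin n → MulAction.stabilizer G v),
      Subgroup.closure (Set.range t) = ⊤ := by
  classical
  obtain ⟨E, h1, -, h3⟩ := extension v hT hact hfin
  choose L hL hLE using fun i => h3 (s i)
  set S : Finset G := Finset.univ.biUnion fun i => ((L i).map Prod.snd).toFinset with hS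
  have hSH : ∀ c ∈ S, c ∈ MulAction.stabilizer G v := by
    intro c hc
    rw [hS, Finset.mem_biUnion] at hc
    obtain ⟨i, -, hi⟩ := hc
    rw [List.mem_toFinset, List.mem_map] at hi
    obtain ⟨p, hp, rfl⟩ := hi
    exact hL i p hp
  set H0 : Subgroup G := Subgroup.closure (S : Set G) with hH0
  set f : G → ℂ := fun g => if g ∈ H0 then 1 else 0 with hf
  have hfc : ∀ i, ∀ p ∈ L i, ∀ k ∈ MulAction.stabilizer G v, f (k * p.2) = f k := by
    intro i p hp k _
    have hp2 : p.2 ∈ H0 := by
      apply Subgroup.subset_closure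
      rw [Finset.mem_coe, hS, Finset.mem_biUnion]
      refine ⟨i, Finset.mem_univ _, ?_⟩
      rw [List.mem_toFinset, List.mem_map]
      exact ⟨p, hp, rfl⟩
    rw [hf]
    simp only [Subgroup.mul_mem_cancel_right H0 hp2]
  have hE : ∀ i g, E f (g * s i) = E f g := by
    intro i g
    have h4 := hLE i f g
    rw [Bd_zero _ _ _ _ (hfc i)] at h4
    exact sub_eq_zero.1 (norm_le_zero_iff.1 h4)
  have hle : MulAction.stabilizer G v ≤ H0 := by
    intro h hh
    have h5 := const_of_gen s hs (E f) hE h 1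
    rw [one_mul, h1 f h hh, h1 f 1 (Subgroup.one_mem _)] at h5
    by_contra hno
    rw [hf] at h5
    simp only [hno, if_false, Subgroup.one_mem, if_true] at h5
    exact zero_ne_one h5
  -- transfer to the subgroup type
  have hfgS : (MulAction.stabilizer G v).FG := by
    have : MulAction.stabilizer G v = Subgroup.closure (S : Set G) := by
      apply le_antisymm hle
      rw [Subgroup.closure_le]
      exact hSH
    exact ⟨S, this.symm⟩
  rw [← Group.fg_iff_subgroup_fg] at hfgS
  obtain ⟨S', hS'⟩ := Group.fg_def.1 hfgS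
  refine ⟨S'.card, fun i => (S'.equivFin.symm i : MulAction.stabilizer G v), ?_⟩
  have : Set.range (fun i => (S'.equivFin.symm i : MulAction.stabilizer G v)) = (S' : Set _) := by
    ext x
    constructor
    · rintro ⟨i, rfl⟩
      exact (S'.equivFin.symm i).2
    · intro hx
      exact ⟨S'.equivFin ⟨x, hx⟩, by simp⟩
  rw [this]
  exact hS'

/-! ### square summability -/

theorem Bd_summable (H : Subgroup G) (L : List (G × G)) (f : G → ℂ)
    (h : ∀ p ∈ L, Summable fun k : H => ‖f k - f (k * p.2)‖ ^ 2) :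
    Summable fun g => (Bd H L f g) ^ 2 := by
  classical
  induction L with
  | nil =>
    have : (fun g => (Bd H [] f g) ^ 2) = fun _ => (0 : ℝ) := by
      funext g
      simp [Bd]
    rw [this]
    exact summable_zero
  | cons q L ih =>
    have e : ∀ g, Bd H (q :: L) f g = Bd H [q] f g + Bd H L f g := fun g => Bd_append H [q] L f g
    have h1 : Summable fun g => (Bd H [q] f g) ^ 2 := by
      have h2 : Summable fun g : G => if g ∈ H then ‖f g - f (g * q.2)‖ ^ 2 else 0 := by
        have h3 := (summable_subtype_iff_indicator (f := fun g : G => ‖f g - f (g * q.2)‖ ^ 2)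
          (s := (H : Set G))).1 (h q List.mem_cons_self)
        refine h3.congr fun g => ?_
        rw [Set.indicator_apply]
        rfl
      have h3 := (Equiv.mulRight q.1).summable_iff.2 h2
      refine h3.congr fun g => ?_
      show (if g * q.1 ∈ H then ‖f (g * q.1) - f (g * q.1 * q.2)‖ ^ 2 else 0) = _
      unfold Bd
      simp only [List.map_cons, List.map_nil, List.sum_cons, List.sum_nil, add_zero]
      split_ifs
      · rfl
      · simp
    have h2 := ih fun p hp => h p (List.mem_cons_of_mem _ hp)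
    refine Summable.of_nonneg_of_le (fun g => sq_nonneg _) (fun g => ?_)
      ((h1.mul_left 2).add (h2.mul_left 2))
    rw [e g]
    nlinarith [sq_nonneg (Bd H [q] f g - Bd H L f g)]

/-- a gradient -/
theorem exists_grad {ι : Type} [Fintype ι] (s : ι → G) (f : G → ℂ)
    (h : ∀ i, Summable fun g => ‖f (g * s i) - f g‖ ^ 2) :
    ∃ ξ : L2 (ι × G), IsGrad s f ξ := by
  refine ⟨⟨fun p => f (p.2 * s p.1) - f p.2, KP.mem_of_summable ?_⟩, fun i g => rfl⟩
  have h1 : Summable fun p : (Σ _ : ι, G) => ‖f (p.2 * s p.1) - f p.2‖ ^ 2 := by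
    rw [summable_sigma_of_nonneg (fun _ => sq_nonneg _)]
    exact ⟨h, Summable.of_finite⟩
  exact (Equiv.sigmaEquivProd ι G).summable_iff.1 h1

theorem summable_of_grad {κ H : Type} [Group H] [Fintype κ] (t : κ → H)
    (ht : Subgroup.closure (Set.range t) = ⊤) (f : H → ℂ) (η : L2 (κ × H)) (hη : IsGrad t f η)
    (c : H) : Summable fun k : H => ‖f k - f (k * c)‖ ^ 2 := by
  obtain ⟨W, -, hW⟩ := exists_W t ht c
  have h1 := KP.summable_sq (W η)
  have h2 : Summable fun k : H => ‖W η ((), k)‖ ^ 2 :=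
    h1.comp_injective (inj_pair ())
  refine h2.congr fun k => ?_
  rw [hW f η hη k, norm_sub_rev]

/-- The restriction of gradients to a vertex stabiliser is onto. -/
theorem grad_onto (hT : T.IsTree)
    (hact : ∀ (g : G) (v w : V), T.Adj v w → T.Adj (g • v) (g • w))
    (hfin : ∀ v w : V, T.Adj v w → Finite {g : G // g • v = v ∧ g • w = w})
    {ι κ : Type} [Fintype ι] [Fintype κ] (s : ι → G) (t : κ → MulAction.stabilizer G v)
    (ht : Subgroup.closure (Set.range t) = ⊤)
    (R : L2 (ι × G) →L[ℂ] L2 (κ × G))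
    (hR : ∀ (f : G → ℂ) (ξ : L2 (ι × G)), IsGrad s f ξ →
      IsGrad (fun j => (t j : G)) f (R ξ)) (η : L2 (κ × MulAction.stabilizer G v))
    (hη : η ∈ Zs t) : ∃ ξ ∈ Zs s, R ξ = ext0 (MulAction.stabilizer G v).subtype
      (MulAction.stabilizer G v).subtype_injective η := by
  classical
  obtain ⟨f0, hf0⟩ := hη
  obtain ⟨E, h1, h2, h3⟩ := extension v hT hact hfin
  set f : G → ℂ := fun g => if h : g ∈ MulAction.stabilizer G v then f0 ⟨g, h⟩ else 0 with hf
  have hfH : ∀ k : MulAction.stabilizer G v, f k = f0 k := by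
    intro k
    rw [hf]
    simp only [k.2, dif_pos]
  have hsum : ∀ i, Summable fun g => ‖E f (g * s i) - E f g‖ ^ 2 := by
    intro i
    obtain ⟨L, hL, hLE⟩ := h3 (s i)
    have h4 : Summable fun g => (Bd (MulAction.stabilizer G v) L f g) ^ 2 := by
      apply Bd_summable
      intro p hp
      have h5 := summable_of_grad t ht f0 η hf0 ⟨p.2, hL p hp⟩
      refine h5.congr fun k => ?_
      rw [← hfH, ← hfH]
      rfl
    refine Summable.of_nonneg_of_le (fun g => sq_nonneg _) (fun g => ?_) h4
    exact pow_le_pow_left₀ (norm_nonneg _) (hLE f g) 2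
  obtain ⟨ξ, hξ⟩ := exists_grad s (E f) hsum
  refine ⟨ξ, ⟨_, hξ⟩, ?_⟩
  have hR' := hR _ _ hξ
  ext ⟨j, g⟩
  rw [hR' j g]
  by_cases hg : g ∈ MulAction.stabilizer G v
  · rw [h1 f g hg, h1 f _ (Subgroup.mul_mem _ hg (t j).2)]
    have e1 : ext0 (MulAction.stabilizer G v).subtype
      (MulAction.stabilizer G v).subtype_injective η (j, g) = η (j, ⟨g, hg⟩) :=
      ext0_apply (MulAction.stabilizer G v).subtype
        (MulAction.stabilizer G v).subtype_injective η j ⟨g, hg⟩
    rw [e1, hf0 j ⟨g, hg⟩, ← hfH, ← hfH]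
    rfl
  · rw [h2 f g hg _ (t j).2, sub_self, ext0_apply_ne]
    rintro ⟨k, rfl⟩
    exact hg k.2

/-- The dimension of the image. -/
theorem vdim_image (hT : T.IsTree)
    (hact : ∀ (g : G) (v w : V), T.Adj v w → T.Adj (g • v) (g • w))
    (hfin : ∀ v w : V, T.Adj v w → Finite {g : G // g • v = v ∧ g • w = w})
    {ι κ : Type} [Fintype ι] [Fintype κ] (s : ι → G) (t : κ → MulAction.stabilizer G v)
    (ht : Subgroup.closure (Set.range t) = ⊤)
    (R : L2 (ι × G) →L[ℂ] L2 (κ × G)) (hRe : Equi R)
    (hR : ∀ (f : G → ℂ) (ξ : L2 (ι × G)), IsGrad s f ξ →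
      IsGrad (fun j => (t j : G)) f (R ξ)) :
    vdim ((Zs s).map (R : L2 (ι × G) →ₗ[ℂ] L2 (κ × G))).topologicalClosure = vdim (Zs t) := by
  classical
  have hZc := isClosed_Zs t ht
  rw [← vdim_Ind (MulAction.stabilizer G v).subtype (MulAction.stabilizer G v).subtype_injective hZc (linv_Zs t)]
  set P := (Zs s).map (R : L2 (ι × G) →ₗ[ℂ] L2 (κ × G)) with hP
  set M := Ind (ι := κ) (MulAction.stabilizer G v).subtype (MulAction.stabilizer G v).subtype_injective (Zs t) with hM
  have hMc : IsClosed (M : Set (L2 (κ × G))) := isClosed_Ind _ _ hZc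
  have hPM : P ≤ M := by
    rintro _ ⟨ξ, ⟨f, hf⟩, rfl⟩ g
    refine ⟨fun k => f (g * k), fun j k => ?_⟩
    rw [slice_apply]
    show R ξ (j, g * (k : G)) = f (g * (k * t j : MulAction.stabilizer G v)) - f (g * k)
    rw [hR f ξ hf, Subgroup.coe_mul, mul_assoc]
  have hPM' : P.topologicalClosure ≤ M := Submodule.topologicalClosure_minimal _ hPM hMc
  have hbot : M ⊓ P.topologicalClosureᗮ = ⊥ := by
    rw [eq_bot_iff]
    rintro x ⟨hx, hx'⟩
    rw [Submodule.orthogonal_closure] at hx'
    rw [Submodule.mem_bot]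
    ext ⟨j0, g0⟩
    obtain ⟨ξ, hξ, hRξ⟩ := grad_onto v hT hact hfin s t ht R hR _ (hx g0)
    have hmem : lt κ g0⁻¹ (R ξ) ∈ P := by
      refine ⟨lt ι g0⁻¹ ξ, linv_lt (linv_Zs s) _ hξ, ?_⟩
      exact equi_lt hRe _ _
    have h1 := (Submodule.mem_orthogonal _ _).1 hx' _ hmem
    have h2 : lt κ g0⁻¹ (R ξ) = rs (fun p : κ × G => decide (g0⁻¹ * p.2 ∈ MulAction.stabilizer G v)) x := by
      rw [hRξ]
      ext ⟨j, g⟩
      rw [lt_apply, rs_apply]
      by_cases hg : g0⁻¹ * g ∈ MulAction.stabilizer G v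
      · simp only [hg, decide_true, if_true]
        have h3 := ext0_apply (MulAction.stabilizer G v).subtype (MulAction.stabilizer G v).subtype_injective (slice κ (MulAction.stabilizer G v).subtype
          (MulAction.stabilizer G v).subtype_injective g0 x) j ⟨g0⁻¹ * g, hg⟩
        have h4 : (MulAction.stabilizer G v).subtype ⟨g0⁻¹ * g, hg⟩ = g0⁻¹ * g := rfl
        rw [h4] at h3
        rw [h3, slice_apply, h4, mul_inv_cancel_left]
      · simp only [hg, decide_false]
        rw [ext0_apply_ne]
        · simp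
        · rintro ⟨k, hk⟩
          apply hg
          rw [← hk]
          exact k.2
    rw [h2] at h1
    have h5 : ⟪rs (fun p : κ × G => decide (g0⁻¹ * p.2 ∈ MulAction.stabilizer G v)) x,
        rs (fun p : κ × G => decide (g0⁻¹ * p.2 ∈ MulAction.stabilizer G v)) x⟫_ℂ = 0 := by
      rw [← h1, lp.inner_eq_tsum, lp.inner_eq_tsum]
      refine tsum_congr fun p => ?_
      rw [rs_apply]
      split_ifs
      · rfl
      · simp
    have h9 := congrArg (fun z : L2 (κ × G) => z (j0, g0)) (inner_self_eq_zero.1 h5)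
    simp only [rs_apply] at h9
    have h10 : g0⁻¹ * g0 ∈ MulAction.stabilizer G v := by
      rw [inv_mul_cancel]
      exact (MulAction.stabilizer G v).one_mem
    simpa [h10] using h9
  have h1 := vdim_diff (Submodule.isClosed_topologicalClosure P) hMc hPM'
  rw [hbot, vdim_bot] at h1
  linarith

end Pool.Agent.Zk53.AT
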