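import Pool.Agent.Zk53.AT11

/-!
The kernel of the restriction is not small; accessibility; the reduction.
-/

set_option autoImplicit false
set_option linter.unusedSectionVars false

open scoped InnerProductSpace ENNReal
open Filter Topology

namespace Pool.Agent.Zk53.AT

open Pool.Agent.H80R2
open Pool.Agent.H80R2.BC (L2 GMat vdim IsTr LInv Equi act kerA dk pt vals TorDiv Coef AtR)
open Pool.Agent.H812R3
open Pool.Agent.W656.VA

section walks
variable {V : Type} {T : SimpleGraph V}

theorem walk_change {β : Type} (φ : V → β) {x y : V} (p : T.Walk x y) (h : φ x ≠ φ y) :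
    ∃ b c, T.Adj b c ∧ s(b, c) ∈ p.edges ∧ φ b ≠ φ c := by
  induction p with
  | nil => exact absurd rfl h
  | @cons a b c hab p ih =>
    by_cases h1 : φ a = φ b
    · obtain ⟨b', c', h2, h3, h4⟩ := ih (h1 ▸ h)
      exact ⟨b', c', h2, by rw [SimpleGraph.Walk.edges_cons]; exact List.mem_cons_of_mem _ h3, h4⟩
    · exact ⟨a, b, hab, by rw [SimpleGraph.Walk.edges_cons]; exact List.mem_cons_self, h1⟩

theorem path_first {x y : V} (p : T.Walk x y) (hp : p.IsPath) :
    ∃ u, ∀ z, s(x, z) ∈ p.edges → z = u := by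
  cases p with
  | nil => exact ⟨x, fun z h => by simp at h⟩
  | @cons _ b _ h p =>
    rw [SimpleGraph.Walk.cons_isPath_iff] at hp
    refine ⟨b, fun z hz => ?_⟩
    rw [SimpleGraph.Walk.edges_cons, List.mem_cons] at hz
    rcases hz with hz | hz
    · exact Sym2.congr_right.1 hz
    · exact absurd (p.fst_mem_support_of_mem_edges hz) hp.2

theorem first_edge (hT : T.IsAcyclic) {x y : V} (hxy : y ≠ x) (p : T.Walk x y) (hp : p.IsPath) :
    ∃ u1, T.Adj x u1 ∧ ¬ (T.deleteEdges {s(x, u1)}).Reachable x y := by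
  cases p with
  | nil => exact absurd rfl hxy
  | @cons _ u1 _ h p' =>
    rw [SimpleGraph.Walk.cons_isPath_iff] at hp
    refine ⟨u1, h, fun hr => ?_⟩
    have h1 := SimpleGraph.isAcyclic_iff_forall_adj_isBridge.1 hT h
    rw [SimpleGraph.isBridge_iff] at h1
    apply h1
    refine hr.trans ?_
    apply SimpleGraph.Reachable.symm
    rw [SimpleGraph.reachable_deleteEdges_iff_exists_walk]
    exact ⟨p', fun h2 => hp.2 (p'.fst_mem_support_of_mem_edges h2)⟩

end walks

section bound
variable {G V : Type} [Group G] [MulAction G V] {T : SimpleGraph V} (v : V)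

theorem card_move {D : ℕ}
    (hfin : ∀ v w : V, T.Adj v w → Finite {g : G // g • v = v ∧ g • w = w})
    (hD : ∀ v w : V, T.Adj v w → Nat.card {g : G // g • v = v ∧ g • w = w} ≤ D)
    {x y : V} (hxy : T.Adj x y) (x' y' : V) :
    Nat.card {g : G // g • x = x' ∧ g • y = y'} ≤ D := by
  by_cases hne : ∃ g0 : G, g0 • x = x' ∧ g0 • y = y'
  · obtain ⟨g0, h4, h5⟩ := hne
    have := hfin x y hxy
    refine le_trans (Nat.card_le_card_of_injective
      (fun g : {g : G // g • x = x' ∧ g • y = y'} =>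
        (⟨g0⁻¹ * g.1, by
          rw [mul_smul, g.2.1, inv_smul_eq_iff, h4], by
          rw [mul_smul, g.2.2, inv_smul_eq_iff, h5]⟩ :
          {g : G // g • x = x ∧ g • y = y})) ?_) (hD x y hxy)
    intro a b hab
    simp only [Subtype.mk.injEq, mul_right_inj] at hab
    exact Subtype.ext hab
  · have : IsEmpty {g : G // g • x = x' ∧ g • y = y'} := ⟨fun g => hne ⟨g.1, g.2⟩⟩
    rw [Nat.card_of_isEmpty]
    exact Nat.zero_le _

/-- **The kernel of the restriction of gradients is not small.** -/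
theorem kernel_bound (hT : T.IsTree)
    (hact : ∀ (g : G) (v w : V), T.Adj v w → T.Adj (g • v) (g • w))
    (hfin : ∀ v w : V, T.Adj v w → Finite {g : G // g • v = v ∧ g • w = w}) {D : ℕ}
    (hD : ∀ v w : V, T.Adj v w → Nat.card {g : G // g • v = v ∧ g • w = w} ≤ D)
    {ι κ : Type} [Fintype ι] [Fintype κ] (s : ι → G)
    (hs : Subgroup.closure (Set.range s) = ⊤) (t : κ → MulAction.stabilizer G v)
    (R : L2 (ι × G) →L[ℂ] L2 (κ × G)) (hRe : Equi R)
    (hR : ∀ (f : G → ℂ) (ξ : L2 (ι × G)), IsGrad s f ξ →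
      IsGrad (fun j => (t j : G)) f (R ξ)) (hmove : ∃ g : G, g • v ≠ v) :
    1 ≤ 2 * (D : ℝ) * vdim (Zs s ⊓ kr R) := by
  classical
  -- an element moving `v` as little as possible
  have hex : ∃ n, ∃ a : G, a • v ≠ v ∧ T.dist v (a • v) = n := by
    obtain ⟨g, hg⟩ := hmove
    exact ⟨_, g, hg, rfl⟩
  obtain ⟨a, hav, hdist⟩ := Nat.find_spec hex
  have hmin : ∀ g : G, T.dist v (g • v) < T.dist v (a • v) → g • v = v := by
    intro g hg
    by_contra hne
    rw [hdist] at hg
    exact Nat.find_min hex hg ⟨g, hne, rfl⟩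
  obtain ⟨p, hp, hlen⟩ := hT.connected.exists_path_of_dist v (a • v)
  -- the first edge
  obtain ⟨u1, hadj, hsep⟩ := first_edge hT.isAcyclic hav p hp
  set χ : V → ℂ := fun x => if (T.deleteEdges {s(v, u1)}).Reachable v x then 1 else 0 with hχ
  have hχv : χ v = 1 := if_pos (SimpleGraph.Reachable.refl _)
  have hχa : χ (a • v) = 0 := if_neg hsep
  have hχ01 : ∀ x y, ‖χ x - χ y‖ ^ 2 ≤ 1 := by
    intro x y
    rw [hχ]
    by_cases h1 : (T.deleteEdges {s(v, u1)}).Reachable v x <;>
      by_cases h2 : (T.deleteEdges {s(v, u1)}).Reachable v y <;> simp [h1, h2]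
  have hχadj : ∀ x y, T.Adj x y → s(x, y) ≠ s(v, u1) → χ x = χ y := by
    intro x y hxy hne
    have h1 : (T.deleteEdges {s(v, u1)}).Adj x y := by
      rw [SimpleGraph.deleteEdges_adj]
      exact ⟨hxy, hne⟩
    have h2 : (T.deleteEdges {s(v, u1)}).Reachable v x ↔
        (T.deleteEdges {s(v, u1)}).Reachable v y :=
      ⟨fun h => h.trans h1.reachable, fun h => h.trans h1.symm.reachable⟩
    rw [hχ]
    simp only [h2]
  -- finiteness
  have hS1 : ∀ x y, T.Adj x y → {g : G | χ (g • x) ≠ χ (g • y)}.Finite := by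
    intro x y hxy
    refine ((finite_move (G := G) hfin hxy v u1).union
      (finite_move (G := G) hfin hxy u1 v)).subset ?_
    intro g hg
    by_contra hno
    apply hg
    apply hχadj _ _ (hact g x y hxy)
    intro h
    apply hno
    rw [Sym2.eq_iff] at h
    exact h
  have hS2 : ∀ {x y} (_ : T.Walk x y), {g : G | χ (g • x) ≠ χ (g • y)}.Finite := by
    intro x y q
    induction q with
    | nil => simp
    | @cons b c d h q ih =>
      refine ((hS1 _ _ h).union ih).subset ?_
      intro g hg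
      by_contra hno
      rw [Set.mem_union, not_or] at hno
      simp only [Set.mem_ofPred_eq, not_not, ne_eq] at hno hg
      exact hg (hno.1.trans hno.2)
  have hS : ∀ x y, {g : G | χ (g • x) ≠ χ (g • y)}.Finite := by
    intro x y
    obtain ⟨q⟩ := hT.connected.preconnected x y
    exact hS2 q
  -- the gradient
  set f0 : G → ℂ := fun g => χ (g • v) with hf0
  obtain ⟨ξ, hξ⟩ := exists_grad s f0 (by
    intro i
    apply summable_of_hasFiniteSupport
    refine (hS (s i • v) v).subset ?_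
    intro g hg
    rw [Function.mem_support] at hg
    intro h
    apply hg
    rw [hf0]
    simp only [mul_smul, h, sub_self, norm_zero]
    norm_num)
  have hξR : R ξ = 0 := by
    ext ⟨j, g⟩
    rw [hR f0 ξ hξ j g, hf0]
    simp only [mul_smul]
    rw [MulAction.mem_stabilizer_iff.1 (t j).2, sub_self]
    rfl
  have hξmem : ξ ∈ Zs s ⊓ kr R := ⟨⟨f0, hξ⟩, (mem_kr _ _).2 hξR⟩
  obtain ⟨W, hWe, hW⟩ := exists_W s hs a
  have hKc : IsClosed ((Zs s ⊓ kr R : Submodule ℂ (L2 (ι × G))) : Set (L2 (ι × G))) :=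
    isClosed_inf (isClosed_Zs s hs) (isClosed_kr R)
  have hKi : LInv (Zs s ⊓ kr R) := linv_inf (linv_Zs s) (linv_kr hRe)
  have hrank := vdim_rank hKc hKi W hWe
  have hnn := vdim_nonneg ((Zs s ⊓ kr R) ⊓ kr W)
  set Q := ((Zs s ⊓ kr R).map (W : L2 (ι × G) →ₗ[ℂ] L2 (Unit × G))).topologicalClosure with hQ
  have hmem : W ξ ∈ Q := by
    apply Submodule.le_topologicalClosure
    exact ⟨ξ, hξmem, rfl⟩
  have hlow := vdim_lower (Submodule.isClosed_topologicalClosure _) (W ξ) hmem
  have hWξ : ∀ g, W ξ ((), g) = χ (g • a • v) - χ (g • v) := by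
    intro g
    rw [hW f0 ξ hξ g, hf0]
    simp only [mul_smul]
  have h1 : ‖W ξ ((), 1)‖ ^ 2 = 1 := by
    rw [hWξ, one_smul, one_smul, hχv, hχa]
    norm_num
  -- the support
  obtain ⟨u, hu⟩ := path_first p hp
  obtain ⟨u', hu'⟩ := path_first p.reverse hp.reverse
  have hsupp : ∀ g : G, χ (g • a • v) ≠ χ (g • v) →
      (g⁻¹ • v = v ∧ g⁻¹ • u1 = u) ∨ (g⁻¹ • v = a • v ∧ g⁻¹ • u1 = u') := by
    intro g hg
    obtain ⟨b, c, hbc, h2, h3⟩ := walk_change (fun x => χ (g • x)) p (Ne.symm hg)
    have h4 : s(g • b, g • c) = s(v, u1) := by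
      by_contra hno
      exact h3 (hχadj _ _ (hact g b c hbc) hno)
    have h5 : s(b, c) = s(g⁻¹ • v, g⁻¹ • u1) := by
      rw [Sym2.eq_iff] at h4 ⊢
      rcases h4 with ⟨h5, h6⟩ | ⟨h5, h6⟩
      · left
        rw [← h5, ← h6, inv_smul_smul, inv_smul_smul]
        exact ⟨rfl, rfl⟩
      · right
        rw [← h5, ← h6, inv_smul_smul, inv_smul_smul]
        exact ⟨rfl, rfl⟩
    rw [h5] at h2
    have h6 : g⁻¹ • v ∈ p.support := p.fst_mem_support_of_mem_edges h2
    by_cases h7 : g⁻¹ • v = a • v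
    · right
      refine ⟨h7, hu' _ ?_⟩
      have e : s(g⁻¹ • v, g⁻¹ • u1) = s(a • v, g⁻¹ • u1) := by rw [h7]
      rw [SimpleGraph.Walk.edges_reverse, List.mem_reverse, ← e]
      exact h2
    · left
      have h8 : g⁻¹ • v = v := by
        apply hmin
        refine lt_of_le_of_lt (SimpleGraph.dist_le (p.takeUntil _ h6)) ?_
        rw [← hlen]
        exact SimpleGraph.Walk.length_takeUntil_lt_length h6 h7
      refine ⟨h8, hu _ ?_⟩
      have e : s(g⁻¹ • v, g⁻¹ • u1) = s(v, g⁻¹ • u1) := by rw [h8]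
      rw [← e]
      exact h2
  have hfinA : ∀ x y : V, {g : G | g⁻¹ • v = x ∧ g⁻¹ • u1 = y}.Finite := by
    intro x y
    have := (finite_move (G := G) hfin hadj x y).preimage (f := fun g : G => g⁻¹)
      inv_injective.injOn
    exact this
  have hcard : ∀ x y : V, (hfinA x y).toFinset.card ≤ D := by
    intro x y
    rw [← Set.ncard_eq_toFinset_card _ (hfinA x y)]
    refine le_trans (le_of_eq ?_) (card_move (G := G) hfin hD hadj x y)
    refine Nat.card_congr
      { toFun := fun g => ⟨g.1⁻¹, g.2⟩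
        invFun := fun g => ⟨g.1⁻¹, by
          have := g.2
          simpa using this⟩
        left_inv := fun g => by simp
        right_inv := fun g => by simp }
  have hnorm : ‖W ξ‖ ^ 2 ≤ 2 * D := by
    rw [KP.norm_sq_eq]
    set S : Finset G := (hfinA v u).toFinset ∪ (hfinA (a • v) u').toFinset with hSdef
    rw [tsum_eq_sum (s := S.image fun g => ((), g))]
    · rw [Finset.sum_image (by intro x _ y _ h; simpa using h)]
      calc ∑ g ∈ S, ‖W ξ ((), g)‖ ^ 2 ≤ ∑ _g ∈ S, (1 : ℝ) := by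
            refine Finset.sum_le_sum fun g _ => ?_
            rw [hWξ]
            exact hχ01 _ _
        _ = S.card := by simp
        _ ≤ 2 * D := by
            have h2 := Finset.card_union_le (hfinA v u).toFinset (hfinA (a • v) u').toFinset
            have h3 := hcard v u
            have h4 := hcard (a • v) u'
            have h5 : S.card ≤ 2 * D := by
              rw [hSdef]
              omega
            exact_mod_cast h5
    · rintro ⟨⟨⟩, g⟩ hg
      have h2 : g ∉ S := by
        intro h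
        exact hg (Finset.mem_image_of_mem _ h)
      have h3 : χ (g • a • v) = χ (g • v) := by
        by_contra hno
        apply h2
        rw [hSdef, Finset.mem_union, Set.Finite.mem_toFinset, Set.Finite.mem_toFinset]
        exact hsupp g hno
      have h4 := hWξ g
      rw [h3, sub_self] at h4
      have h5 : W ξ (PUnit.unit, g) = 0 := h4
      rw [h5]
      simp
  rw [h1] at hlow
  have hvQ : 0 ≤ vdim Q := vdim_nonneg _
  have hD0 : (0 : ℝ) ≤ D := Nat.cast_nonneg _
  calc (1 : ℝ) ≤ vdim Q * ‖W ξ‖ ^ 2 := hlow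
    _ ≤ vdim Q * (2 * D) := mul_le_mul_of_nonneg_left hnorm hvQ
    _ = 2 * D * vdim Q := by ring
    _ ≤ 2 * D * vdim (Zs s ⊓ kr R) := by
        apply mul_le_mul_of_nonneg_left _ (by positivity)
        linarith

/-- **The descent.** -/
theorem descent (hT : T.IsTree)
    (hact : ∀ (g : G) (v w : V), T.Adj v w → T.Adj (g • v) (g • w))
    (hfin : ∀ v w : V, T.Adj v w → Finite {g : G // g • v = v ∧ g • w = w}) {D : ℕ}
    (hD : ∀ v w : V, T.Adj v w → Nat.card {g : G // g • v = v ∧ g • w = w} ≤ D)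
    {ι κ : Type} [Fintype ι] [Fintype κ] (s : ι → G)
    (hs : Subgroup.closure (Set.range s) = ⊤) (t : κ → MulAction.stabilizer G v)
    (ht : Subgroup.closure (Set.range t) = ⊤) (hmove : ∃ g : G, g • v ≠ v) :
    1 + 2 * (D : ℝ) * vdim (Zs t) ≤ 2 * (D : ℝ) * vdim (Zs s) := by
  obtain ⟨R, hRe, hR⟩ := exists_R s hs (fun j => (t j : G))
  have h1 := kernel_bound v hT hact hfin hD s hs t R hRe hR hmove
  have h2 := vdim_rank (isClosed_Zs s hs) (linv_Zs s) R hRe
  rw [vdim_image v hT hact hfin s t ht R hRe hR] at h2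
  rw [h2]
  linarith

end bound

end Pool.Agent.Zk53.AT
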