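import Pool.Agent.Zk53.AT12

/-!
Reduction to finitely generated subgroups that do not split over finite subgroups.
-/

set_option autoImplicit false
set_option linter.unusedSectionVars false

open scoped InnerProductSpace ENNReal
open Filter Topology

namespace Pool.Agent.Zk53.AT

open Pool.Agent.H80R2
open Pool.Agent.H80R2.BC (L2 GMat vdim IsTr LInv Equi act kerA dk pt vals TorDiv Coef AtR)
open Pool.Agent.H812R3
open Pool.Agent.W656.VA

/-- Every action without inversions of `H` on a tree with finite edge stabilisers has a global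
fixed vertex. -/
def NoSplit (H : Type) [Group H] : Prop :=
  ∀ (V : Type) (_ : MulAction H V) (T : SimpleGraph V), T.IsTree →
    (∀ (g : H) (v w : V), T.Adj v w → T.Adj (g • v) (g • w)) →
    (∀ v w : V, T.Adj v w → Finite {g : H // g • v = v ∧ g • w = w}) →
    (∀ (g : H) (v w : V), T.Adj v w → ¬ (g • v = w ∧ g • w = v)) →
    ∃ v : V, ∀ g : H, g • v = v

theorem NoSplit.congr {H K : Type} [Group H] [Group K] (e : H ≃* K) (h : NoSplit H) :
    NoSplit K := by
  intro V iK T hT hact hfin hinv
  let iH : MulAction H V := MulAction.compHom V e.toMonoidHom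
  have hsm : ∀ (g : H) (v : V), g • v = e g • v := fun _ _ => rfl
  obtain ⟨v, hv⟩ := h V iH T hT (fun g v w hvw => hact (e g) v w hvw) (fun v w hvw => by
    have := hfin v w hvw
    refine Finite.of_injective (β := {g : K // g • v = v ∧ g • w = w})
      (fun g => ⟨e g.1, g.2⟩) ?_
    intro a b hab
    exact Subtype.ext (e.injective (congrArg Subtype.val hab))) (fun g v w hvw => hinv (e g) v w hvw)
  refine ⟨v, fun g => ?_⟩
  have := hv (e.symm g)
  rw [hsm, e.apply_symm_apply] at this
  exact this

/-- matrices live over finitely generated subgroups -/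
theorem exists_fg_val {G : Type} [Group G] (x : ℝ) (hx : Val ⊤ G x) :
    ∃ S : Finset G, Val ⊤ (Subgroup.closure (S : Set G)) x := by
  classical
  obtain ⟨m, n, A, -, rfl⟩ := hx
  refine ⟨Finset.univ.biUnion fun k : Fin n => Finset.univ.biUnion fun i : Fin m =>
    (A k i).support, ?_⟩
  apply val_desc (Subgroup.subtype _) (Subgroup.subtype_injective _) A
  intro k i x hx
  rw [Subgroup.range_subtype]
  apply Subgroup.subset_closure
  exact Finset.mem_coe.2 (Finset.mem_biUnion.2 ⟨k, Finset.mem_univ _, Finset.mem_biUnion.2 ⟨i,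
            Finset.mem_univ _, hx⟩⟩)

theorem exists_gen {G : Type} [Group G] (hG : Group.FG G) :
    ∃ (n : ℕ) (s : Fin n → G), Subgroup.closure (Set.range s) = ⊤ := by
  obtain ⟨S', hS'⟩ := Group.fg_def.1 hG
  refine ⟨S'.card, fun i => (S'.equivFin.symm i : G), ?_⟩
  have : Set.range (fun i => (S'.equivFin.symm i : G)) = (S' : Set _) := by
    ext x
    constructor
    · rintro ⟨i, rfl⟩
      exact (S'.equivFin.symm i).2
    · intro hx
      exact ⟨S'.equivFin ⟨x, hx⟩, by simp⟩
  rw [this]
  exact hS'

theorem fg_of_gen {G : Type} [Group G] {ι : Type} [Finite ι] (s : ι → G)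
    (hs : Subgroup.closure (Set.range s) = ⊤) : Group.FG G := by
  rw [Group.fg_iff]
  exact ⟨Set.range s, hs, Set.finite_range s⟩

/-- **The reduction.** -/
theorem local_good (G : Type) [Group G] (D : ℕ)
    (hD : ∀ K : Subgroup G, Finite K → Nat.card K ≤ D) (Λ : AddSubgroup ℝ)
    (h : ∀ H : Subgroup G, H.FG → NoSplit H → Good Λ H) : Good Λ G := by
  classical
  by_contra hbad
  have hD1 : 1 ≤ D := by
    have := hD ⊥ inferInstance
    simpa using this
  have hD0 : (0 : ℝ) < D := by exact_mod_cast hD1
  -- the set of counterexamples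
  set X : Set ℝ := {μ | ∃ (H : Type) (_ : Group H) (f : H →* G), Function.Injective f ∧
    ∃ (n : ℕ) (s : Fin n → H), Subgroup.closure (Set.range s) = ⊤ ∧ ¬ Good Λ H ∧
      μ = vdim (Zs s)} with hX
  have hne : X.Nonempty := by
    unfold Good at hbad
    push Not at hbad
    obtain ⟨x, hx, hxΛ⟩ := hbad
    obtain ⟨S, hS⟩ := exists_fg_val x hx
    have hfg : Group.FG (Subgroup.closure (S : Set G)) := by
      rw [Group.fg_iff_subgroup_fg]
      exact ⟨S, rfl⟩
    obtain ⟨n, s, hs⟩ := exists_gen hfg
    exact ⟨_, Subgroup.closure (S : Set G), inferInstance, Subgroup.subtype _,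
      Subgroup.subtype_injective _, n, s, hs, fun hg => hxΛ (hg x hS), rfl⟩
  have hbdd : BddBelow X := by
    refine ⟨0, ?_⟩
    rintro _ ⟨H, _, f, _, n, s, _, _, rfl⟩
    exact vdim_nonneg _
  have hlt : sInf X < sInf X + 1 / (2 * D) := by
    have : (0 : ℝ) < 1 / (2 * D) := by positivity
    linarith
  obtain ⟨μ, hμ, hμlt⟩ := exists_lt_of_csInf_lt hne hlt
  obtain ⟨H, iH, f, hf, n, s, hs, hgood, rfl⟩ := hμ
  -- `H` splits
  have hsplit : ¬ NoSplit H := by
    intro hno
    apply hgood
    have e := MonoidHom.ofInjective hf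
    have h1 : (f.range).FG := by
      rw [← Group.fg_iff_subgroup_fg]
      have := fg_of_gen s hs
      exact Group.fg_of_surjective (f := e.toMonoidHom) e.surjective
    exact (h f.range h1 (hno.congr e)).of_injective e.toMonoidHom e.injective
  unfold NoSplit at hsplit
  push Not at hsplit
  obtain ⟨V, iV, T, hT, hact, hfin, hinv, hmove⟩ := hsplit
  -- a bad vertex stabiliser
  have hv : ∃ v : V, ¬ Good Λ (MulAction.stabilizer H v) := by
    by_contra hno
    push Not at hno
    apply hgood
    refine tree_good hT hact hfin Λ hno ?_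
    rintro v w hvw ⟨g, hg1, hg2⟩
    exact absurd hg2 (hinv g v w hvw hg1)
  obtain ⟨v, hv⟩ := hv
  obtain ⟨k, t, ht⟩ := stab_fg v hT hact hfin s hs
  have hDe : ∀ v w : V, T.Adj v w → Nat.card {g : H // g • v = v ∧ g • w = w} ≤ D := by
    intro v w hvw
    have hfi := hfin v w hvw
    set K : Subgroup H := MulAction.stabilizer H v ⊓ MulAction.stabilizer H w with hK
    have e1 : {g : H // g • v = v ∧ g • w = w} ≃ K := Equiv.subtypeEquivRight fun g => by
      rw [hK, Subgroup.mem_inf, MulAction.mem_stabilizer_iff, MulAction.mem_stabilizer_iff]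
    have hKf : Finite K := Finite.of_equiv _ e1
    have h2 := card_map_of_inj hf K
    rw [Nat.card_congr e1, ← h2.2]
    exact hD _ h2.1
  have hdes := descent v hT hact hfin hDe s hs t ht (hmove v)
  have hmem : vdim (Zs t) ∈ X :=
    ⟨_, inferInstance, f.comp (MulAction.stabilizer H v).subtype,
      hf.comp (MulAction.stabilizer H v).subtype_injective, k, t, ht, hv, rfl⟩
  have h3 := csInf_le hbdd hmem
  have h4 : (2 * (D : ℝ)) * (vdim (Zs t) + 1 / (2 * D)) ≤ 2 * D * vdim (Zs s) := by
    have : (2 * (D : ℝ)) * (1 / (2 * D)) = 1 := by field_simp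
    rw [mul_add, this]
    linarith
  have h5 := le_of_mul_le_mul_left h4 (by positivity)
  linarith

/-- **The Atiyah conjecture is local**: it suffices to verify it for the finitely generated
subgroups which do not split over finite subgroups. -/
theorem local_at (G : Type) [Group G] (h : ∀ H : Subgroup G, H.FG → NoSplit H → At H) :
    At G := by
  intro d hd
  obtain ⟨N, hN⟩ := hd.1
  refine local_good G N hN (frac d) fun H h1 h2 x hx => ?_
  obtain ⟨d', h3, h4⟩ := exists_isLcm H.subtype H.subtype_injective hd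
  exact frac_mono h4 (h H h1 h2 d' h3 x hx)

end Pool.Agent.Zk53.AT
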