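import Pool.Agent.Zk53.AT1

/-!
Systems located at the two ends of the edges of a forest: the dimension formula.
-/

set_option autoImplicit false
set_option linter.unusedSectionVars false

open scoped InnerProductSpace ENNReal
open Filter Topology

namespace Pool.Agent.Zk53.AT

open Pool.Agent.H80R2
open Pool.Agent.H80R2.BC (L2 GMat vdim IsTr LInv Equi act kerA dk pt vals TorDiv Coef AtR)
open Pool.Agent.H812R3
open Pool.Agent.W656.VA

variable {J G E : Type} [Group G] [Fintype J] [MulAction G E]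

/-- the indices located at `e j0` -/
def fib (e : J → E) (j0 : J) : Set (J × G) := {p | p.2 • e p.1 = e j0}

theorem finite_fib (hfin : ∀ x : E, Finite (MulAction.stabilizer G x)) (e : J → E) (j0 : J) :
    (fib e j0 : Set (J × G)).Finite := by
  classical
  have h1 : (fib e j0 : Set (J × G)) ⊆
      ⋃ j : J, (fun g : G => (j, g)) '' {g : G | g • e j = e j0} := by
    rintro ⟨j, g⟩ h
    rw [Set.mem_iUnion]
    exact ⟨j, g, h, rfl⟩
  refine Set.Finite.subset (Set.finite_iUnion fun j => Set.Finite.image _ ?_) h1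
  by_cases hne : ∃ g0 : G, g0 • e j = e j0
  · obtain ⟨g0, hg0⟩ := hne
    have h2 : {g : G | g • e j = e j0} ⊆
        (fun s : G => g0 * s) '' (MulAction.stabilizer G (e j) : Set G) := by
      intro g hg
      refine ⟨g0⁻¹ * g, ?_, by simp⟩
      rw [SetLike.mem_coe, MulAction.mem_stabilizer_iff, mul_smul, inv_smul_eq_iff, hg0]
      exact hg
    have := hfin (e j)
    exact Set.Finite.subset (Set.Finite.image _ (Set.toFinite _)) h2
  · have h2 : {g : G | g • e j = e j0} = ∅ := by
      ext g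
      simp only [Set.mem_ofPred_eq, Set.mem_empty_iff_false, iff_false]
      exact fun h => hne ⟨g, h⟩
    rw [h2]
    exact Set.finite_empty

section W
variable (hfin : ∀ x : E, Finite (MulAction.stabilizer G x)) (e : J → E)
  (K : Submodule ℂ (L2 (J × G)))

/-- the finite set of indices located at `e j0` -/
noncomputable def fb (j0 : J) : Finset (J × G) := (finite_fib hfin e j0).toFinset

theorem mem_fb (j0 : J) (p : J × G) : p ∈ fb hfin e j0 ↔ p.2 • e p.1 = e j0 := by
  unfold fb
  rw [Set.Finite.mem_toFinset]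
  rfl

/-- restriction to the fibre -/
noncomputable def re (j0 : J) : L2 (J × G) →ₗ[ℂ] (fb hfin e j0 → ℂ) where
  toFun x := fun p => x p.1
  map_add' _ _ := rfl
  map_smul' _ _ := rfl

theorem re_apply (j0 : J) (x : L2 (J × G)) (p : fb hfin e j0) : re hfin e j0 x p = x p.1 := rfl

/-- the values at an edge -/
noncomputable def Wm (j0 : J) : Submodule ℂ (fb hfin e j0 → ℂ) := K.map (re hfin e j0)

/-- linear conditions defining the values -/
noncomputable def Lm (j0 : J) : (fb hfin e j0 → ℂ) →ₗ[ℂ] (fb hfin e j0 → ℂ) :=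
  (exists_ker (Wm hfin e K j0)).choose

theorem ker_Lm (j0 : J) : LinearMap.ker (Lm hfin e K j0) = Wm hfin e K j0 :=
  (exists_ker (Wm hfin e K j0)).choose_spec

open Classical in
/-- the matrix of the conditions at the edges -/
noncomputable def ME : GMat (Σ j0 : J, fb hfin e j0) J G :=
  fun q j => ∑ p : fb hfin e q.1,
    if (p : J × G).1 = j then
      Finsupp.single (p : J × G).2 (Lm hfin e K q.1 (Pi.single p 1) q.2) else 0

theorem act_ME (y : J × G → ℂ) (q : Σ j0 : J, fb hfin e j0) (g : G) :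
    act (ME hfin e K) y q g =
      Lm hfin e K q.1 (fun p => y ((p : J × G).1, g * (p : J × G).2)) q.2 := by
  classical
  unfold act ME
  rw [lin_apply]
  have h1 : ∀ j : J, ((∑ p : fb hfin e q.1, if (p : J × G).1 = j then
      Finsupp.single (p : J × G).2 (Lm hfin e K q.1 (Pi.single p 1) q.2) else 0 : G →₀ ℂ).sum
        fun h c => c * y (j, g * h)) =
      ∑ p : fb hfin e q.1, if (p : J × G).1 = j then
        Lm hfin e K q.1 (Pi.single p 1) q.2 * y (j, g * (p : J × G).2) else 0 := by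
    intro j
    rw [← Finsupp.sum_finsetSum_index]
    · refine Finset.sum_congr rfl fun p _ => ?_
      split_ifs with hp
      · rw [Finsupp.sum_single_index (by simp)]
      · simp
    · intro a; simp
    · intro a b c; ring
  rw [Finset.sum_congr rfl fun j _ => h1 j, Finset.sum_comm]
  refine Finset.sum_congr rfl fun p _ => ?_
  rw [Finset.sum_ite_eq]
  simp

theorem loc_ME : Loc e (fun q : Σ j0 : J, fb hfin e j0 => e q.1) (ME hfin e K) := by
  classical
  intro q j h hh
  unfold ME at hh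
  rw [Finsupp.finsetSum_apply] at hh
  obtain ⟨p, -, hp⟩ := Finset.exists_ne_zero_of_sum_ne_zero hh
  by_cases h1 : (p : J × G).1 = j
  · rw [if_pos h1, Finsupp.single_apply] at hp
    by_cases h2 : (p : J × G).2 = h
    · have h3 := (mem_fb hfin e q.1 p).1 p.2
      rw [h1, h2] at h3
      exact h3
    · rw [if_neg h2] at hp
      exact absurd rfl hp
  · rw [if_neg h1] at hp
    exact absurd rfl hp

theorem mem_ME (y : L2 (J × G)) : y ∈ kerA (ME hfin e K) ↔
    ∀ (j0 : J) (g : G), (fun p : fb hfin e j0 => y ((p : J × G).1, g * (p : J × G).2)) ∈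
      Wm hfin e K j0 := by
  constructor
  · intro h j0 g
    rw [← ker_Lm, LinearMap.mem_ker]
    funext q
    have h1 := h ⟨j0, q⟩ g
    rw [act_ME] at h1
    exact h1
  · rintro h ⟨j0, q⟩ g
    rw [act_ME]
    have h1 := h j0 g
    rw [← ker_Lm, LinearMap.mem_ker] at h1
    exact congrFun h1 q

theorem le_ME (hK : LInv K) : K ≤ kerA (ME hfin e K) := by
  intro x hx
  rw [mem_ME]
  intro j0 g
  exact ⟨lt J g x, linv_lt hK g hx, rfl⟩

end W

/-- **The dimension formula**: systems located at the two ends of the edges of a forest. -/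
theorem core {κ0 κ1 X0 X1 : Type} [Fintype κ0] [Fintype κ1] [MulAction G X0] [MulAction G X1]
    (hfin : ∀ x : E, Finite (MulAction.stabilizer G x))
    (p0 : E → X0) (hp0 : ∀ (g : G) x, p0 (g • x) = g • p0 x)
    (p1 : E → X1) (hp1 : ∀ (g : G) x, p1 (g • x) = g • p1 x)
    (cut : ∀ e0 : E, ∃ (χ0 : X0 → Bool) (χ1 : X1 → Bool), ∀ x, (χ0 (p0 x) ≠ χ1 (p1 x) ↔ x = e0))
    (e : J → E) (M0 : GMat κ0 J G) (b0 : κ0 → X0) (h0 : Loc (fun j => p0 (e j)) b0 M0)
    (M1 : GMat κ1 J G) (b1 : κ1 → X1) (h1 : Loc (fun j => p1 (e j)) b1 M1)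
    (Λ : AddSubgroup ℝ) (hΛ0 : ∀ x : X0, Good Λ (MulAction.stabilizer G x))
    (hΛ1 : ∀ x : X1, Good Λ (MulAction.stabilizer G x)) :
    vdim (kerA M0 ⊓ kerA M1) ∈ Λ := by
  classical
  set K := kerA M0 ⊓ kerA M1 with hKdef
  have hKi : LInv K := linv_inf (linv_kerA _) (linv_kerA _)
  set N := ME hfin e K with hN
  have hNl : Loc e (fun q : Σ j0 : J, fb hfin e j0 => e q.1) N := loc_ME hfin e K
  have hKN : K ≤ kerA N := le_ME hfin e K hKi
  set K0 := kerA (BC.stack M0 N) with hK0
  set K1 := kerA (BC.stack M1 N) with hK1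
  have e0 : K0 = kerA M0 ⊓ kerA N := kerA_stack _ _
  have e1 : K1 = kerA M1 ⊓ kerA N := kerA_stack _ _
  have hl0 : Loc (fun j => p0 (e j)) (Sum.elim b0 fun q : Σ j0 : J, fb hfin e j0 => p0 (e q.1))
      (BC.stack M0 N) := Loc.stack h0 (hNl.map p0 hp0)
  have hl1 : Loc (fun j => p1 (e j)) (Sum.elim b1 fun q : Σ j0 : J, fb hfin e j0 => p1 (e q.1))
      (BC.stack M1 N) := Loc.stack h1 (hNl.map p1 hp1)
  have m0 : vdim K0 ∈ Λ := mem_of_loc hl0 Λ hΛ0
  have m1 : vdim K1 ∈ Λ := mem_of_loc hl1 Λ hΛ1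
  have hΛE : ∀ x : E, Good Λ (MulAction.stabilizer G x) := by
    intro x v hv
    have hle : MulAction.stabilizer G x ≤ MulAction.stabilizer G (p0 x) := by
      intro g hg
      rw [MulAction.mem_stabilizer_iff] at hg ⊢
      rw [← hp0, hg]
    exact hΛ0 (p0 x) v (val_incl (Subgroup.inclusion hle) (Subgroup.inclusion_injective hle) hv)
  have mN : vdim (kerA N) ∈ Λ := mem_of_loc hNl Λ hΛE
  have hinf : K0 ⊓ K1 = K := by
    rw [e0, e1]
    apply le_antisymm
    · rintro x ⟨⟨a, b⟩, ⟨c, _⟩⟩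
      exact ⟨a, c⟩
    · intro x hx
      exact ⟨⟨hx.1, hKN hx⟩, ⟨hx.2, hKN hx⟩⟩
  -- restriction to one edge
  have hone : ∀ z ∈ K, ∀ x0 : E, rs (fun p : J × G => decide (p.2 • e p.1 = x0)) z ∈ K0 ⊔ K1 := by
    intro z hz x0
    obtain ⟨χ0, χ1, hχ⟩ := cut x0
    have hzN := hKN hz
    have a0 : rs (fun p : J × G => χ0 (p.2 • p0 (e p.1))) z ∈ K0 := by
      have hz0 : z ∈ K0 := by
        rw [e0]
        exact ⟨hz.1, hzN⟩
      exact rs_mem_loc hl0 χ0 hz0
    have a1 : rs (fun p : J × G => χ1 (p.2 • p1 (e p.1))) z ∈ K1 := by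
      have hz1 : z ∈ K1 := by
        rw [e1]
        exact ⟨hz.2, hzN⟩
      exact rs_mem_loc hl1 χ1 hz1
    have hx0 := (hχ x0).2 rfl
    have key : rs (fun p : J × G => decide (p.2 • e p.1 = x0)) z =
        (if χ0 (p0 x0) then (1 : ℂ) else -1) • (rs (fun p : J × G => χ0 (p.2 • p0 (e p.1))) z -
          rs (fun p : J × G => χ1 (p.2 • p1 (e p.1))) z) := by
      ext ⟨j, g⟩
      rw [lp.coeFn_smul, Pi.smul_apply, lp.coeFn_sub, Pi.sub_apply, rs_apply, rs_apply, rs_apply]
      simp only [← hp0, ← hp1]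
      by_cases hc : g • e j = x0
      · rw [hc]
        cases h2 : χ0 (p0 x0) <;> cases h3 : χ1 (p1 x0) <;> simp_all
      · have h4 : χ0 (p0 (g • e j)) = χ1 (p1 (g • e j)) := by
          by_contra hne
          exact hc ((hχ _).1 hne)
        rw [h4, sub_self, smul_zero]
        simp [hc]
    rw [key]
    exact Submodule.smul_mem _ _ (Submodule.sub_mem _ (Submodule.mem_sup_left a0)
      (Submodule.mem_sup_right a1))
  have hbot : kerA N ⊓ (K0ᗮ ⊓ K1ᗮ) = ⊥ := by
    rw [eq_bot_iff]
    rintro u ⟨hu, hu0, hu1⟩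
    rw [Submodule.mem_bot]
    ext ⟨j0, g0⟩
    have h2 := (mem_ME hfin e K u).1 hu j0 g0
    obtain ⟨z, hz, hzu⟩ := h2
    have hz' : lt J g0⁻¹ z ∈ K := linv_lt hKi _ hz
    have h3 := hone _ hz' (g0 • e j0)
    have h4 : ⟪rs (fun p : J × G => decide (p.2 • e p.1 = g0 • e j0)) (lt J g0⁻¹ z), u⟫_ℂ = 0 := by
      obtain ⟨a, ha, b, hb, hab⟩ := Submodule.mem_sup.1 h3
      rw [← hab, inner_add_left, Submodule.inner_right_of_mem_orthogonal ha hu0,
        Submodule.inner_right_of_mem_orthogonal hb hu1, add_zero]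
    have h5 : rs (fun p : J × G => decide (p.2 • e p.1 = g0 • e j0)) (lt J g0⁻¹ z) =
        rs (fun p : J × G => decide (p.2 • e p.1 = g0 • e j0)) u := by
      ext ⟨j, g⟩
      rw [rs_apply, rs_apply]
      by_cases hc : g • e j = g0 • e j0
      · simp only [hc, decide_true, if_true]
        rw [lt_apply]
        have h6 : ((j, g0⁻¹ * g) : J × G) ∈ fb hfin e j0 := by
          rw [mem_fb]
          simp only [mul_smul, hc, inv_smul_smul]
        have h7 := congrFun hzu ⟨_, h6⟩
        rw [re_apply] at h7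
        simp only [mul_inv_cancel_left] at h7
        exact h7
      · simp [hc]
    rw [h5] at h4
    have h8 : ⟪rs (fun p : J × G => decide (p.2 • e p.1 = g0 • e j0)) u,
        rs (fun p : J × G => decide (p.2 • e p.1 = g0 • e j0)) u⟫_ℂ = 0 := by
      rw [← h4, lp.inner_eq_tsum, lp.inner_eq_tsum]
      refine tsum_congr fun p => ?_
      rw [rs_apply]
      split_ifs
      · rfl
      · simp
    have h9 := congrArg (fun v : L2 (J × G) => v (j0, g0)) (inner_self_eq_zero.1 h8)
    simp only [rs_apply] at h9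
    simpa using h9
  have hmod := vdim_modular (K := K0) (L := K1) (M := kerA N) (isClosed_kerA _) (linv_kerA _)
    (isClosed_kerA _) (linv_kerA _) (isClosed_kerA _) (linv_kerA _)
    (by rw [e0]; exact inf_le_right) (by rw [e1]; exact inf_le_right) hbot
  rw [hinf] at hmod
  have : vdim K = vdim K0 + vdim K1 - vdim (kerA N) := by linarith
  rw [this]
  exact Λ.sub_mem (Λ.add_mem m0 m1) mN

end Pool.Agent.Zk53.AT
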