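import Pool.Agent.Zk53.AT2

/-!
Finite groups; trees: the cuts at the darts of the first subdivision.
-/

set_option autoImplicit false
set_option linter.unusedSectionVars false

open scoped InnerProductSpace ENNReal
open Filter Topology

namespace Pool.Agent.Zk53.AT

open Pool.Agent.H80R2
open Pool.Agent.H80R2.BC (L2 GMat vdim IsTr LInv Equi act kerA dk pt vals TorDiv Coef AtR)
open Pool.Agent.H812R3
open Pool.Agent.W656.VA

section finite
variable {ι H : Type} [Group H] [Fintype ι]

theorem norm_lt (g : H) (x : L2 (ι × H)) : ‖lt ι g x‖ = ‖x‖ := by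
  have h := inner_lt_lt g x x
  rw [inner_self_eq_norm_sq_to_K, inner_self_eq_norm_sq_to_K] at h
  have h2 : ‖lt ι g x‖ ^ 2 = ‖x‖ ^ 2 := by exact_mod_cast h
  exact (pow_left_inj₀ (norm_nonneg _) (norm_nonneg _) (by norm_num)).1 h2

/-- the standard orthonormal basis of `ℓ²(X)`, `X` finite -/
noncomputable def ob (X : Type) [Fintype X] : OrthonormalBasis X ℂ (L2 X) :=
  OrthonormalBasis.mk (v := fun x : X => (de x : L2 X))
    (by
      classical
      rw [orthonormal_iff_ite]
      intro i j
      rw [inner_de, KP.dl_apply])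
    (by
      intro x _
      have h := (KP.hasSum_dl x).unique (hasSum_fintype _)
      rw [h]
      exact Submodule.sum_mem _ fun i _ => Submodule.smul_mem _ _
        (Submodule.subset_span ⟨i, rfl⟩))

theorem ob_apply (X : Type) [Fintype X] (x : X) : ob X x = de x := by
  unfold ob
  rw [OrthonormalBasis.coe_mk]

theorem vdim_finite [Fintype H] (K : Submodule ℂ (L2 (ι × H)))
    (hK : IsClosed (K : Set (L2 (ι × H)))) (hKi : LInv K) :
    (Nat.card H : ℝ) * vdim K = Module.finrank ℂ K := by
  have iK := hasProj hK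
  have hfd : Module.Finite ℂ (L2 (ι × H)) := Module.Finite.of_basis (ob (ι × H)).toBasis
  have hp : LinearMap.IsProj K (K.starProjection : L2 (ι × H) →ₗ[ℂ] L2 (ι × H)) :=
    ⟨fun x => Submodule.starProjection_apply_mem K x,
      fun x hx => Submodule.starProjection_eq_self_iff.2 hx⟩
  have h1 := hp.trace
  rw [LinearMap.trace_eq_sum_inner _ (ob (ι × H))] at h1
  have h2 : ∀ p : ι × H, ⟪ob (ι × H) p, (K.starProjection : L2 (ι × H) →ₗ[ℂ] L2 (ι × H))
      (ob (ι × H) p)⟫_ℂ = ((‖K.starProjection (de (p.1, (1 : H)))‖ ^ 2 : ℝ) : ℂ) := by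
    rintro ⟨i, h⟩
    rw [ob_apply]
    show ⟪de (i, h), K.starProjection (de (i, h))⟫_ℂ = _
    rw [norm_sq_star, de_eq_lt i h, equi_lt (equi_proj hKi), norm_lt]
  rw [Finset.sum_congr rfl fun p _ => h2 p, Fintype.sum_prod_type] at h1
  rw [vdim_eq]
  have h3 : ((∑ i : ι, ∑ _h : H, ‖K.starProjection (de (i, (1 : H)))‖ ^ 2 : ℝ) : ℂ) =
      ((Module.finrank ℂ K : ℝ) : ℂ) := by
    push_cast
    push_cast at h1
    exact h1
  have h4 := Complex.ofReal_injective h3
  rw [← h4, Finset.mul_sum]
  refine Finset.sum_congr rfl fun i _ => ?_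
  rw [Finset.sum_const, Finset.card_univ, nsmul_eq_mul, Nat.card_eq_fintype_card]

/-- Finite groups. -/
theorem good_finite [Finite H] (Λ : AddSubgroup ℝ) (hΛ : 1 / (Nat.card H : ℝ) ∈ Λ) : Good Λ H := by
  have := Fintype.ofFinite H
  rintro v ⟨m, n, A, -, rfl⟩
  have h := vdim_finite (kerA A) (isClosed_kerA A) (linv_kerA A)
  have hc : (Nat.card H : ℝ) ≠ 0 := by
    exact_mod_cast Nat.card_pos.ne'
  have h2 : vdim (kerA A) = (Module.finrank ℂ (kerA A)) • (1 / (Nat.card H : ℝ)) := by
    rw [nsmul_eq_mul, ← h]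
    field_simp
  rw [h2]
  exact Λ.nsmul_mem hΛ _

end finite

section tree
variable {G V : Type} [Group G] [MulAction G V] {T : SimpleGraph V}

/-- the action on darts -/
@[reducible] def dAct (hact : ∀ (g : G) (v w : V), T.Adj v w → T.Adj (g • v) (g • w)) :
    MulAction G T.Dart where
  smul g d := ⟨(g • d.fst, g • d.snd), hact g _ _ d.adj⟩
  one_smul d := by
    apply SimpleGraph.Dart.ext
    exact Prod.ext (one_smul G _) (one_smul G _)
  mul_smul g h d := by
    apply SimpleGraph.Dart.ext
    exact Prod.ext (mul_smul g h _) (mul_smul g h _)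

/-- the action on edges -/
@[reducible] def eAct (hact : ∀ (g : G) (v w : V), T.Adj v w → T.Adj (g • v) (g • w)) :
    MulAction G T.edgeSet where
  smul g s := ⟨s.1.map (g • ·), by
    obtain ⟨s, hs⟩ := s
    induction s using Sym2.ind with
    | _ v w => exact hact g v w hs⟩
  one_smul s := by
    obtain ⟨s, hs⟩ := s
    apply Subtype.ext
    induction s using Sym2.ind with
    | _ v w =>
      show Sym2.map _ s(v, w) = s(v, w)
      simp
  mul_smul g h s := by
    obtain ⟨s, hs⟩ := s
    apply Subtype.ext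
    induction s using Sym2.ind with
    | _ v w =>
      show Sym2.map _ s(v, w) = Sym2.map _ (Sym2.map _ s(v, w))
      simp [mul_smul]

/-- the edge of a dart -/
def dE (d : T.Dart) : T.edgeSet := ⟨d.edge, d.edge_mem⟩

open Classical in
/-- the cut at a dart -/
theorem cut_dart (hT : T.IsAcyclic) (d0 : T.Dart) :
    ∃ (χ0 : V → Bool) (χ1 : T.edgeSet → Bool), ∀ d : T.Dart,
      (χ0 d.fst ≠ χ1 (dE d) ↔ d = d0) := by
  set T' := T.deleteEdges {d0.edge} with hT'
  refine ⟨fun x => decide (T'.Reachable d0.fst x),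
    fun s => decide (s.1 ≠ d0.edge ∧ ∀ a ∈ s.1, T'.Reachable d0.fst a), ?_⟩
  rintro ⟨⟨a, b⟩, hab⟩
  have hbr : ¬ T'.Reachable d0.fst d0.snd := by
    have h := SimpleGraph.isAcyclic_iff_forall_adj_isBridge.1 hT d0.adj
    rw [SimpleGraph.isBridge_iff] at h
    exact h
  by_cases he : s(a, b) = d0.edge
  · have h1 : decide ((dE (⟨(a, b), hab⟩ : T.Dart)).1 ≠ d0.edge ∧
        ∀ x ∈ (dE (⟨(a, b), hab⟩ : T.Dart)).1, T'.Reachable d0.fst x) = false := by
      rw [decide_eq_false_iff_not]
      rintro ⟨h, _⟩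
      exact h he
    beta_reduce
    rw [h1]
    show decide (T'.Reachable d0.fst a) ≠ false ↔ _
    rw [ne_eq, decide_eq_false_iff_not, not_not]
    have h2 : s(a, b) = s(d0.fst, d0.snd) := he
    rw [Sym2.eq_iff] at h2
    constructor
    · intro h
      rcases h2 with ⟨h3, h4⟩ | ⟨h3, h4⟩
      · apply SimpleGraph.Dart.ext
        exact Prod.ext h3 h4
      · rw [h3] at h
        exact absurd h hbr
    · rintro rfl
      exact SimpleGraph.Reachable.refl _
  · have hadj : T'.Adj a b := by
      rw [hT', SimpleGraph.deleteEdges_adj]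
      exact ⟨hab, he⟩
    have h1 : (T'.Reachable d0.fst a) ↔ ((dE (⟨(a, b), hab⟩ : T.Dart)).1 ≠ d0.edge ∧
        ∀ x ∈ (dE (⟨(a, b), hab⟩ : T.Dart)).1, T'.Reachable d0.fst x) := by
      constructor
      · intro h
        refine ⟨he, ?_⟩
        intro x hx
        have hx' : x ∈ s(a, b) := hx
        rw [Sym2.mem_iff] at hx'
        rcases hx' with rfl | rfl
        · exact h
        · exact h.trans hadj.reachable
      · rintro ⟨_, h⟩
        exact h a (Sym2.mem_mk_left a b)
    constructor
    · intro h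
      exfalso
      apply h
      show decide (T'.Reachable d0.fst a) = _
      rw [decide_eq_decide]
      exact h1
    · rintro rfl
      exact absurd rfl he

end tree

end Pool.Agent.Zk53.AT
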