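import Pool.Agent.Zk53.AT3

/-!
Localisation of a matrix over `ℂ[G]` on a tree; the main theorem.
-/

set_option autoImplicit false
set_option linter.unusedSectionVars false

open scoped InnerProductSpace ENNReal
open Filter Topology

namespace Pool.Agent.Zk53.AT

open Pool.Agent.H80R2
open Pool.Agent.H80R2.BC (L2 GMat vdim IsTr LInv Equi act kerA dk pt vals TorDiv Coef AtR)
open Pool.Agent.H812R3
open Pool.Agent.W656.VA

section row
variable {J G : Type} [Group G] [Fintype J]

/-- the value of a row -/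
noncomputable def row (y : J × G → ℂ) (g : G) : (J → (G →₀ ℂ)) →+ ℂ where
  toFun F := ∑ j, (F j).sum fun h c => c * y (j, g * h)
  map_zero' := by simp
  map_add' F F' := by
    rw [← Finset.sum_add_distrib]
    refine Finset.sum_congr rfl fun j _ => ?_
    rw [Pi.add_apply, Finsupp.sum_add_index']
    · intro a; simp
    · intro a b c; ring

theorem act_row {κ : Type} (M : GMat κ J G) (y : J × G → ℂ) (k : κ) (g : G) :
    act M y k g = row y g (M k) := rfl

theorem row_single [DecidableEq J] (y : J × G → ℂ) (g : G) (j : J) (h : G) (c : ℂ) :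
    row y g (Pi.single j (Finsupp.single h c)) = c * y (j, g * h) := by
  show ∑ j', _ = _
  rw [Finset.sum_eq_single j]
  · rw [Pi.single_eq_same, Finsupp.sum_single_index (by simp)]
  · intro j' _ hj
    rw [Pi.single_eq_of_ne hj]
    simp
  · intro h
    exact absurd (Finset.mem_univ _) h

theorem single_ne [DecidableEq J] {j j' : J} {h h' : G} {c : ℂ}
    (hne : (Pi.single j (Finsupp.single h c) : J → (G →₀ ℂ)) j' h' ≠ 0) : j' = j ∧ h' = h := by
  classical
  by_cases hj : j' = j
  · subst hj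
    rw [Pi.single_eq_same, Finsupp.single_apply] at hne
    by_cases hh : h = h'
    · exact ⟨rfl, hh.symm⟩
    · rw [if_neg hh] at hne
      exact absurd rfl hne
  · rw [Pi.single_eq_of_ne hj] at hne
    exact absurd rfl hne

end row

section conn
variable {V : Type} {T : SimpleGraph V}

/-- functions on `Q` respecting common sources and common edges are constant -/
def Conn (d0 : T.Dart) (Q : Finset T.Dart) : Prop :=
  d0 ∈ Q ∧ ∀ φ : T.Dart → ℂ, (∀ q ∈ Q, ∀ q' ∈ Q, q.fst = q'.fst → φ q = φ q') →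
    (∀ q ∈ Q, ∀ q' ∈ Q, q.edge = q'.edge → φ q = φ q') → ∀ q ∈ Q, φ q = φ d0

open Classical in
theorem conn_insert {d0 : T.Dart} {Q : Finset T.Dart} (hQ : Conn d0 Q) {a b : V}
    (hab : T.Adj a b) (ha : ∃ q ∈ Q, q.fst = a) :
    ∃ Q', Conn d0 Q' ∧ Q ⊆ Q' ∧ ∃ q ∈ Q', q.fst = b := by
  set d : T.Dart := ⟨(a, b), hab⟩ with hd
  refine ⟨insert d (insert d.symm Q), ⟨?_, ?_⟩, ?_, d.symm, by simp, rfl⟩
  · exact Finset.mem_insert_of_mem (Finset.mem_insert_of_mem hQ.1)
  · intro φ h1 h2 q hq
    have hsub : ∀ q ∈ Q, q ∈ insert d (insert d.symm Q) := fun q hq =>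
      Finset.mem_insert_of_mem (Finset.mem_insert_of_mem hq)
    have h3 := hQ.2 φ (fun q hq q' hq' => h1 q (hsub q hq) q' (hsub q' hq'))
      (fun q hq q' hq' => h2 q (hsub q hq) q' (hsub q' hq'))
    obtain ⟨q0, hq0, rfl⟩ := ha
    have h4 : φ d = φ d0 := by
      rw [h1 d (Finset.mem_insert_self _ _) q0 (hsub q0 hq0) rfl]
      exact h3 q0 hq0
    have h5 : φ d.symm = φ d0 := by
      rw [h2 d.symm (by simp) d (Finset.mem_insert_self _ _) (by simp)]
      exact h4
    rw [Finset.mem_insert, Finset.mem_insert] at hq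
    rcases hq with rfl | rfl | hq
    · exact h4
    · exact h5
    · exact h3 q hq
  · intro q hq
    exact Finset.mem_insert_of_mem (Finset.mem_insert_of_mem hq)

theorem conn_walk {d0 : T.Dart} {a b : V} (p : T.Walk a b) : ∀ {Q : Finset T.Dart}
    (_ : Conn d0 Q) (_ : ∃ q ∈ Q, q.fst = a),
    ∃ Q', Conn d0 Q' ∧ Q ⊆ Q' ∧ ∃ q ∈ Q', q.fst = b := by
  induction p with
  | nil => intro Q hQ ha; exact ⟨Q, hQ, subset_rfl, ha⟩
  | cons h p ih =>
    intro Q hQ ha
    obtain ⟨Q1, h1, h2, h3⟩ := conn_insert hQ h ha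
    obtain ⟨Q2, h4, h5, h6⟩ := ih h1 h3
    exact ⟨Q2, h4, h2.trans h5, h6⟩

theorem exists_conn (hT : T.Connected) (d0 : T.Dart) (S : Finset V) :
    ∃ Q, Conn d0 Q ∧ ∀ w ∈ S, ∃ q ∈ Q, q.fst = w := by
  classical
  induction S using Finset.induction_on with
  | empty =>
    refine ⟨{d0}, ⟨by simp, ?_⟩, by simp⟩
    intro φ _ _ q hq
    rw [Finset.mem_singleton.1 hq]
  | insert w S _ ih =>
    obtain ⟨Q, hQ, hS⟩ := ih
    obtain ⟨p⟩ := hT.preconnected d0.fst w
    obtain ⟨Q', h1, h2, h3⟩ := conn_walk p hQ ⟨d0, hQ.1, rfl⟩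
    refine ⟨Q', h1, ?_⟩
    intro w' hw'
    rw [Finset.mem_insert] at hw'
    rcases hw' with rfl | hw'
    · exact h3
    · obtain ⟨q, hq, hq'⟩ := hS w' hw'
      exact ⟨q, h2 hq, hq'⟩

end conn

section main
variable {G V : Type} [Group G] [MulAction G V] {T : SimpleGraph V}

open Classical in
/-- equality of the variables related by `r` -/
noncomputable def EQ (G ι : Type) [Group G] {Q : Type} (r : Q → Q → Prop) :
    GMat (ι × Q × Q) (ι × Q) G := fun k =>
  if r k.2.1 k.2.2 then Pi.single (k.1, k.2.1) (Finsupp.single 1 1) -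
    Pi.single (k.1, k.2.2) (Finsupp.single 1 1) else 0

theorem act_EQ {ι Q : Type} [Fintype ι] [Fintype Q] (r : Q → Q → Prop) (y : (ι × Q) × G → ℂ)
    (i : ι) (q q' : Q) (hr : r q q') (g : G) :
    act (EQ G ι r) y (i, q, q') g = y ((i, q), g) - y ((i, q'), g) := by
  classical
  rw [act_row]
  unfold EQ
  simp only
  rw [if_pos hr, map_sub, row_single, row_single]
  simp

theorem act_EQ_neg {ι Q : Type} [Fintype ι] [Fintype Q] (r : Q → Q → Prop) (y : (ι × Q) × G → ℂ)
    (i : ι) (q q' : Q) (hr : ¬ r q q') (g : G) :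
    act (EQ G ι r) y (i, q, q') g = 0 := by
  classical
  rw [act_row]
  unfold EQ
  simp only
  rw [if_neg hr, map_zero]

theorem loc_EQ {ι Q X : Type} [Fintype ι] [Fintype Q] [MulAction G X] (c : Q → X) :
    Loc (fun j : ι × Q => c j.2) (fun k : ι × Q × Q => c k.2.1)
      (EQ G ι fun q q' => c q = c q') := by
  classical
  rintro ⟨i, q, q'⟩ ⟨i', q''⟩ h hh
  unfold EQ at hh
  simp only at hh
  by_cases hr : c q = c q'
  · rw [if_pos hr, Pi.sub_apply, Finsupp.sub_apply] at hh
    by_cases h1 : (Pi.single (i, q) (Finsupp.single 1 1) : ι × Q → (G →₀ ℂ)) (i', q'') h = 0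
    · rw [h1, zero_sub, neg_ne_zero] at hh
      obtain ⟨h2, rfl⟩ := single_ne hh
      rw [Prod.mk.injEq] at h2
      show (1 : G) • c q'' = c q
      rw [h2.2, one_smul, hr]
    · obtain ⟨h2, rfl⟩ := single_ne h1
      rw [Prod.mk.injEq] at h2
      show (1 : G) • c q'' = c q
      rw [h2.2, one_smul]
  · rw [if_neg hr] at hh
    exact absurd rfl hh

open Classical in
/-- the localised matrix -/
noncomputable def LM {ι κ Q : Type} [Fintype ι] (A : GMat κ ι G) (f : G → Q) :
    GMat κ (ι × Q) G := fun k =>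
  ∑ i, ∑ h ∈ (A k i).support, Pi.single (i, f h) (Finsupp.single h (A k i h))

theorem act_LM {ι κ Q : Type} [Fintype ι] [Fintype Q] (A : GMat κ ι G) (f : G → Q)
    (y : (ι × Q) × G → ℂ) (k : κ) (g : G) :
    act (LM A f) y k g = ∑ i, (A k i).sum fun h c => c * y ((i, f h), g * h) := by
  classical
  rw [act_row]
  unfold LM
  rw [map_sum]
  refine Finset.sum_congr rfl fun i _ => ?_
  rw [map_sum]
  refine Finset.sum_congr rfl fun h _ => ?_
  rw [row_single]

theorem loc_LM {ι κ Q X : Type} [Fintype ι] [Fintype κ] [Fintype Q] [MulAction G X]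
    (A : GMat κ ι G) (f : G → Q) (c : Q → X) (x0 : X)
    (hf : ∀ k i, ∀ h ∈ (A k i).support, h • c (f h) = x0) :
    Loc (fun j : ι × Q => c j.2) (fun _ : κ => x0) (LM A f) := by
  classical
  rintro k ⟨i', q⟩ h hh
  unfold LM at hh
  rw [Finset.sum_apply, Finsupp.finsetSum_apply] at hh
  obtain ⟨i, -, hi⟩ := Finset.exists_ne_zero_of_sum_ne_zero hh
  rw [Finset.sum_apply, Finsupp.finsetSum_apply] at hi
  obtain ⟨h', h1, h2⟩ := Finset.exists_ne_zero_of_sum_ne_zero hi
  obtain ⟨h3, rfl⟩ := single_ne h2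
  rw [Prod.mk.injEq] at h3
  show h • c q = x0
  rw [h3.2]
  exact hf k i h h1

open Classical in
/-- duplication of the variables -/
noncomputable def DP (G ι Q : Type) [Group G] : GMat (ι × Q) ι G := fun k =>
  Pi.single k.1 (Finsupp.single 1 1)

theorem act_DP {ι Q : Type} [Fintype ι] (y : ι × G → ℂ) (k : ι × Q) (g : G) :
    act (DP G ι Q) y k g = y (k.1, g) := by
  classical
  rw [act_row]
  unfold DP
  rw [row_single]
  simp

/-- **Groups acting on trees with finite edge stabilisers.** -/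
theorem tree_core (hT : T.IsTree)
    (hact : ∀ (g : G) (v w : V), T.Adj v w → T.Adj (g • v) (g • w))
    (hfin : ∀ v w : V, T.Adj v w → Finite {g : G // g • v = v ∧ g • w = w})
    (Λ : AddSubgroup ℝ) (hV : ∀ v : V, Good Λ (MulAction.stabilizer G v))
    (hE : letI := eAct hact; ∀ s : T.edgeSet, Good Λ (MulAction.stabilizer G s)) : Good Λ G := by
  classical
  let iE := eAct hact
  let iD := dAct hact
  rintro v ⟨m, n, A, -, rfl⟩
  by_cases hne : Nonempty T.Dart
  · obtain ⟨d0⟩ := hne
    set S : Finset V := Finset.univ.biUnion fun k : Fin n => Finset.univ.biUnion fun i : Fin m =>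
      (A k i).support.image fun h => h⁻¹ • d0.fst with hS
    obtain ⟨Q, hQ, hQS⟩ := exists_conn hT.connected d0 S
    have hq0 : d0 ∈ Q := hQ.1
    -- choice of the localising dart
    have hex : ∀ h : G, ∃ q : Q, (∃ k i, h ∈ (A k i).support) → (q : T.Dart).fst = h⁻¹ • d0.fst := by
      intro h
      by_cases hh : ∃ k i, h ∈ (A k i).support
      · obtain ⟨k, i, hki⟩ := hh
        obtain ⟨q, hq, hq'⟩ := hQS (h⁻¹ • d0.fst) (by
          rw [hS]
          exact Finset.mem_biUnion.2 ⟨k, Finset.mem_univ _, Finset.mem_biUnion.2 ⟨i,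
            Finset.mem_univ _, Finset.mem_image_of_mem _ hki⟩⟩)
        exact ⟨⟨q, hq⟩, fun _ => hq'⟩
      · exact ⟨⟨d0, hq0⟩, fun h' => absurd h' hh⟩
    choose f hf using hex
    set c0 : Q → V := fun q => (q : T.Dart).fst with hc0
    set c1 : Q → T.edgeSet := fun q => dE (q : T.Dart) with hc1
    set M0 := BC.stack (EQ G (Fin m) fun q q' : Q => c0 q = c0 q') (LM A f) with hM0
    set M1 := EQ G (Fin m) fun q q' : Q => c1 q = c1 q' with hM1
    have hl0 : Loc (fun j : Fin m × Q => (j.2 : T.Dart).fst)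
        (Sum.elim (fun k : Fin m × Q × Q => c0 k.2.1) fun _ : Fin n => d0.fst) M0 := by
      apply Loc.stack
      · exact loc_EQ c0
      · apply loc_LM A f c0
        intro k i h hh
        show h • (f h : T.Dart).fst = d0.fst
        rw [hf h ⟨k, i, hh⟩, smul_inv_smul]
    have hl1 : Loc (fun j : Fin m × Q => dE (j.2 : T.Dart))
        (fun k : Fin m × Q × Q => c1 k.2.1) M1 := loc_EQ c1
    have hstab : ∀ x : T.Dart, Finite (MulAction.stabilizer G x) := by
      intro x
      have := hfin x.fst x.snd x.adj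
      refine Finite.of_injective (β := {g : G // g • x.fst = x.fst ∧ g • x.snd = x.snd})
        (fun g => ⟨g.1, ?_⟩) ?_
      · have h1 := congrArg SimpleGraph.Dart.toProd (MulAction.mem_stabilizer_iff.1 g.2)
        exact ⟨congrArg Prod.fst h1, congrArg Prod.snd h1⟩
      · intro a b hab
        simp only [Subtype.mk.injEq] at hab
        exact Subtype.ext hab
    have key := core (J := Fin m × Q) (E := T.Dart) hstab (fun d => d.fst) (fun _ _ => rfl)
      (fun d => dE d) (fun _ _ => rfl) (cut_dart hT.isAcyclic) (fun j => (j.2 : T.Dart)) M0 _ hl0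
      M1 _ hl1 Λ hV hE
    suffices h : vdim (kerA A) = vdim (kerA M0 ⊓ kerA M1) by
      rw [h]
      exact key
    have hcl : IsClosed ((kerA M0 ⊓ kerA M1 : Submodule ℂ (L2 ((Fin m × Q) × G))) :
        Set (L2 ((Fin m × Q) × G))) := isClosed_inf (isClosed_kerA _) (isClosed_kerA _)
    have hin : LInv (kerA M0 ⊓ kerA M1) := linv_inf (linv_kerA _) (linv_kerA _)
    apply le_antisymm
    · refine vdim_inj_le (isClosed_kerA _) (linv_kerA _) (op (DP G (Fin m) Q)) (equi_op _) hcl ?_ ?_
      · intro x hx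
        have hy : ∀ i q g, op (DP G (Fin m) Q) x ((i, q), g) = x (i, g) := by
          intro i q g
          rw [op_apply, act_DP]
        refine ⟨?_, ?_⟩
        · rintro (⟨i, q, q'⟩ | k) g
          · show act (EQ G (Fin m) fun q q' : Q => c0 q = c0 q') _ (i, q, q') g = 0
            by_cases hr : c0 q = c0 q'
            · rw [act_EQ (fun q q' : Q => c0 q = c0 q') _ i q q' hr, hy, hy, sub_self]
            · rw [act_EQ_neg (fun q q' : Q => c0 q = c0 q') _ i q q' hr]
          · show act (LM A f) _ k g = 0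
            rw [act_LM]
            simp only [hy]
            exact hx k g
        · rintro ⟨i, q, q'⟩ g
          by_cases hr : c1 q = c1 q'
          · rw [hM1, act_EQ (fun q q' : Q => c1 q = c1 q') _ i q q' hr, hy, hy, sub_self]
          · rw [hM1, act_EQ_neg (fun q q' : Q => c1 q = c1 q') _ i q q' hr]
      · intro x _ hx
        ext ⟨i, g⟩
        have h1 : op (DP G (Fin m) Q) x ((i, ⟨d0, hq0⟩), g) = x (i, g) := by
          rw [op_apply, act_DP]
        rw [← h1, hx]
        rfl
    · -- the other inequality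
      have hinj : Function.Injective (fun p : Fin m × G => ((p.1, (⟨d0, hq0⟩ : Q)), p.2)) := by
        rintro ⟨a, b⟩ ⟨c, d⟩ h
        simpa using h
      have heq : ∀ y ∈ kerA M0 ⊓ kerA M1, ∀ i (q : Q) g,
          y ((i, q), g) = y ((i, ⟨d0, hq0⟩), g) := by
        intro y hy i q g
        have h1 := hQ.2 (fun d => if h : d ∈ Q then y ((i, ⟨d, h⟩), g) else 0) ?_ ?_ q.1 q.2
        · rw [dif_pos q.2, dif_pos hq0] at h1
          exact h1
        · intro q1 hq1 q2 hq2 he
          rw [dif_pos hq1, dif_pos hq2]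
          have h2 := hy.1 (Sum.inl (i, ⟨q1, hq1⟩, ⟨q2, hq2⟩)) g
          have h3 : act (EQ G (Fin m) fun q q' : Q => c0 q = c0 q') y
            (i, ⟨q1, hq1⟩, ⟨q2, hq2⟩) g = 0 := h2
          rw [act_EQ (fun q q' : Q => c0 q = c0 q') _ i _ _ he] at h3
          exact sub_eq_zero.1 h3
        · intro q1 hq1 q2 hq2 he
          rw [dif_pos hq1, dif_pos hq2]
          have h3 := hy.2 (i, ⟨q1, hq1⟩, ⟨q2, hq2⟩) g
          have he' : c1 ⟨q1, hq1⟩ = c1 ⟨q2, hq2⟩ := Subtype.ext he
          rw [hM1, act_EQ (fun q q' : Q => c1 q = c1 q') _ i _ _ he'] at h3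
          exact sub_eq_zero.1 h3
      refine vdim_inj_le hcl hin (KP.pull _ hinj) ?_ (isClosed_kerA _) ?_ ?_
      · apply equi_of
        intro g x
        ext ⟨i, h⟩
        rfl
      · intro y hy k g
        have h1 : act (LM A f) y k g = 0 := hy.1 (Sum.inr k) g
        rw [act_LM] at h1
        rw [← h1]
        unfold act
        refine Finset.sum_congr rfl fun i _ => ?_
        refine Finset.sum_congr rfl fun h _ => ?_
        show _ * y ((i, ⟨d0, hq0⟩), g * h) = _ * y ((i, f h), g * h)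
        rw [heq y hy i (f h)]
      · intro y hy hy0
        ext ⟨⟨i, q⟩, g⟩
        rw [heq y hy]
        have h1 := congrArg (fun z : L2 (Fin m × G) => z (i, g)) hy0
        exact h1
  · -- no edges: the tree is a point
    have hss : ∀ v w : V, v = w := by
      intro v w
      obtain ⟨p⟩ := hT.connected.preconnected v w
      cases p with
      | nil => rfl
      | cons h _ => exact absurd ⟨⟨(_, _), h⟩⟩ hne
    obtain ⟨v0⟩ := hT.connected.nonempty
    refine hV v0 _ (val_incl (G := G) (G' := MulAction.stabilizer G v0)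
      (MonoidHom.codRestrict (MonoidHom.id G) _ fun g => ?_) ?_
      (val_of A fun _ _ _ => Subring.mem_top _))
    · rw [MulAction.mem_stabilizer_iff]
      exact hss _ _
    · intro a b hab
      exact congrArg Subtype.val hab

end main

end Pool.Agent.Zk53.AT
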