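import Pool.Agent.Zk53.AT4

/-!
Groups acting on trees with finite edge stabilisers: final forms.
-/

set_option autoImplicit false
set_option linter.unusedSectionVars false

open scoped InnerProductSpace ENNReal
open Filter Topology

namespace Pool.Agent.Zk53.AT

open Pool.Agent.H80R2
open Pool.Agent.H80R2.BC (L2 GMat vdim IsTr LInv Equi act kerA dk pt vals TorDiv Coef AtR)
open Pool.Agent.H812R3
open Pool.Agent.W656.VA

theorem good_iff (Λ : AddSubgroup ℝ) (H : Type) [Group H] :
    Good Λ H ↔ ∀ (m n : ℕ) (A : Matrix (Fin m) (Fin n) (H →₀ ℂ)), kerDim A ∈ Λ := by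
  constructor
  · intro h m n A
    exact h _ (val_kerDim A fun _ _ _ => Subring.mem_top _)
  · intro h v hv
    obtain ⟨m, n, A, -, rfl⟩ := exists_kerDim hv
    exact h m n A

theorem Good.of_injective {Λ : AddSubgroup ℝ} {H K : Type} [Group H] [Group K] (hK : Good Λ K)
    (f : H →* K) (hf : Function.Injective f) : Good Λ H :=
  fun v hv => hK v (val_incl f hf hv)

/-- the subgroup `(1/d) ℤ` -/
def frac (d : ℕ) : AddSubgroup ℝ where
  carrier := {x | ∃ z : ℤ, (d : ℝ) * x = z}
  zero_mem' := ⟨0, by simp⟩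
  add_mem' := by
    rintro a b ⟨z, hz⟩ ⟨w, hw⟩
    exact ⟨z + w, by rw [mul_add, hz, hw]; push_cast; ring⟩
  neg_mem' := by
    rintro a ⟨z, hz⟩
    exact ⟨-z, by rw [mul_neg, hz]; push_cast; ring⟩

theorem mem_frac (d : ℕ) (x : ℝ) : x ∈ frac d ↔ ∃ z : ℤ, (d : ℝ) * x = z := Iff.rfl

theorem frac_mono {d e : ℕ} (h : d ∣ e) : frac d ≤ frac e := by
  obtain ⟨c, rfl⟩ := h
  rintro x ⟨z, hz⟩
  refine ⟨c * z, ?_⟩
  push_cast
  rw [← hz]
  ring

theorem inv_mem_frac {d e : ℕ} (h : d ∣ e) (hd : 0 < d) : 1 / (d : ℝ) ∈ frac e := by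
  obtain ⟨c, rfl⟩ := h
  refine ⟨c, ?_⟩
  have : (d : ℝ) ≠ 0 := by exact_mod_cast hd.ne'
  push_cast
  field_simp

theorem exists_isLcm {G H : Type} [Group G] [Group H] (f : H →* G) (hf : Function.Injective f)
    {d : ℕ} (hd : IsLcm G d) : ∃ d', IsLcm H d' ∧ d' ∣ d := by
  classical
  have hP : ∃ e : ℕ, 0 < e ∧ ∀ K : Subgroup H, Finite K → Nat.card K ∣ e := by
    refine ⟨d, hd.pos, fun K hK => ?_⟩
    have := card_map_of_inj hf K
    rw [← this.2]
    exact hd.2.1 _ this.1
  set d' := Nat.find hP with hd'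
  have h1 := Nat.find_spec hP
  have h2 : ∀ e : ℕ, (∀ K : Subgroup H, Finite K → Nat.card K ∣ e) → d' ∣ e := by
    intro e he
    have h3 : 0 < Nat.gcd d' e := Nat.gcd_pos_of_pos_left _ h1.1
    have h4 := Nat.find_min' hP ⟨h3, fun K hK => Nat.dvd_gcd (h1.2 K hK) (he K hK)⟩
    have h5 : Nat.gcd d' e = d' := le_antisymm (Nat.gcd_le_left _ h1.1) h4
    rw [← h5]
    exact Nat.gcd_dvd_right _ _
  refine ⟨d', isLcm_of h1.1 h1.2 h2, h2 d fun K hK => ?_⟩
  have := card_map_of_inj hf K
  rw [← this.2]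
  exact hd.2.1 _ this.1

/-- the Atiyah conjecture for `G` with coefficients in `ℂ` -/
def At (G : Type) [Group G] : Prop := ∀ d : ℕ, IsLcm G d → Good (frac d) G

section tree
variable {G V : Type} [Group G] [MulAction G V] {T : SimpleGraph V}

/-- the setwise stabiliser of an edge -/
theorem mem_stab_edge (hact : ∀ (g : G) (v w : V), T.Adj v w → T.Adj (g • v) (g • w)) (v w : V)
    (h : T.Adj v w) (g : G) : letI := eAct hact;
    g ∈ MulAction.stabilizer G (⟨s(v, w), h⟩ : T.edgeSet) ↔
      (g • v = v ∧ g • w = w) ∨ (g • v = w ∧ g • w = v) := by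
  let _ := eAct hact
  rw [MulAction.mem_stabilizer_iff]
  constructor
  · intro h1
    have h2 := congrArg Subtype.val h1
    have h3 : s(g • v, g • w) = s(v, w) := h2
    rw [Sym2.eq_iff] at h3
    exact h3
  · intro h1
    apply Subtype.ext
    show s(g • v, g • w) = s(v, w)
    rw [Sym2.eq_iff]
    exact h1

theorem finite_stab_edge (hact : ∀ (g : G) (v w : V), T.Adj v w → T.Adj (g • v) (g • w))
    (hfin : ∀ v w : V, T.Adj v w → Finite {g : G // g • v = v ∧ g • w = w}) (s : T.edgeSet) :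
    letI := eAct hact; Finite (MulAction.stabilizer G s) := by
  let _ := eAct hact
  obtain ⟨s, hs⟩ := s
  induction s using Sym2.ind with
  | _ v w =>
    have h1 := hfin v w hs
    have h2 : {g : G | g • v = v ∧ g • w = w}.Finite := h1
    have h3 : {g : G | g • v = w ∧ g • w = v}.Finite := by
      by_cases hne : ∃ g0 : G, g0 • v = w ∧ g0 • w = v
      · obtain ⟨g0, h4, h5⟩ := hne
        refine (h2.image fun g => g0 * g).subset ?_
        rintro g ⟨h6, h7⟩
        refine ⟨g0⁻¹ * g, ⟨?_, ?_⟩, by simp⟩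
        · rw [mul_smul, h6, inv_smul_eq_iff, h4]
        · rw [mul_smul, h7, inv_smul_eq_iff, h5]
      · refine Set.Finite.subset Set.finite_empty ?_
        intro g hg
        exact hne ⟨g, hg⟩
    have h4 : (MulAction.stabilizer G (⟨s(v, w), hs⟩ : T.edgeSet) : Set G) ⊆
        {g : G | g • v = v ∧ g • w = w} ∪ {g : G | g • v = w ∧ g • w = v} := by
      intro g hg
      exact (mem_stab_edge hact v w hs g).1 hg
    exact ((h2.union h3).subset h4).to_subtype

theorem tree_good (hT : T.IsTree)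
    (hact : ∀ (g : G) (v w : V), T.Adj v w → T.Adj (g • v) (g • w))
    (hfin : ∀ v w : V, T.Adj v w → Finite {g : G // g • v = v ∧ g • w = w})
    (Λ : AddSubgroup ℝ) (hV : ∀ v : V, Good Λ (MulAction.stabilizer G v))
    (hE : ∀ v w : V, T.Adj v w → (∃ g : G, g • v = w ∧ g • w = v) →
      1 / (Nat.card {g : G // (g • v = v ∧ g • w = w) ∨ (g • v = w ∧ g • w = v)} : ℝ) ∈ Λ) :
    Good Λ G := by
  refine tree_core hT hact hfin Λ hV ?_
  let _ := eAct hact
  intro s
  have hf := finite_stab_edge hact hfin s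
  obtain ⟨s, hs⟩ := s
  induction s using Sym2.ind with
  | _ v w =>
    by_cases hinv : ∃ g : G, g • v = w ∧ g • w = v
    · apply good_finite
      have h1 := hE v w hs hinv
      have h2 : Nat.card {g : G // (g • v = v ∧ g • w = w) ∨ (g • v = w ∧ g • w = v)} =
          Nat.card (MulAction.stabilizer G (⟨s(v, w), hs⟩ : T.edgeSet)) := by
        refine Nat.card_congr (Equiv.subtypeEquivRight fun g => ?_)
        exact (mem_stab_edge hact v w hs g).symm
      rwa [h2] at h1
    · have hle : MulAction.stabilizer G (⟨s(v, w), hs⟩ : T.edgeSet) ≤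
          MulAction.stabilizer G v := by
        intro g hg
        rcases (mem_stab_edge hact v w hs g).1 hg with h1 | h1
        · exact h1.1
        · exact absurd ⟨g, h1⟩ hinv
      exact (hV v).of_injective (Subgroup.inclusion hle) (Subgroup.inclusion_injective hle)

theorem tree_at (hT : T.IsTree)
    (hact : ∀ (g : G) (v w : V), T.Adj v w → T.Adj (g • v) (g • w))
    (hfin : ∀ v w : V, T.Adj v w → Finite {g : G // g • v = v ∧ g • w = w})
    (hV : ∀ v : V, At (MulAction.stabilizer G v)) : At G := by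
  intro d hd
  refine tree_core hT hact hfin (frac d) ?_ ?_
  · intro v w hw
    obtain ⟨d', h1, h2⟩ := exists_isLcm (MulAction.stabilizer G v).subtype
      (MulAction.stabilizer G v).subtype_injective hd
    exact frac_mono h2 (hV v d' h1 w hw)
  · let _ := eAct hact
    intro s
    have hf := finite_stab_edge hact hfin s
    exact good_finite _ (inv_mem_frac (hd.2.1 _ hf) Nat.card_pos)

end tree

end Pool.Agent.Zk53.AT
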