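import Pool.Agent.Zk53.AT5

/-!
Groups acting on trees with finite edge stabilisers: submonoids of kernel dimensions.
-/

set_option autoImplicit false
set_option linter.unusedSectionVars false

open scoped InnerProductSpace ENNReal
open Filter Topology

namespace Pool.Agent.Zk53.AT

open Pool.Agent.H80R2
open Pool.Agent.H80R2.BC (L2 GMat vdim IsTr LInv Equi act kerA dk pt vals TorDiv Coef AtR)
open Pool.Agent.H812R3
open Pool.Agent.W656.VA

section loc
variable {ι κ G X : Type} [Group G] [Fintype ι] [MulAction G X]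

open Classical in
theorem mem_of_blkM [Fintype κ] {a : ι → X} {b : κ → X} {M : GMat κ ι G} (hM : Blk a b M)
    (Λ : AddSubmonoid ℝ) (hΛ : ∀ i, vdim (kerA (blk a b M (a i))) ∈ Λ) :
    vdim (kerA M) ∈ Λ := by
  have hex := fun c : X => exists_vec (isClosed_kerA (blk a b M c))
  choose u hu hu2 hu3 using hex
  set w : ι → L2 (ι × G) := fun i =>
    KP.push (fun p : {j : ι // a j = a i} × MulAction.stabilizer G (a i) =>
      ((p.1 : ι), (p.2 : G))) (by simpa using inj_blk a (a i) (1 : G)) (u (a i) ⟨i, rfl⟩) with hw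
  have hw1 : ∀ i (j : {j : ι // a j = a i}) (h : MulAction.stabilizer G (a i)),
      w i ((j : ι), (h : G)) = u (a i) ⟨i, rfl⟩ (j, h) := fun i j h =>
    pushL_apply _ _ (u (a i) ⟨i, rfl⟩) (j, h)
  have hw0 : ∀ i j g, ¬ (a j = a i ∧ g ∈ MulAction.stabilizer G (a i)) → w i (j, g) = 0 := by
    intro i j g hg
    apply pushL_apply_ne
    rintro ⟨a', b'⟩ h
    simp only [Prod.mk.injEq] at h
    apply hg
    rw [← h.1, ← h.2]
    exact ⟨a'.2, b'.2⟩
  have hkey : vdim (kerA M) = ∑ i, (u (a i) ⟨i, rfl⟩ (⟨i, rfl⟩, 1)).re := by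
    rw [vdim_of_vec (isClosed_kerA M) w]
    · refine Finset.sum_congr rfl fun i _ => ?_
      rw [← hw1 i ⟨i, rfl⟩ 1]
      rfl
    · intro i
      rw [mem_blk hM]
      intro c g
      by_cases hc : c = a i
      · subst hc
        by_cases hg : g ∈ MulAction.stabilizer G (a i)
        · have : slb a (a i) g (w i) = lt _ (⟨g, hg⟩ : MulAction.stabilizer G (a i))
              (u (a i) ⟨i, rfl⟩) := by
            ext ⟨j, h⟩
            rw [slb_apply, lt_apply, ← hw1]
            rfl
          rw [this]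
          exact linv_lt (linv_kerA _) _ (hu _ _)
        · have : slb a (a i) g (w i) = 0 := by
            ext ⟨j, h⟩
            rw [slb_apply, hw0]
            · rfl
            · rintro ⟨_, h3⟩
              exact hg ((Subgroup.mul_mem_cancel_right _ h.2).1 h3)
          rw [this]
          exact Submodule.zero_mem _
      · have : slb a c g (w i) = 0 := by
          ext ⟨j, h⟩
          rw [slb_apply, hw0]
          · rfl
          · rintro ⟨h3, _⟩
            exact hc (j.2.symm.trans h3)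
        rw [this]
        exact Submodule.zero_mem _
    · intro i x hx
      have h1 : ⟪w i, x⟫_ℂ = ⟪u (a i) ⟨i, rfl⟩, slb a (a i) 1 x⟫_ℂ := by
        rw [hw]
        show ⟪KP.push _ _ (u (a i) ⟨i, rfl⟩), x⟫_ℂ = _
        rw [KP.push, ContinuousLinearMap.adjoint_inner_left]
        congr 1
        ext ⟨j, h⟩
        rw [slb_apply, one_mul]
        rfl
      rw [h1, hu2 (a i) ⟨i, rfl⟩ _ ((mem_blk hM x).1 hx (a i) 1), slb_apply, one_mul]
      rfl
  rw [hkey, ← Finset.sum_fiberwise_of_maps_to (s := Finset.univ) (t := Finset.univ.image a)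
    (g := a) (fun i _ => Finset.mem_image_of_mem a (Finset.mem_univ i))]
  refine Λ.sum_mem fun c hc => ?_
  obtain ⟨i0, -, rfl⟩ := Finset.mem_image.1 hc
  have h2 : ∑ i with a i = a i0, (u (a i) ⟨i, rfl⟩ (⟨i, rfl⟩, 1)).re =
      vdim (kerA (blk a b M (a i0))) := by
    rw [hu3 (a i0)]
    rw [Finset.sum_subtype (p := fun i => a i = a i0) (Finset.univ.filter fun i => a i = a i0)
      (by intro i; simp) (fun i => (u (a i) ⟨i, rfl⟩ (⟨i, rfl⟩, 1)).re)]
    refine Finset.sum_congr rfl fun i _ => ?_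
    obtain ⟨i, hi⟩ := i
    have : ∀ (c : X) (hi : a i = c), (u (a i) ⟨i, rfl⟩ (⟨i, rfl⟩, 1)).re =
        (u c ⟨i, hi⟩ (⟨i, hi⟩, 1)).re := by
      rintro c rfl
      rfl
    exact this _ hi
  rw [h2]
  exact hΛ i0

/-- All kernel dimensions over `ℂ[H]` lie in `Λ`. -/
def GoodM (Λ : AddSubmonoid ℝ) (H : Type) [Group H] : Prop := ∀ v : ℝ, Val ⊤ H v → v ∈ Λ

theorem GoodM.of_injective {Λ : AddSubmonoid ℝ} {H K : Type} [Group H] [Group K]
    (hK : GoodM Λ K) (f : H →* K) (hf : Function.Injective f) : GoodM Λ H :=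
  fun v hv => hK v (val_incl f hf hv)

open Classical in
/-- **Located matrices**: the kernel dimension is controlled by the point stabilisers. -/
theorem mem_of_locM [Fintype κ] {a : ι → X} {b : κ → X} {M : GMat κ ι G} (hM : Loc a b M)
    (Λ : AddSubmonoid ℝ) (hΛ : ∀ x : X, GoodM Λ (MulAction.stabilizer G x)) :
    vdim (kerA M) ∈ Λ := by
  set r : X → X := fun x => (Quotient.mk (MulAction.orbitRel G X) x).out with hr
  have hr1 : ∀ x, ∃ g : G, g • r x = x := by
    intro x
    have h1 : (MulAction.orbitRel G X).r x (r x) :=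
      Quotient.exact (Quotient.out_eq (Quotient.mk (MulAction.orbitRel G X) x)).symm
    exact h1
  have hr2 : ∀ (g : G) x, r (g • x) = r x := by
    intro g x
    have h1 : Quotient.mk (MulAction.orbitRel G X) (g • x) =
        Quotient.mk (MulAction.orbitRel G X) x := Quotient.sound ⟨g, rfl⟩
    rw [hr]
    simp only [h1]
  choose τ hτ using hr1
  set s : κ → G := fun k => τ (b k) with hs
  set t : ι → G := fun i => τ (a i) with ht
  rw [← vdim_tw s t M]
  have hB : Blk (fun i => r (a i)) (fun k => r (b k)) (tw s t M) := by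
    intro k i h hh
    unfold tw at hh
    have h1 : h ∈ ((M k i).mapDomain fun h => (s k)⁻¹ * h * t i).support :=
      Finsupp.mem_support_iff.2 hh
    have h2 := Finsupp.mapDomain_support h1
    rw [Finset.mem_image] at h2
    obtain ⟨h', h3, rfl⟩ := h2
    have h4 := hM k i h' (Finsupp.mem_support_iff.1 h3)
    have h5 : r (a i) = r (b k) := by rw [← h4, hr2]
    refine ⟨h5, ?_⟩
    rw [MulAction.mem_stabilizer_iff, mul_smul, mul_smul, hτ, h4, inv_smul_eq_iff]
    beta_reduce
    rw [h5, hτ]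
  exact mem_of_blkM hB Λ fun i => hΛ _ _ (val_of _ fun _ _ _ => Subring.mem_top _)

end loc

section coreM
variable {J G E : Type} [Group G] [Fintype J] [MulAction G E]

/-- **The dimension formula**: systems located at the two ends of the edges of a forest. -/
theorem coreM {κ0 κ1 X0 X1 : Type} [Fintype κ0] [Fintype κ1] [MulAction G X0] [MulAction G X1]
    (hfin : ∀ x : E, Finite (MulAction.stabilizer G x))
    (p0 : E → X0) (hp0 : ∀ (g : G) x, p0 (g • x) = g • p0 x)
    (p1 : E → X1) (hp1 : ∀ (g : G) x, p1 (g • x) = g • p1 x)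
    (cut : ∀ e0 : E, ∃ (χ0 : X0 → Bool) (χ1 : X1 → Bool), ∀ x, (χ0 (p0 x) ≠ χ1 (p1 x) ↔ x = e0))
    (e : J → E) (M0 : GMat κ0 J G) (b0 : κ0 → X0) (h0 : Loc (fun j => p0 (e j)) b0 M0)
    (M1 : GMat κ1 J G) (b1 : κ1 → X1) (h1 : Loc (fun j => p1 (e j)) b1 M1)
    (Λ0 Λ1 ΛE : AddSubmonoid ℝ) (hΛ0 : ∀ x : X0, GoodM Λ0 (MulAction.stabilizer G x))
    (hΛ1 : ∀ x : X1, GoodM Λ1 (MulAction.stabilizer G x))
    (hΛE : ∀ x : E, GoodM ΛE (MulAction.stabilizer G x)) :
    ∃ a ∈ Λ0, ∃ b ∈ Λ1, ∃ c ∈ ΛE, vdim (kerA M0 ⊓ kerA M1) + c = a + b := by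
  classical
  set K := kerA M0 ⊓ kerA M1 with hKdef
  have hKi : LInv K := linv_inf (linv_kerA _) (linv_kerA _)
  set N := ME hfin e K with hN
  have hNl : Loc e (fun q : Σ j0 : J, fb hfin e j0 => e q.1) N := loc_ME hfin e K
  have hKN : K ≤ kerA N := le_ME hfin e K hKi
  set K0 := kerA (BC.stack M0 N) with hK0
  set K1 := kerA (BC.stack M1 N) with hK1
  have e0 : K0 = kerA M0 ⊓ kerA N := kerA_stack _ _
  have e1 : K1 = kerA M1 ⊓ kerA N := kerA_stack _ _
  have hl0 : Loc (fun j => p0 (e j)) (Sum.elim b0 fun q : Σ j0 : J, fb hfin e j0 => p0 (e q.1))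
      (BC.stack M0 N) := Loc.stack h0 (hNl.map p0 hp0)
  have hl1 : Loc (fun j => p1 (e j)) (Sum.elim b1 fun q : Σ j0 : J, fb hfin e j0 => p1 (e q.1))
      (BC.stack M1 N) := Loc.stack h1 (hNl.map p1 hp1)
  have m0 : vdim K0 ∈ Λ0 := mem_of_locM hl0 Λ0 hΛ0
  have m1 : vdim K1 ∈ Λ1 := mem_of_locM hl1 Λ1 hΛ1
  have mN : vdim (kerA N) ∈ ΛE := mem_of_locM hNl ΛE hΛE
  have hinf : K0 ⊓ K1 = K := by
    rw [e0, e1]
    apply le_antisymm
    · rintro x ⟨⟨a, b⟩, ⟨c, _⟩⟩
      exact ⟨a, c⟩
    · intro x hx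
      exact ⟨⟨hx.1, hKN hx⟩, ⟨hx.2, hKN hx⟩⟩
  -- restriction to one edge
  have hone : ∀ z ∈ K, ∀ x0 : E, rs (fun p : J × G => decide (p.2 • e p.1 = x0)) z ∈ K0 ⊔ K1 := by
    intro z hz x0
    obtain ⟨χ0, χ1, hχ⟩ := cut x0
    have hzN := hKN hz
    have a0 : rs (fun p : J × G => χ0 (p.2 • p0 (e p.1))) z ∈ K0 := by
      have hz0 : z ∈ K0 := by
        rw [e0]
        exact ⟨hz.1, hzN⟩
      exact rs_mem_loc hl0 χ0 hz0
    have a1 : rs (fun p : J × G => χ1 (p.2 • p1 (e p.1))) z ∈ K1 := by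
      have hz1 : z ∈ K1 := by
        rw [e1]
        exact ⟨hz.2, hzN⟩
      exact rs_mem_loc hl1 χ1 hz1
    have hx0 := (hχ x0).2 rfl
    have key : rs (fun p : J × G => decide (p.2 • e p.1 = x0)) z =
        (if χ0 (p0 x0) then (1 : ℂ) else -1) • (rs (fun p : J × G => χ0 (p.2 • p0 (e p.1))) z -
          rs (fun p : J × G => χ1 (p.2 • p1 (e p.1))) z) := by
      ext ⟨j, g⟩
      rw [lp.coeFn_smul, Pi.smul_apply, lp.coeFn_sub, Pi.sub_apply, rs_apply, rs_apply, rs_apply]
      simp only [← hp0, ← hp1]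
      by_cases hc : g • e j = x0
      · rw [hc]
        cases h2 : χ0 (p0 x0) <;> cases h3 : χ1 (p1 x0) <;> simp_all
      · have h4 : χ0 (p0 (g • e j)) = χ1 (p1 (g • e j)) := by
          by_contra hne
          exact hc ((hχ _).1 hne)
        rw [h4, sub_self, smul_zero]
        simp [hc]
    rw [key]
    exact Submodule.smul_mem _ _ (Submodule.sub_mem _ (Submodule.mem_sup_left a0)
      (Submodule.mem_sup_right a1))
  have hbot : kerA N ⊓ (K0ᗮ ⊓ K1ᗮ) = ⊥ := by
    rw [eq_bot_iff]
    rintro u ⟨hu, hu0, hu1⟩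
    rw [Submodule.mem_bot]
    ext ⟨j0, g0⟩
    have h2 := (mem_ME hfin e K u).1 hu j0 g0
    obtain ⟨z, hz, hzu⟩ := h2
    have hz' : lt J g0⁻¹ z ∈ K := linv_lt hKi _ hz
    have h3 := hone _ hz' (g0 • e j0)
    have h4 : ⟪rs (fun p : J × G => decide (p.2 • e p.1 = g0 • e j0)) (lt J g0⁻¹ z), u⟫_ℂ = 0 := by
      obtain ⟨a, ha, b, hb, hab⟩ := Submodule.mem_sup.1 h3
      rw [← hab, inner_add_left, Submodule.inner_right_of_mem_orthogonal ha hu0,
        Submodule.inner_right_of_mem_orthogonal hb hu1, add_zero]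
    have h5 : rs (fun p : J × G => decide (p.2 • e p.1 = g0 • e j0)) (lt J g0⁻¹ z) =
        rs (fun p : J × G => decide (p.2 • e p.1 = g0 • e j0)) u := by
      ext ⟨j, g⟩
      rw [rs_apply, rs_apply]
      by_cases hc : g • e j = g0 • e j0
      · simp only [hc, decide_true, if_true]
        rw [lt_apply]
        have h6 : ((j, g0⁻¹ * g) : J × G) ∈ fb hfin e j0 := by
          rw [mem_fb]
          simp only [mul_smul, hc, inv_smul_smul]
        have h7 := congrFun hzu ⟨_, h6⟩
        rw [re_apply] at h7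
        simp only [mul_inv_cancel_left] at h7
        exact h7
      · simp [hc]
    rw [h5] at h4
    have h8 : ⟪rs (fun p : J × G => decide (p.2 • e p.1 = g0 • e j0)) u,
        rs (fun p : J × G => decide (p.2 • e p.1 = g0 • e j0)) u⟫_ℂ = 0 := by
      rw [← h4, lp.inner_eq_tsum, lp.inner_eq_tsum]
      refine tsum_congr fun p => ?_
      rw [rs_apply]
      split_ifs
      · rfl
      · simp
    have h9 := congrArg (fun v : L2 (J × G) => v (j0, g0)) (inner_self_eq_zero.1 h8)
    simp only [rs_apply] at h9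
    simpa using h9
  have hmod := vdim_modular (K := K0) (L := K1) (M := kerA N) (isClosed_kerA _) (linv_kerA _)
    (isClosed_kerA _) (linv_kerA _) (isClosed_kerA _) (linv_kerA _)
    (by rw [e0]; exact inf_le_right) (by rw [e1]; exact inf_le_right) hbot
  rw [hinf] at hmod
  exact ⟨_, m0, _, m1, _, mN, hmod.symm⟩

end coreM

section main
variable {G V : Type} [Group G] [MulAction G V] {T : SimpleGraph V}

/-- **Groups acting on trees with finite edge stabilisers.** -/
theorem tree_coreM (hT : T.IsTree)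
    (hact : ∀ (g : G) (v w : V), T.Adj v w → T.Adj (g • v) (g • w))
    (hfin : ∀ v w : V, T.Adj v w → Finite {g : G // g • v = v ∧ g • w = w})
    (Λ0 Λ1 ΛE : AddSubmonoid ℝ) (hV : ∀ v : V, GoodM Λ0 (MulAction.stabilizer G v))
    (hE : letI := eAct hact; ∀ s : T.edgeSet, GoodM Λ1 (MulAction.stabilizer G s))
    (hD : letI := dAct hact; ∀ s : T.Dart, GoodM ΛE (MulAction.stabilizer G s))
    (x : ℝ) (hx : Val ⊤ G x) : ∃ a ∈ Λ0, ∃ b ∈ Λ1, ∃ c ∈ ΛE, x + c = a + b := by
  classical
  let iE := eAct hact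
  let iD := dAct hact
  obtain ⟨m, n, A, -, rfl⟩ := hx
  by_cases hne : Nonempty T.Dart
  · obtain ⟨d0⟩ := hne
    set S : Finset V := Finset.univ.biUnion fun k : Fin n => Finset.univ.biUnion fun i : Fin m =>
      (A k i).support.image fun h => h⁻¹ • d0.fst with hS
    obtain ⟨Q, hQ, hQS⟩ := exists_conn hT.connected d0 S
    have hq0 : d0 ∈ Q := hQ.1
    -- choice of the localising dart
    have hex : ∀ h : G, ∃ q : Q, (∃ k i, h ∈ (A k i).support) → (q : T.Dart).fst = h⁻¹ • d0.fst := by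
      intro h
      by_cases hh : ∃ k i, h ∈ (A k i).support
      · obtain ⟨k, i, hki⟩ := hh
        obtain ⟨q, hq, hq'⟩ := hQS (h⁻¹ • d0.fst) (by
          rw [hS]
          exact Finset.mem_biUnion.2 ⟨k, Finset.mem_univ _, Finset.mem_biUnion.2 ⟨i,
            Finset.mem_univ _, Finset.mem_image_of_mem _ hki⟩⟩)
        exact ⟨⟨q, hq⟩, fun _ => hq'⟩
      · exact ⟨⟨d0, hq0⟩, fun h' => absurd h' hh⟩
    choose f hf using hex
    set c0 : Q → V := fun q => (q : T.Dart).fst with hc0
    set c1 : Q → T.edgeSet := fun q => dE (q : T.Dart) with hc1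
    set M0 := BC.stack (EQ G (Fin m) fun q q' : Q => c0 q = c0 q') (LM A f) with hM0
    set M1 := EQ G (Fin m) fun q q' : Q => c1 q = c1 q' with hM1
    have hl0 : Loc (fun j : Fin m × Q => (j.2 : T.Dart).fst)
        (Sum.elim (fun k : Fin m × Q × Q => c0 k.2.1) fun _ : Fin n => d0.fst) M0 := by
      apply Loc.stack
      · exact loc_EQ c0
      · apply loc_LM A f c0
        intro k i h hh
        show h • (f h : T.Dart).fst = d0.fst
        rw [hf h ⟨k, i, hh⟩, smul_inv_smul]
    have hl1 : Loc (fun j : Fin m × Q => dE (j.2 : T.Dart))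
        (fun k : Fin m × Q × Q => c1 k.2.1) M1 := loc_EQ c1
    have hstab : ∀ x : T.Dart, Finite (MulAction.stabilizer G x) := by
      intro x
      have := hfin x.fst x.snd x.adj
      refine Finite.of_injective (β := {g : G // g • x.fst = x.fst ∧ g • x.snd = x.snd})
        (fun g => ⟨g.1, ?_⟩) ?_
      · have h1 := congrArg SimpleGraph.Dart.toProd (MulAction.mem_stabilizer_iff.1 g.2)
        exact ⟨congrArg Prod.fst h1, congrArg Prod.snd h1⟩
      · intro a b hab
        simp only [Subtype.mk.injEq] at hab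
        exact Subtype.ext hab
    have key := coreM (J := Fin m × Q) (E := T.Dart) hstab (fun d => d.fst) (fun _ _ => rfl)
      (fun d => dE d) (fun _ _ => rfl) (cut_dart hT.isAcyclic) (fun j => (j.2 : T.Dart)) M0 _ hl0
      M1 _ hl1 Λ0 Λ1 ΛE hV hE hD
    suffices h : vdim (kerA A) = vdim (kerA M0 ⊓ kerA M1) by
      rw [h]
      exact key
    have hcl : IsClosed ((kerA M0 ⊓ kerA M1 : Submodule ℂ (L2 ((Fin m × Q) × G))) :
        Set (L2 ((Fin m × Q) × G))) := isClosed_inf (isClosed_kerA _) (isClosed_kerA _)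
    have hin : LInv (kerA M0 ⊓ kerA M1) := linv_inf (linv_kerA _) (linv_kerA _)
    apply le_antisymm
    · refine vdim_inj_le (isClosed_kerA _) (linv_kerA _) (op (DP G (Fin m) Q)) (equi_op _) hcl ?_ ?_
      · intro x hx
        have hy : ∀ i q g, op (DP G (Fin m) Q) x ((i, q), g) = x (i, g) := by
          intro i q g
          rw [op_apply, act_DP]
        refine ⟨?_, ?_⟩
        · rintro (⟨i, q, q'⟩ | k) g
          · show act (EQ G (Fin m) fun q q' : Q => c0 q = c0 q') _ (i, q, q') g = 0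
            by_cases hr : c0 q = c0 q'
            · rw [act_EQ (fun q q' : Q => c0 q = c0 q') _ i q q' hr, hy, hy, sub_self]
            · rw [act_EQ_neg (fun q q' : Q => c0 q = c0 q') _ i q q' hr]
          · show act (LM A f) _ k g = 0
            rw [act_LM]
            simp only [hy]
            exact hx k g
        · rintro ⟨i, q, q'⟩ g
          by_cases hr : c1 q = c1 q'
          · rw [hM1, act_EQ (fun q q' : Q => c1 q = c1 q') _ i q q' hr, hy, hy, sub_self]
          · rw [hM1, act_EQ_neg (fun q q' : Q => c1 q = c1 q') _ i q q' hr]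
      · intro x _ hx
        ext ⟨i, g⟩
        have h1 : op (DP G (Fin m) Q) x ((i, ⟨d0, hq0⟩), g) = x (i, g) := by
          rw [op_apply, act_DP]
        rw [← h1, hx]
        rfl
    · -- the other inequality
      have hinj : Function.Injective (fun p : Fin m × G => ((p.1, (⟨d0, hq0⟩ : Q)), p.2)) := by
        rintro ⟨a, b⟩ ⟨c, d⟩ h
        simpa using h
      have heq : ∀ y ∈ kerA M0 ⊓ kerA M1, ∀ i (q : Q) g,
          y ((i, q), g) = y ((i, ⟨d0, hq0⟩), g) := by
        intro y hy i q g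
        have h1 := hQ.2 (fun d => if h : d ∈ Q then y ((i, ⟨d, h⟩), g) else 0) ?_ ?_ q.1 q.2
        · rw [dif_pos q.2, dif_pos hq0] at h1
          exact h1
        · intro q1 hq1 q2 hq2 he
          rw [dif_pos hq1, dif_pos hq2]
          have h2 := hy.1 (Sum.inl (i, ⟨q1, hq1⟩, ⟨q2, hq2⟩)) g
          have h3 : act (EQ G (Fin m) fun q q' : Q => c0 q = c0 q') y
            (i, ⟨q1, hq1⟩, ⟨q2, hq2⟩) g = 0 := h2
          rw [act_EQ (fun q q' : Q => c0 q = c0 q') _ i _ _ he] at h3
          exact sub_eq_zero.1 h3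
        · intro q1 hq1 q2 hq2 he
          rw [dif_pos hq1, dif_pos hq2]
          have h3 := hy.2 (i, ⟨q1, hq1⟩, ⟨q2, hq2⟩) g
          have he' : c1 ⟨q1, hq1⟩ = c1 ⟨q2, hq2⟩ := Subtype.ext he
          rw [hM1, act_EQ (fun q q' : Q => c1 q = c1 q') _ i _ _ he'] at h3
          exact sub_eq_zero.1 h3
      refine vdim_inj_le hcl hin (KP.pull _ hinj) ?_ (isClosed_kerA _) ?_ ?_
      · apply equi_of
        intro g x
        ext ⟨i, h⟩
        rfl
      · intro y hy k g
        have h1 : act (LM A f) y k g = 0 := hy.1 (Sum.inr k) g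
        rw [act_LM] at h1
        rw [← h1]
        unfold act
        refine Finset.sum_congr rfl fun i _ => ?_
        refine Finset.sum_congr rfl fun h _ => ?_
        show _ * y ((i, ⟨d0, hq0⟩), g * h) = _ * y ((i, f h), g * h)
        rw [heq y hy i (f h)]
      · intro y hy hy0
        ext ⟨⟨i, q⟩, g⟩
        rw [heq y hy]
        have h1 := congrArg (fun z : L2 (Fin m × G) => z (i, g)) hy0
        exact h1
  · -- no edges: the tree is a point
    have hss : ∀ v w : V, v = w := by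
      intro v w
      obtain ⟨p⟩ := hT.connected.preconnected v w
      cases p with
      | nil => rfl
      | cons h _ => exact absurd ⟨⟨(_, _), h⟩⟩ hne
    obtain ⟨v0⟩ := hT.connected.nonempty
    refine ⟨_, hV v0 _ (val_incl (G := G) (G' := MulAction.stabilizer G v0)
      (MonoidHom.codRestrict (MonoidHom.id G) _ fun g => ?_) ?_
      (val_of A fun _ _ _ => Subring.mem_top _)), 0, Λ1.zero_mem, 0, ΛE.zero_mem, rfl⟩
    · rw [MulAction.mem_stabilizer_iff]
      exact hss _ _
    · intro a b hab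
      exact congrArg Subtype.val hab

end main

end Pool.Agent.Zk53.AT
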