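import Pool.Agent.Zk53.AT6

/-!
The tree of a free product with a free group.
-/

set_option autoImplicit false
set_option linter.unusedSectionVars false

open scoped InnerProductSpace ENNReal
open Filter Topology

namespace Pool.Agent.Zk53.AT

open Pool.Agent.H80R2
open Pool.Agent.H80R2.BC (L2 GMat vdim IsTr LInv Equi act kerA dk pt vals TorDiv Coef AtR)
open Pool.Agent.H812R3
open Pool.Agent.W656.VA

theorem reach_const {V : Type} {T : SimpleGraph V} {β : Type} (f : V → β)
    (hf : ∀ x y, T.Adj x y → f x = f y) {x y : V} (h : T.Reachable x y) : f x = f y := by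
  obtain ⟨p⟩ := h
  induction p with
  | nil => rfl
  | cons h _ ih => exact (hf _ _ h).trans ih

section hnn
variable {G G' I : Type} [Group G] [Group G'] (inc : G →* G') (u : I → G')

/-- the tree -/
def hT : SimpleGraph (G' ⧸ inc.range) :=
  SimpleGraph.fromRel fun x y => ∃ (a : G') (i : I), x = (a : G' ⧸ inc.range) ∧
    y = ((a * u i : G') : G' ⧸ inc.range)

theorem hT_adj (x y : G' ⧸ inc.range) : (hT inc u).Adj x y ↔ x ≠ y ∧
    ((∃ (a : G') (i : I), x = (a : G' ⧸ inc.range) ∧ y = ((a * u i : G') : G' ⧸ inc.range)) ∨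
      (∃ (a : G') (i : I), y = (a : G' ⧸ inc.range) ∧ x = ((a * u i : G') : G' ⧸ inc.range))) :=
  Iff.rfl

/-- the cut functions -/
def Cuts : Prop := ∀ (i0 : I) (a0 : G'), ∃ χ : G' → Bool, (∀ r g, χ (r * inc g) = χ r) ∧
  ∀ i a, (χ a ≠ χ (a * u i) ↔ i = i0 ∧ a = a0)

variable {inc u}

theorem smul_mk' (g a : G') : g • (a : G' ⧸ inc.range) = ((g * a : G') : G' ⧸ inc.range) := rfl

theorem hT_act (g : G') (x y : G' ⧸ inc.range) (h : (hT inc u).Adj x y) :
    (hT inc u).Adj (g • x) (g • y) := by
  rw [hT_adj] at h ⊢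
  refine ⟨fun e => h.1 (MulAction.injective g e), ?_⟩
  rcases h.2 with ⟨a, i, rfl, rfl⟩ | ⟨a, i, rfl, rfl⟩
  · exact Or.inl ⟨g * a, i, rfl, by rw [smul_mk', mul_assoc]⟩
  · exact Or.inr ⟨g * a, i, rfl, by rw [smul_mk', mul_assoc]⟩

/-- cut function on the vertices -/
theorem Cuts.desc (hc : Cuts inc u) (i0 : I) (a0 : G') : ∃ χ : G' ⧸ inc.range → Bool,
    ∀ (i : I) (a : G'), (χ (a : G' ⧸ inc.range) ≠ χ ((a * u i : G') : G' ⧸ inc.range) ↔ i = i0 ∧ a = a0) := by
  obtain ⟨χ, h1, h2⟩ := hc i0 a0
  have h3 : ∀ a : G', χ ((a : G' ⧸ inc.range).out) = χ a := by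
    intro a
    obtain ⟨⟨h, g, hg⟩, hh⟩ := QuotientGroup.mk_out_eq_mul inc.range a
    rw [hh]
    show χ (a * h) = χ a
    rw [← hg, h1]
  refine ⟨fun x => χ x.out, fun i a => ?_⟩
  simp only [h3]
  exact h2 i a

theorem Cuts.acyclic (hc : Cuts inc u) : (hT inc u).IsAcyclic := by
  rw [SimpleGraph.isAcyclic_iff_forall_adj_isBridge]
  have key : ∀ (a : G') (i : I), (hT inc u).IsBridge
      s((a : G' ⧸ inc.range), ((a * u i : G') : G' ⧸ inc.range)) := by
    intro a i
    rw [SimpleGraph.isBridge_iff]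
    intro hr
    obtain ⟨χ, hχ⟩ := hc.desc i a
    refine (hχ i a).2 ⟨rfl, rfl⟩ (reach_const χ ?_ hr)
    intro x y hxy
    rw [SimpleGraph.deleteEdges_adj, hT_adj] at hxy
    obtain ⟨⟨_, h1⟩, h2⟩ := hxy
    by_contra hne
    apply h2
    rw [Set.mem_singleton_iff]
    rcases h1 with ⟨b, j, rfl, rfl⟩ | ⟨b, j, rfl, rfl⟩
    · obtain ⟨rfl, rfl⟩ := (hχ j b).1 hne
      rfl
    · obtain ⟨rfl, rfl⟩ := (hχ j b).1 (Ne.symm hne)
      exact Sym2.eq_swap
  intro x y hxy
  rw [hT_adj] at hxy
  rcases hxy.2 with ⟨a, i, rfl, rfl⟩ | ⟨a, i, rfl, rfl⟩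
  · exact key a i
  · rw [Sym2.eq_swap]
    exact key a i

theorem hT_connected (hgen : Subgroup.closure (Set.range inc ∪ Set.range u) = ⊤) :
    (hT inc u).Connected := by
  have key : ∀ a : G', ∀ b : G', (hT inc u).Reachable (b : G' ⧸ inc.range)
      ((b * a : G') : G' ⧸ inc.range) := by
    intro a
    have ha : a ∈ Subgroup.closure (Set.range inc ∪ Set.range u) := by
      rw [hgen]
      trivial
    induction ha using Subgroup.closure_induction with
    | mem x hx =>
      intro b
      rcases hx with ⟨g, rfl⟩ | ⟨i, rfl⟩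
      · have : ((b * inc g : G') : G' ⧸ inc.range) = (b : G' ⧸ inc.range) := by
          rw [QuotientGroup.mk_mul_of_mem]
          exact ⟨g, rfl⟩
        rw [this]
      · by_cases h : (b : G' ⧸ inc.range) = ((b * u i : G') : G' ⧸ inc.range)
        · rw [← h]
        · exact SimpleGraph.Adj.reachable ((hT_adj inc u _ _).2 ⟨h, Or.inl ⟨b, i, rfl, rfl⟩⟩)
    | one => intro b; rw [mul_one]
    | mul x y _ _ hx hy =>
      intro b
      rw [← mul_assoc]
      exact (hx b).trans (hy (b * x))
    | inv x _ hx =>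
      intro b
      have := hx (b * x⁻¹)
      rw [inv_mul_cancel_right] at this
      exact this.symm
  have h1 : (hT inc u).Preconnected := by
    intro x y
    induction x using QuotientGroup.induction_on with
    | H a =>
      induction y using QuotientGroup.induction_on with
      | H b =>
        have := key (a⁻¹ * b) a
        rwa [mul_inv_cancel_left] at this
  exact { preconnected := h1, nonempty := ⟨((1 : G') : G' ⧸ inc.range)⟩ }

theorem Cuts.stab_adj (hc : Cuts inc u) (x y : G' ⧸ inc.range) (hxy : (hT inc u).Adj x y)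
    (g : G') (hg : (g • x = x ∧ g • y = y) ∨ (g • x = y ∧ g • y = x)) : g = 1 := by
  have key : ∀ (a : G') (i : I), ((g • (a : G' ⧸ inc.range) = (a : G' ⧸ inc.range) ∧
      g • ((a * u i : G') : G' ⧸ inc.range) = ((a * u i : G') : G' ⧸ inc.range)) ∨
      (g • (a : G' ⧸ inc.range) = ((a * u i : G') : G' ⧸ inc.range) ∧
        g • ((a * u i : G') : G' ⧸ inc.range) = (a : G' ⧸ inc.range))) → g = 1 := by
    intro a i h
    obtain ⟨χ, hχ⟩ := hc.desc i a
    have h1 := (hχ i a).2 ⟨rfl, rfl⟩
    have h2 : χ ((g * a : G') : G' ⧸ inc.range) ≠ χ ((g * a * u i : G') : G' ⧸ inc.range) := by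
      rw [← smul_mk', mul_assoc, ← smul_mk']
      rcases h with ⟨h3, h4⟩ | ⟨h3, h4⟩
      · rw [h3, h4]; exact h1
      · rw [h3, h4]; exact h1.symm
    have h3 := ((hχ i (g * a)).1 h2).2
    simpa using h3
  rw [hT_adj] at hxy
  rcases hxy.2 with ⟨a, i, rfl, rfl⟩ | ⟨a, i, rfl, rfl⟩
  · exact key a i hg
  · apply key a i
    rcases hg with h | h
    · exact Or.inl ⟨h.2, h.1⟩
    · exact Or.inr ⟨h.2, h.1⟩

end hnn

/-- the natural numbers in `ℝ` -/
def nats : AddSubmonoid ℝ := AddMonoidHom.mrange (Nat.castAddMonoidHom ℝ)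

theorem mem_nats (x : ℝ) : x ∈ nats ↔ ∃ n : ℕ, (n : ℝ) = x := Iff.rfl

theorem goodM_trivial (H : Type) [Group H] (h : ∀ x : H, x = 1) : GoodM nats H := by
  have : Finite H := by
    have : Subsingleton H := ⟨fun a b => by rw [h a, h b]⟩
    infer_instance
  have := Fintype.ofFinite H
  rintro v ⟨m, n, A, -, rfl⟩
  have h1 := vdim_finite (kerA A) (isClosed_kerA A) (linv_kerA A)
  have h2 : Nat.card H = 1 := by
    have : Subsingleton H := ⟨fun a b => by rw [h a, h b]⟩
    exact Nat.card_of_subsingleton 1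
  rw [h2, Nat.cast_one, one_mul] at h1
  exact ⟨_, h1.symm⟩

theorem val_one {R : Subring ℂ} (G : Type) [Group G] : Val R G 1 := by
  have h := val_subgroup (R := R) (⊥ : Subgroup G)
  simpa using h

/-- the submonoid of all kernel dimensions -/
def valM (G : Type) [Group G] : AddSubmonoid ℝ where
  carrier := {x | Val ⊤ G x}
  zero_mem' := val_zero
  add_mem' := fun ha hb => val_add ha hb

theorem mem_valM (G : Type) [Group G] (x : ℝ) : x ∈ valM G ↔ Val ⊤ G x := Iff.rfl

section
variable {G G' I : Type} [Group G] [Group G'] {inc : G →* G'} {u : I → G'}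

/-- upper bound for the kernel dimensions -/
theorem Cuts.val_le (hc : Cuts inc u) (hinj : Function.Injective inc)
    (hgen : Subgroup.closure (Set.range inc ∪ Set.range u) = ⊤) (x : ℝ) (hx : Val ⊤ G' x) :
    ∃ (v : ℝ) (j : ℕ), Val ⊤ G v ∧ x = v - j := by
  have hT' : (hT inc u).IsTree := ⟨hT_connected hgen, hc.acyclic⟩
  have hfin : ∀ v w : G' ⧸ inc.range, (hT inc u).Adj v w →
      Finite {g : G' // g • v = v ∧ g • w = w} := by
    intro v w hvw
    have h1 : ∀ g : {g : G' // g • v = v ∧ g • w = w}, g = ⟨1, by simp⟩ := by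
      rintro ⟨g, hg⟩
      exact Subtype.ext (hc.stab_adj v w hvw g (Or.inl hg))
    have : Subsingleton {g : G' // g • v = v ∧ g • w = w} :=
      ⟨fun a b => by rw [h1 a, h1 b]⟩
    infer_instance
  have hV : ∀ v : G' ⧸ inc.range, GoodM (valM G) (MulAction.stabilizer G' v) := by
    intro v
    induction v using QuotientGroup.induction_on with
    | H a =>
      have hmem : ∀ g : MulAction.stabilizer G' (a : G' ⧸ inc.range),
          (a⁻¹ * (g : G') * a) ∈ inc.range := by
        rintro ⟨g, hg⟩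
        rw [MulAction.mem_stabilizer_iff, smul_mk', eq_comm, QuotientGroup.eq] at hg
        rwa [← mul_assoc] at hg
      let f : MulAction.stabilizer G' (a : G' ⧸ inc.range) →* inc.range :=
        { toFun := fun g => ⟨a⁻¹ * (g : G') * a, hmem g⟩
          map_one' := by
            apply Subtype.ext
            simp
          map_mul' := by
            intro x y
            apply Subtype.ext
            show a⁻¹ * ((x : G') * y) * a = (a⁻¹ * x * a) * (a⁻¹ * y * a)
            group }
      have hf : Function.Injective f := by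
        intro x y hxy
        have := congrArg Subtype.val hxy
        simp only [f, MonoidHom.coe_mk, OneHom.coe_mk] at this
        exact Subtype.ext (by simpa using this)
      intro v hv
      have h1 : Val ⊤ inc.range v := val_incl f hf hv
      exact val_incl (MonoidHom.ofInjective hinj).symm.toMonoidHom
        (MonoidHom.ofInjective hinj).symm.injective h1
  have hE : letI := eAct (fun (g : G') v w (h : (hT inc u).Adj v w) => hT_act g v w h);
      ∀ s : (hT inc u).edgeSet, GoodM nats (MulAction.stabilizer G' s) := by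
    let _ := eAct (fun (g : G') v w (h : (hT inc u).Adj v w) => hT_act g v w h)
    rintro ⟨s, hs⟩
    induction s using Sym2.ind with
    | _ v w =>
      apply goodM_trivial
      rintro ⟨g, hg⟩
      apply Subtype.ext
      exact hc.stab_adj v w hs g
        ((mem_stab_edge (fun (g : G') v w (h : (hT inc u).Adj v w) => hT_act g v w h) v w hs g).1 hg)
  have hD : letI := dAct (fun (g : G') v w (h : (hT inc u).Adj v w) => hT_act g v w h);
      ∀ s : (hT inc u).Dart, GoodM nats (MulAction.stabilizer G' s) := by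
    let _ := dAct (fun (g : G') v w (h : (hT inc u).Adj v w) => hT_act g v w h)
    intro d
    apply goodM_trivial
    rintro ⟨g, hg⟩
    apply Subtype.ext
    have h1 := congrArg SimpleGraph.Dart.toProd (MulAction.mem_stabilizer_iff.1 hg)
    exact hc.stab_adj d.fst d.snd d.adj g (Or.inl ⟨congrArg Prod.fst h1, congrArg Prod.snd h1⟩)
  obtain ⟨a, ha, b, hb, c, hc', h⟩ := tree_coreM hT' (fun g v w h => hT_act g v w h) hfin (valM G)
    nats nats hV hE hD x hx
  obtain ⟨n, rfl⟩ := hb
  obtain ⟨k, rfl⟩ := hc'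
  refine ⟨a + n, k, ?_, ?_⟩
  · have := val_add ha (val_nsmul (val_one (R := ⊤) G) n)
    simpa using this
  · simp only [Nat.coe_castAddMonoidHom] at h
    linarith

end

end Pool.Agent.Zk53.AT
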