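import Pool.Agent.Zk53.AT7

/-!
Exact kernel dimensions for `G * F_∞`; the dichotomy.
-/

set_option autoImplicit false
set_option linter.unusedSectionVars false

open scoped InnerProductSpace ENNReal
open Filter Topology

namespace Pool.Agent.Zk53.AT

open Pool.Agent.H80R2
open Pool.Agent.H80R2.BC (L2 GMat vdim IsTr LInv Equi act kerA dk pt vals TorDiv Coef AtR)
open Pool.Agent.H812R3
open Pool.Agent.W656.VA

theorem cuts_coprod (G : Type) [Group G] (m : ℕ) :
    Cuts (Monoid.Coprod.inl : G →* Monoid.Coprod G (FreeGroup (Fin m)))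
      (fun i : Fin m => Monoid.Coprod.inr (FreeGroup.of i)) := by
  intro i0 a0
  obtain ⟨χ, h1, h2⟩ := BC.generic_coprod G m (Equiv.punitProd (Fin m)) PUnit.unit i0
    (a0 * Monoid.Coprod.inr (FreeGroup.of i0))
  refine ⟨χ, h1, fun i a => ?_⟩
  have h3 := h2 PUnit.unit i (a * Monoid.Coprod.inr (FreeGroup.of i))
  simp only [Equiv.punitProd_apply, mul_inv_cancel_right, true_and] at h3
  rw [h3]
  constructor
  · rintro ⟨rfl, h⟩
    exact ⟨rfl, by simpa using h⟩
  · rintro ⟨rfl, rfl⟩
    exact ⟨rfl, rfl⟩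

theorem gen_coprod (G I : Type) [Group G] :
    Subgroup.closure (Set.range (Monoid.Coprod.inl : G →* Monoid.Coprod G (FreeGroup I)) ∪
      Set.range (fun i : I => (Monoid.Coprod.inr (FreeGroup.of i) :
        Monoid.Coprod G (FreeGroup I)))) = ⊤ := by
  rw [eq_top_iff]
  intro x hx
  clear hx
  induction x using Monoid.Coprod.induction_on with
  | inl g => exact Subgroup.subset_closure (Or.inl ⟨g, rfl⟩)
  | inr w =>
    induction w using FreeGroup.induction_on with
    | C1 => rw [map_one]; exact Subgroup.one_mem _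
    | of i => exact Subgroup.subset_closure (Or.inr ⟨i, rfl⟩)
    | inv_of i ih => rw [map_inv]; exact Subgroup.inv_mem _ ih
    | mul x y hx hy => rw [map_mul]; exact Subgroup.mul_mem _ hx hy
  | mul x y hx hy => exact Subgroup.mul_mem _ hx hy

/-- the inclusion of the first `m` free generators -/
noncomputable def jm (G : Type) [Group G] (m : ℕ) :
    Monoid.Coprod G (FreeGroup (Fin m)) →* Monoid.Coprod G (FreeGroup ℕ) :=
  Monoid.Coprod.map (MonoidHom.id G) (FreeGroup.map (fun i : Fin m => (i : ℕ)))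

/-- a retraction -/
noncomputable def rm (G : Type) [Group G] (m : ℕ) :
    Monoid.Coprod G (FreeGroup ℕ) →* Monoid.Coprod G (FreeGroup (Fin m)) :=
  Monoid.Coprod.map (MonoidHom.id G)
    (FreeGroup.lift fun n : ℕ => if h : n < m then FreeGroup.of ⟨n, h⟩ else 1)

theorem rm_jm (G : Type) [Group G] (m : ℕ) (x : Monoid.Coprod G (FreeGroup (Fin m))) :
    rm G m (jm G m x) = x := by
  have h : (rm G m).comp (jm G m) = MonoidHom.id _ := by
    apply Monoid.Coprod.hom_ext
    · ext g
      simp [rm, jm]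
    · apply FreeGroup.ext_hom
      intro i
      simp [rm, jm]
  exact DFunLike.congr_fun h x

theorem jm_injective (G : Type) [Group G] (m : ℕ) : Function.Injective (jm G m) :=
  Function.LeftInverse.injective (rm_jm G m)

theorem jm_mono (G : Type) [Group G] {m m' : ℕ} (h : m ≤ m') : (jm G m).range ≤ (jm G m').range := by
  rintro _ ⟨x, rfl⟩
  induction x using Monoid.Coprod.induction_on with
  | inl g => exact ⟨Monoid.Coprod.inl g, by simp [jm]⟩
  | inr w =>
    induction w using FreeGroup.induction_on with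
    | C1 => rw [map_one, map_one]; exact Subgroup.one_mem _
    | of i => exact ⟨Monoid.Coprod.inr (FreeGroup.of (Fin.castLE h i)), by simp [jm]⟩
    | inv_of i ih => rw [map_inv, map_inv]; exact Subgroup.inv_mem _ ih
    | mul x y hx hy => rw [map_mul, map_mul]; exact Subgroup.mul_mem _ hx hy
  | mul x y hx hy => rw [map_mul]; exact Subgroup.mul_mem _ hx hy

theorem exists_jm (G : Type) [Group G] (x : Monoid.Coprod G (FreeGroup ℕ)) :
    ∃ m, x ∈ (jm G m).range := by
  induction x using Monoid.Coprod.induction_on with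
  | inl g => exact ⟨0, Monoid.Coprod.inl g, by simp [jm]⟩
  | inr w =>
    induction w using FreeGroup.induction_on with
    | C1 => exact ⟨0, by rw [map_one]; exact Subgroup.one_mem _⟩
    | of i => exact ⟨i + 1, Monoid.Coprod.inr (FreeGroup.of ⟨i, Nat.lt_succ_self i⟩), by simp [jm]⟩
    | inv_of i ih =>
      obtain ⟨m, hm⟩ := ih
      exact ⟨m, by rw [map_inv]; exact Subgroup.inv_mem _ hm⟩
    | mul x y hx hy =>
      obtain ⟨m, hm⟩ := hx
      obtain ⟨n, hn⟩ := hy
      refine ⟨max m n, ?_⟩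
      rw [map_mul]
      exact Subgroup.mul_mem _ (jm_mono G (le_max_left _ _) hm) (jm_mono G (le_max_right _ _) hn)
  | mul x y hx hy =>
    obtain ⟨m, hm⟩ := hx
    obtain ⟨n, hn⟩ := hy
    refine ⟨max m n, ?_⟩
    exact Subgroup.mul_mem _ (jm_mono G (le_max_left _ _) hm) (jm_mono G (le_max_right _ _) hn)

theorem exists_jm_finset (G : Type) [Group G] (S : Finset (Monoid.Coprod G (FreeGroup ℕ))) :
    ∃ m, ∀ x ∈ S, x ∈ (jm G m).range := by
  classical
  induction S using Finset.induction_on with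
  | empty => exact ⟨0, by simp⟩
  | insert a S _ ih =>
    obtain ⟨m, hm⟩ := ih
    obtain ⟨n, hn⟩ := exists_jm G a
    refine ⟨max m n, fun x hx => ?_⟩
    rw [Finset.mem_insert] at hx
    rcases hx with rfl | hx
    · exact jm_mono G (le_max_right _ _) hn
    · exact jm_mono G (le_max_left _ _) (hm x hx)

/-- matrices supported on a subgroup -/
theorem val_desc {G G' : Type} [Group G] [Group G'] (f : G →* G') (hf : Function.Injective f)
    {m n : ℕ} (A : GMat (Fin n) (Fin m) G') (hA : ∀ k i, ∀ x ∈ (A k i).support, x ∈ f.range) :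
    Val ⊤ G (vdim (kerA A)) := by
  set A' : GMat (Fin n) (Fin m) G := fun k i => (A k i).comapDomain f hf.injOn with hA'
  have h : A = BC.push f A' := by
    funext k i
    unfold BC.push
    rw [hA', Finsupp.mapDomain_comapDomain f hf]
    intro x hx
    exact hA k i x hx
  rw [h, vdim_push f hf]
  exact val_of _ fun _ _ _ => Subring.mem_top _

theorem val_coprod (G : Type) [Group G] (x : ℝ) :
    Val ⊤ (Monoid.Coprod G (FreeGroup ℕ)) x ↔
      ∃ (v : ℝ) (j : ℕ), Val ⊤ G v ∧ (j : ℝ) ≤ v ∧ x = v - j := by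
  classical
  constructor
  · intro hx
    have h0 := val_nonneg hx
    obtain ⟨m', n', A, -, rfl⟩ := hx
    obtain ⟨m, hm⟩ := exists_jm_finset G (Finset.univ.biUnion fun k : Fin n' =>
      Finset.univ.biUnion fun i : Fin m' => (A k i).support)
    have h1 := val_desc (jm G m) (jm_injective G m) A (fun k i x hx => hm x (by
      exact Finset.mem_biUnion.2 ⟨k, Finset.mem_univ _, Finset.mem_biUnion.2 ⟨i,
            Finset.mem_univ _, hx⟩⟩))
    obtain ⟨v, j, hv, hj⟩ := (cuts_coprod G m).val_le Monoid.Coprod.inl_injective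
      (gen_coprod G (Fin m)) _ h1
    refine ⟨v, j, hv, ?_, hj⟩
    linarith
  · rintro ⟨v, j, hv, hj, rfl⟩
    rcases hj.lt_or_eq with h | h
    · obtain ⟨m, hm⟩ := val_cut hv j h
      exact val_incl (jm G m) (jm_injective G m) hm
    · rw [h, sub_self]
      exact val_zero

/-! ### the dichotomy -/

theorem dichotomy (V : AddSubmonoid ℝ) (h1 : (1 : ℝ) ∈ V) (h0 : ∀ x ∈ V, 0 ≤ x)
    (hcut : ∀ x ∈ V, ∀ n : ℕ, (n : ℝ) ≤ x → x - n ∈ V) :
    (∃ N : ℕ, 0 < N ∧ ∀ x, x ∈ V ↔ ∃ n : ℕ, x = n / N) ∨
      ∀ a b : ℝ, 0 ≤ a → a < b → ∃ x ∈ V, a < x ∧ x < b := by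
  by_cases hA : ∀ ε : ℝ, 0 < ε → ∃ x ∈ V, 0 < x ∧ x < ε
  · right
    intro a b ha hab
    obtain ⟨x, hx, hx0, hx1⟩ := hA (b - a) (sub_pos.2 hab)
    refine ⟨(⌊a / x⌋₊ + 1) • x, V.nsmul_mem hx _, ?_, ?_⟩
    · have h2 := Nat.lt_floor_add_one (a / x)
      rw [div_lt_iff₀ hx0] at h2
      rw [nsmul_eq_mul]
      push_cast
      exact h2
    · have h2 := Nat.floor_le (div_nonneg ha hx0.le)
      rw [le_div_iff₀ hx0] at h2
      rw [nsmul_eq_mul]
      push_cast
      nlinarith
  · left
    push Not at hA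
    obtain ⟨ε, hε, hno⟩ := hA
    have hno' : ∀ x ∈ V, 0 < x → ε ≤ x := hno
    -- every element has an integral multiple
    have hint : ∀ x ∈ V, ∃ k n : ℕ, 0 < k ∧ (k : ℝ) * x = n := by
      intro x hx
      obtain ⟨M, hM⟩ := exists_nat_gt (1 / ε)
      have hM0 : (0 : ℝ) < M := lt_trans (by positivity) hM
      have hM1 : 0 < M := by exact_mod_cast hM0
      obtain ⟨j, k, hk0, -, hkj⟩ := Real.exists_int_int_abs_mul_sub_le x hM1
      obtain ⟨k, rfl⟩ := Int.eq_ofNat_of_zero_le hk0.le
      have hk : 0 < k := by exact_mod_cast hk0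
      have hlt : |(((k : ℤ) : ℝ)) * x - j| < ε := by
        refine lt_of_le_of_lt hkj ?_
        rw [div_lt_iff₀ (by positivity)]
        rw [div_lt_iff₀ hε] at hM
        nlinarith
      have hx0 := h0 x hx
      have hkx : 0 ≤ (k : ℝ) * x := by positivity
      have hε1 : ε ≤ 1 := hno' 1 h1 one_pos
      push_cast at hlt
      rw [abs_lt] at hlt
      have hj0 : 0 ≤ j := by
        by_contra hc
        push Not at hc
        have : (j : ℝ) ≤ -1 := by exact_mod_cast (by omega : j ≤ -1)
        linarith [hlt.2]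
      obtain ⟨j, rfl⟩ := Int.eq_ofNat_of_zero_le hj0
      push_cast at hlt
      have hkV : (k : ℝ) * x ∈ V := by
        rw [← nsmul_eq_mul]
        exact V.nsmul_mem hx k
      rcases lt_trichotomy ((k : ℝ) * x) j with hc | hc | hc
      · exfalso
        set δ : ℝ := j - k * x with hδ
        have hδ0 : 0 < δ := sub_pos.2 hc
        have hδ1 : δ < ε := by rw [hδ]; linarith [hlt.1]
        have hj1 : 1 ≤ j := by
          rcases Nat.eq_zero_or_pos j with rfl | h
          · simp at hc
            linarith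
          · exact h
        obtain ⟨j', rfl⟩ : ∃ j', j = j' + 1 := ⟨j - 1, by omega⟩
        have hy : 1 - δ ∈ V := by
          have h2 := hcut _ hkV j' (by
            push_cast at hδ
            linarith)
          have e : 1 - δ = (k : ℝ) * x - j' := by
            rw [hδ]
            push_cast
            ring
          rw [e]
          exact h2
        -- `m < 1/δ ≤ m + 1`
        obtain ⟨m, hm1, hm2⟩ : ∃ m : ℕ, (m : ℝ) * δ < 1 ∧ 1 ≤ ((m : ℝ) + 1) * δ := by
          refine ⟨⌈1 / δ⌉₊ - 1, ?_, ?_⟩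
          · have h3 : 0 < ⌈1 / δ⌉₊ := Nat.ceil_pos.2 (by positivity)
            have h4 := Nat.ceil_lt_add_one (show 0 ≤ 1 / δ by positivity)
            have h5 : ((⌈1 / δ⌉₊ - 1 : ℕ) : ℝ) = (⌈1 / δ⌉₊ : ℝ) - 1 := by
              rw [Nat.cast_sub h3]
              simp
            rw [h5]
            have h6 : (⌈1 / δ⌉₊ : ℝ) - 1 < 1 / δ := by linarith
            rwa [lt_div_iff₀ hδ0] at h6
          · have h3 : 0 < ⌈1 / δ⌉₊ := Nat.ceil_pos.2 (by positivity)
            have h4 := Nat.le_ceil (1 / δ)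
            have h5 : ((⌈1 / δ⌉₊ - 1 : ℕ) : ℝ) = (⌈1 / δ⌉₊ : ℝ) - 1 := by
              rw [Nat.cast_sub h3]
              simp
            rw [h5]
            rw [div_le_iff₀ hδ0] at h4
            linarith
        have hm0 : 1 ≤ m := by
          rcases Nat.eq_zero_or_pos m with rfl | h
          · simp at hm2
            linarith
          · exact h
        obtain ⟨m', rfl⟩ : ∃ m', m = m' + 1 := ⟨m - 1, by omega⟩
        have h3 : (m' + 1) • (1 - δ) ∈ V := V.nsmul_mem hy _
        rw [nsmul_eq_mul] at h3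
        push_cast at h3 hm1 hm2
        have h4 := hcut _ h3 m' (by nlinarith)
        have h5 := hno' _ h4 (by nlinarith)
        nlinarith
      · exact ⟨k, j, hk, hc⟩
      · exfalso
        have h2 := hcut _ hkV j hc.le
        have h3 := hno' _ h2 (sub_pos.2 hc)
        linarith [hlt.2]
    -- closed under differences
    have hdiff : ∀ x ∈ V, ∀ y ∈ V, x ≤ y → y - x ∈ V := by
      intro x hx y hy hxy
      obtain ⟨k, n, hk, hkn⟩ := hint x hx
      obtain ⟨k', rfl⟩ : ∃ k', k = k' + 1 := ⟨k - 1, by omega⟩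
      have h2 : y + k' • x ∈ V := V.add_mem hy (V.nsmul_mem hx _)
      rw [nsmul_eq_mul] at h2
      push_cast at hkn
      have h3 := hcut _ h2 n (by nlinarith)
      have e : y - x = y + k' * x - n := by
        rw [← hkn]
        ring
      rw [e]
      exact h3
    -- the group
    let S : AddSubgroup ℝ :=
      { carrier := {x | ∃ a ∈ V, ∃ b ∈ V, x = a - b}
        zero_mem' := ⟨0, V.zero_mem, 0, V.zero_mem, by simp⟩
        add_mem' := by
          rintro _ _ ⟨a, ha, b, hb, rfl⟩ ⟨c, hc, d, hd, rfl⟩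
          exact ⟨a + c, V.add_mem ha hc, b + d, V.add_mem hb hd, by ring⟩
        neg_mem' := by
          rintro _ ⟨a, ha, b, hb, rfl⟩
          exact ⟨b, hb, a, ha, by ring⟩ }
    have hS : ∀ x ∈ S, 0 ≤ x → x ∈ V := by
      rintro _ ⟨a, ha, b, hb, rfl⟩ h
      exact hdiff b hb a ha (by linarith)
    have hVS : ∀ x ∈ V, x ∈ S := fun x hx => ⟨x, hx, 0, V.zero_mem, by simp⟩
    rcases AddSubgroup.dense_or_cyclic S with hd | ⟨c, hc⟩
    · exfalso
      obtain ⟨x, hxS, hx⟩ := hd.exists_mem_open (isOpen_Ioo (a := 0) (b := ε)) ⟨ε / 2, by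
        constructor <;> linarith⟩
      have := hno' x (hS x hxS hx.1.le) hx.1
      linarith [hx.2]
    · have hcS : c ∈ S := by
        rw [hc]
        exact AddSubgroup.mem_closure_singleton_self c
      have h1S : (1 : ℝ) ∈ S := hVS 1 h1
      have h1c := h1S
      rw [hc, AddSubgroup.mem_closure_singleton] at h1c
      obtain ⟨n, hn⟩ := h1c
      -- positive generator
      have hc' : |c| ∈ S := by
        rcases abs_choice c with h | h
        · rw [h]; exact hcS
        · rw [h]; exact S.neg_mem hcS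
      have hcV : |c| ∈ V := hS _ hc' (abs_nonneg c)
      have hnc : (n.natAbs : ℝ) * |c| = 1 := by
        rw [zsmul_eq_mul] at hn
        have h2 := congrArg abs hn
        rw [abs_mul, abs_one] at h2
        rw [← h2]
        congr 1
        rw [Nat.cast_natAbs]
        push_cast
        rfl
      have hN : 0 < n.natAbs := by
        rcases Nat.eq_zero_or_pos n.natAbs with h | h
        · rw [h] at hnc
          simp at hnc
        · exact h
      have hN' : (0 : ℝ) < n.natAbs := by exact_mod_cast hN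
      have hcN : |c| = 1 / (n.natAbs : ℝ) := by
        rw [eq_div_iff hN'.ne']
        linarith
      refine ⟨n.natAbs, hN, fun x => ⟨fun hx => ?_, ?_⟩⟩
      · have h2 := hVS x hx
        rw [hc, AddSubgroup.mem_closure_singleton] at h2
        obtain ⟨k, rfl⟩ := h2
        have h3 := h0 _ hx
        refine ⟨k.natAbs, ?_⟩
        rw [zsmul_eq_mul] at h3 ⊢
        have h4 : ((k.natAbs : ℕ) : ℝ) = |(k : ℝ)| := by
          rw [Nat.cast_natAbs]
          push_cast
          rfl
        rw [← abs_of_nonneg h3, abs_mul, hcN, h4]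
        ring
      · rintro ⟨k, rfl⟩
        have h2 := V.nsmul_mem hcV k
        rw [nsmul_eq_mul, hcN] at h2
        rw [div_eq_mul_one_div]
        exact h2

theorem dichotomy_coprod (G : Type) [Group G] :
    (∃ N : ℕ, 0 < N ∧ ∀ x, Val ⊤ (Monoid.Coprod G (FreeGroup ℕ)) x ↔ ∃ n : ℕ, x = n / N) ∨
      ∀ a b : ℝ, 0 ≤ a → a < b →
        ∃ x, Val ⊤ (Monoid.Coprod G (FreeGroup ℕ)) x ∧ a < x ∧ x < b := by
  have h := dichotomy (valM (Monoid.Coprod G (FreeGroup ℕ))) (val_one _)
    (fun x hx => val_nonneg hx) (by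
      intro x hx n hn
      obtain ⟨v, j, hv, hj, rfl⟩ := (val_coprod G x).1 hx
      refine (val_coprod G _).2 ⟨v, j + n, hv, ?_, ?_⟩
      · push_cast
        linarith
      · push_cast
        ring)
  exact h

end Pool.Agent.Zk53.AT
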