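import Pool.Agent.Zk53.AT8

/-!
The space of `ℓ²`-gradients of a finitely generated group; induction of subspaces.
-/

set_option autoImplicit false
set_option linter.unusedSectionVars false

open scoped InnerProductSpace ENNReal
open Filter Topology

namespace Pool.Agent.Zk53.AT

open Pool.Agent.H80R2
open Pool.Agent.H80R2.BC (L2 GMat vdim IsTr LInv Equi act kerA dk pt vals TorDiv Coef AtR)
open Pool.Agent.H812R3
open Pool.Agent.W656.VA

section Z
variable {ι κ G : Type} [Group G] [Fintype ι] [Fintype κ]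

/-- `ξ` is the gradient of `f` with respect to the elements `s i`. -/
def IsGrad (s : ι → G) (f : G → ℂ) (ξ : L2 (ι × G)) : Prop :=
  ∀ i g, ξ (i, g) = f (g * s i) - f g

/-- the space of the `ℓ²`-gradients -/
def Zs (s : ι → G) : Submodule ℂ (L2 (ι × G)) where
  carrier := {ξ | ∃ f : G → ℂ, IsGrad s f ξ}
  zero_mem' := ⟨0, fun i g => by simp⟩
  add_mem' := by
    rintro ξ η ⟨f, hf⟩ ⟨f', hf'⟩
    refine ⟨f + f', fun i g => ?_⟩
    rw [lp.coeFn_add, Pi.add_apply, hf, hf', Pi.add_apply, Pi.add_apply]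
    ring
  smul_mem' := by
    rintro c ξ ⟨f, hf⟩
    refine ⟨c • f, fun i g => ?_⟩
    rw [lp.coeFn_smul, Pi.smul_apply, hf, Pi.smul_apply, Pi.smul_apply]
    simp only [smul_eq_mul]
    ring

theorem mem_Zs (s : ι → G) (ξ : L2 (ι × G)) : ξ ∈ Zs s ↔ ∃ f : G → ℂ, IsGrad s f ξ := Iff.rfl

theorem IsGrad.lt {s : ι → G} {f : G → ℂ} {ξ : L2 (ι × G)} (h : IsGrad s f ξ) (a : G) :
    IsGrad s (fun g => f (a * g)) (lt ι a ξ) := by
  intro i g
  rw [lt_apply, h, mul_assoc]

theorem linv_Zs (s : ι → G) : LInv (Zs s) := by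
  apply linv_of
  rintro g ξ ⟨f, hf⟩
  exact ⟨_, hf.lt g⟩

theorem continuous_eval {X : Type} (x : X) : Continuous fun ξ : L2 X => ξ x := by
  have : (fun ξ : L2 X => ξ x) = fun ξ : L2 X => ⟪(de x : L2 X), ξ⟫_ℂ := by
    funext ξ
    rw [inner_de]
  rw [this]
  exact continuous_const.inner continuous_id

theorem isClosed_Zs (s : ι → G) (hs : Subgroup.closure (Set.range s) = ⊤) :
    IsClosed (Zs s : Set (L2 (ι × G))) := by
  apply IsSeqClosed.isClosed
  intro ξ ξ' hξ hlim
  choose f hf using hξ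
  have key : ∀ a : G, ∀ h : G, ∃ l, Tendsto (fun k => f k (h * a) - f k h) atTop (𝓝 l) := by
    intro a
    have ha : a ∈ Subgroup.closure (Set.range s) := by
      rw [hs]
      trivial
    induction ha using Subgroup.closure_induction with
    | mem x hx =>
      obtain ⟨i, rfl⟩ := hx
      intro h
      refine ⟨ξ' (i, h), ?_⟩
      have h1 := ((continuous_eval (i, h)).tendsto ξ').comp hlim
      refine h1.congr fun k => ?_
      exact hf k i h
    | one => intro h; exact ⟨0, by simp⟩
    | mul x y _ _ hx hy =>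
      intro h
      obtain ⟨l1, h1⟩ := hx h
      obtain ⟨l2, h2⟩ := hy (h * x)
      refine ⟨l2 + l1, (h2.add h1).congr fun k => ?_⟩
      rw [mul_assoc]
      ring
    | inv x _ hx =>
      intro h
      obtain ⟨l, h1⟩ := hx (h * x⁻¹)
      refine ⟨-l, h1.neg.congr fun k => ?_⟩
      rw [inv_mul_cancel_right]
      ring
  have key1 := fun a => key a 1
  choose F hF using key1
  refine ⟨F, fun i g => ?_⟩
  have h1 : Tendsto (fun k => f k (g * s i) - f k g) atTop (𝓝 (F (g * s i) - F g)) := by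
    refine ((hF (g * s i)).sub (hF g)).congr fun k => ?_
    rw [one_mul, one_mul]
    ring
  have h2 : Tendsto (fun k => f k (g * s i) - f k g) atTop (𝓝 (ξ' (i, g))) := by
    have h1 := ((continuous_eval (i, g)).tendsto ξ').comp hlim
    refine h1.congr fun k => ?_
    exact hf k i g
  exact tendsto_nhds_unique h2 h1

theorem equi_add {S T : L2 (ι × G) →L[ℂ] L2 (κ × G)} (hS : Equi S) (hT : Equi T) :
    Equi (S + T) := by
  apply equi_of
  intro g x
  rw [add_apply, add_apply, equi_lt hS, equi_lt hT,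
    map_add]

theorem equi_zero : Equi (0 : L2 (ι × G) →L[ℂ] L2 (κ × G)) := by
  apply equi_of
  intro g x
  simp

theorem equi_neg {S : L2 (ι × G) →L[ℂ] L2 (κ × G)} (hS : Equi S) : Equi (-S) := by
  apply equi_of
  intro g x
  rw [neg_apply, neg_apply, equi_lt hS, map_neg]

theorem equi_sum {J : Type} (t : Finset J) (S : J → L2 (ι × G) →L[ℂ] L2 (κ × G))
    (hS : ∀ j ∈ t, Equi (S j)) : Equi (∑ j ∈ t, S j) := by
  classical
  induction t using Finset.induction_on with
  | empty => simpa using equi_zero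
  | insert a t ha ih =>
    rw [Finset.sum_insert ha]
    exact equi_add (hS a (Finset.mem_insert_self _ _))
      (ih fun j hj => hS j (Finset.mem_insert_of_mem hj))

theorem equi_el (k : κ) (i : ι) (h : G) : Equi (el k i h) := by
  classical
  apply equi_of
  intro g x
  ext ⟨k', a⟩
  rw [lt_apply]
  by_cases hk : k' = k
  · subst hk
    rw [el_self, el_self, lt_apply, mul_assoc]
  · rw [el_ne k k' hk, el_ne k k' hk]

/-- the operator computing differences along `a` -/
theorem exists_W (s : ι → G) (hs : Subgroup.closure (Set.range s) = ⊤) (a : G) :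
    ∃ W : L2 (ι × G) →L[ℂ] L2 (Unit × G), Equi W ∧
      ∀ (f : G → ℂ) (ξ : L2 (ι × G)), IsGrad s f ξ → ∀ g, W ξ ((), g) = f (g * a) - f g := by
  have ha : a ∈ Subgroup.closure (Set.range s) := by
    rw [hs]
    trivial
  induction ha using Subgroup.closure_induction with
  | mem x hx =>
    obtain ⟨i, rfl⟩ := hx
    refine ⟨el () i 1, equi_el _ _ _, fun f ξ h g => ?_⟩
    rw [el_self, mul_one]
    exact h i g
  | one => exact ⟨0, equi_zero, fun f ξ h g => by simp⟩
  | mul x y _ _ hx hy =>
    obtain ⟨W1, e1, h1⟩ := hx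
    obtain ⟨W2, e2, h2⟩ := hy
    refine ⟨W1 + (rt fun _ => x).comp W2, equi_add e1 (equi_comp (equi_rt _) e2),
      fun f ξ h g => ?_⟩
    rw [add_apply, lp.coeFn_add, Pi.add_apply, h1 f ξ h g,
      ContinuousLinearMap.comp_apply, rt_apply, h2 f ξ h, mul_assoc]
    ring
  | inv x _ hx =>
    obtain ⟨W1, e1, h1⟩ := hx
    refine ⟨-((rt fun _ => x⁻¹).comp W1), equi_neg (equi_comp (equi_rt _) e1),
      fun f ξ h g => ?_⟩
    rw [neg_apply, lp.coeFn_neg, Pi.neg_apply,
      ContinuousLinearMap.comp_apply, rt_apply, h1 f ξ h, inv_mul_cancel_right]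
    ring

/-- the operator computing gradients with respect to another family -/
theorem exists_R (s : ι → G) (hs : Subgroup.closure (Set.range s) = ⊤) (t : κ → G) :
    ∃ R : L2 (ι × G) →L[ℂ] L2 (κ × G), Equi R ∧
      ∀ (f : G → ℂ) (ξ : L2 (ι × G)), IsGrad s f ξ → IsGrad t f (R ξ) := by
  classical
  choose W e h using fun j : κ => exists_W s hs (t j)
  refine ⟨∑ j, (el j () 1).comp (W j), equi_sum _ _ fun j _ => equi_comp (equi_el _ _ _) (e j),
    fun f ξ hf j g => ?_⟩
  rw [sum_apply, lp.coeFn_sum, Finset.sum_apply, Finset.sum_eq_single j]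
  · rw [ContinuousLinearMap.comp_apply, el_self, mul_one]
    exact h j f ξ hf g
  · intro j' _ hj
    rw [ContinuousLinearMap.comp_apply, el_ne _ _ (Ne.symm hj)]
  · intro h
    exact absurd (Finset.mem_univ _) h

end Z

section ind
variable {ι H G : Type} [Group G] [Group H] [Fintype ι]

/-- the induced subspace -/
def Ind (f : H →* G) (hf : Function.Injective f) (K : Submodule ℂ (L2 (ι × H))) :
    Submodule ℂ (L2 (ι × G)) where
  carrier := {x | ∀ g, slice ι f hf g x ∈ K}
  zero_mem' := fun g => by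
    rw [map_zero]
    exact K.zero_mem
  add_mem' := fun ha hb g => by
    rw [map_add]
    exact K.add_mem (ha g) (hb g)
  smul_mem' := fun c x hx g => by
    rw [map_smul]
    exact K.smul_mem c (hx g)

theorem mem_Ind (f : H →* G) (hf : Function.Injective f) (K : Submodule ℂ (L2 (ι × H)))
    (x : L2 (ι × G)) : x ∈ Ind f hf K ↔ ∀ g, slice ι f hf g x ∈ K := Iff.rfl

theorem isClosed_Ind (f : H →* G) (hf : Function.Injective f) {K : Submodule ℂ (L2 (ι × H))}
    (hK : IsClosed (K : Set (L2 (ι × H)))) : IsClosed (Ind f hf K : Set (L2 (ι × G))) := by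
  have : (Ind f hf K : Set (L2 (ι × G))) = ⋂ g, slice ι f hf g ⁻¹' (K : Set (L2 (ι × H))) := by
    ext x
    simp only [Set.mem_iInter, Set.mem_preimage, SetLike.mem_coe]
    exact Iff.rfl
  rw [this]
  exact isClosed_iInter fun g => hK.preimage (slice ι f hf g).continuous

theorem slice_lt (f : H →* G) (hf : Function.Injective f) (g a : G) (x : L2 (ι × G)) :
    slice ι f hf g (lt ι a x) = slice ι f hf (a * g) x := by
  ext ⟨i, h⟩
  rw [slice_apply, lt_apply, slice_apply, mul_assoc]

theorem linv_Ind (f : H →* G) (hf : Function.Injective f) (K : Submodule ℂ (L2 (ι × H))) :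
    LInv (Ind f hf K) := by
  apply linv_of
  intro a x hx g
  rw [slice_lt]
  exact hx _

/-- extension by zero -/
noncomputable def ext0 (f : H →* G) (hf : Function.Injective f) :
    L2 (ι × H) →L[ℂ] L2 (ι × G) :=
  KP.push (fun p : ι × H => (p.1, f p.2)) (by
    rintro ⟨a, b⟩ ⟨c, d⟩ h
    simp only [Prod.mk.injEq] at h
    exact Prod.ext h.1 (hf h.2))

theorem ext0_apply (f : H →* G) (hf : Function.Injective f) (x : L2 (ι × H)) (i : ι) (h : H) :
    ext0 f hf x (i, f h) = x (i, h) :=
  pushL_apply (fun p : ι × H => (p.1, f p.2)) _ x (i, h)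

theorem ext0_apply_ne (f : H →* G) (hf : Function.Injective f) (x : L2 (ι × H)) (i : ι) (g : G)
    (hg : g ∉ f.range) : ext0 f hf x (i, g) = 0 := by
  apply pushL_apply_ne
  rintro ⟨a, b⟩ h
  simp only [Prod.mk.injEq] at h
  exact hg ⟨b, h.2⟩

theorem vdim_Ind (f : H →* G) (hf : Function.Injective f) {K : Submodule ℂ (L2 (ι × H))}
    (hK : IsClosed (K : Set (L2 (ι × H)))) (hKi : LInv K) :
    vdim (Ind f hf K) = vdim K := by
  obtain ⟨u, hu, hu2, hu3⟩ := exists_vec hK
  rw [vdim_of_vec (isClosed_Ind f hf hK) (fun i => ext0 f hf (u i)), hu3]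
  · refine Finset.sum_congr rfl fun i _ => ?_
    rw [← map_one f, ext0_apply]
  · intro i g
    by_cases hg : g ∈ f.range
    · obtain ⟨a, rfl⟩ := hg
      have : slice ι f hf (f a) (ext0 f hf (u i)) = lt ι a (u i) := by
        ext ⟨j, h⟩
        rw [slice_apply, ← map_mul, ext0_apply, lt_apply]
      rw [this]
      exact linv_lt hKi _ (hu i)
    · have : slice ι f hf g (ext0 f hf (u i)) = 0 := by
        ext ⟨j, h⟩
        rw [slice_apply, ext0_apply_ne]
        · rfl
        · rintro ⟨b, hb⟩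
          apply hg
          refine ⟨b * h⁻¹, ?_⟩
          rw [map_mul, hb, map_inv]
          group
      rw [this]
      exact Submodule.zero_mem _
  · intro i x hx
    have h1 : ⟪ext0 f hf (u i), x⟫_ℂ = ⟪u i, slice ι f hf 1 x⟫_ℂ := by
      have e : ext0 f hf (u i) = ContinuousLinearMap.adjoint (KP.pull _ (by
        rintro ⟨a, b⟩ ⟨c, d⟩ h
        simp only [Prod.mk.injEq] at h
        exact Prod.ext h.1 (hf h.2) :
          Function.Injective (fun p : ι × H => (p.1, f p.2)))) (u i) := rfl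
      rw [e, ContinuousLinearMap.adjoint_inner_left]
      congr 1
      ext ⟨j, h⟩
      rw [slice_apply, one_mul]
      rfl
    rw [h1, hu2 i _ (hx 1), slice_apply, one_mul, map_one]

end ind

/-- a lower bound for the dimension -/
theorem vdim_lower {G : Type} [Group G] {K : Submodule ℂ (L2 (Unit × G))}
    (hK : IsClosed (K : Set (L2 (Unit × G)))) (η : L2 (Unit × G)) (hη : η ∈ K) :
    ‖η ((), 1)‖ ^ 2 ≤ vdim K * ‖η‖ ^ 2 := by
  have iK := hasProj hK
  rw [vdim_eq, Fintype.sum_unique]
  have h1 : η ((), 1) = ⟪K.starProjection (de ((default : Unit), (1 : G))), η⟫_ℂ := by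
    rw [Submodule.inner_starProjection_left_eq_right, Submodule.starProjection_eq_self_iff.2 hη,
      inner_de]
  rw [h1, ← mul_pow]
  exact pow_le_pow_left₀ (norm_nonneg _) (norm_inner_le_norm _ _) 2

end Pool.Agent.Zk53.AT
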