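import Pool.Agent.W879.GW.Lin

/-!
# A linear algebra constraint system with local but no global solutions: the symmetric case
-/

set_option autoImplicit false
set_option linter.unusedSectionVars false

namespace Pool.Agent.Zk53.RW

open Module
open Pool.Agent.W879.GW (tot tot_apply tot_single evB evB_apply Expands finrank_map_ge
  exists_li_lift solve XX)

variable {F A : Type} [Field F] [AddCommGroup A] [Module F A] {g : ℕ}

/-- The symmetrization of the bilinear map given by `M`. -/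
def TS : (A →ₗ[F] (Fin g → Dual F A)) →ₗ[F] A →ₗ[F] A →ₗ[F] (Fin g → F) where
  toFun M := evB ∘ₗ M + (evB ∘ₗ M).flip
  map_add' M M' := by
    ext x y i
    simp
    ring
  map_smul' a M := by
    ext x y i
    simp

@[simp] theorem TS_apply (M : A →ₗ[F] (Fin g → Dual F A)) (x y : A) (i : Fin g) :
    TS M x y i = M x i y + M y i x := rfl

/-- A functional on bilinear maps as a bilinear form. -/
def sharp (ξ : Dual F (A →ₗ[F] A →ₗ[F] (Fin g → F))) :
    Dual F A →ₗ[F] (Fin g → Dual F A) →ₗ[F] F :=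
  LinearMap.mk₂ F (fun φ c => ξ (TS (φ.smulRight c)))
    (fun φ ψ c => by
      rw [← map_add, ← map_add]
      congr 2
      ext x i
      simp [add_smul])
    (fun a φ c => by
      rw [← map_smul, ← map_smul]
      congr 2
      ext x i
      simp [mul_smul])
    (fun φ c d => by
      rw [← map_add, ← map_add]
      congr 2
      ext x i
      simp [smul_add])
    (fun a φ c => by
      rw [← map_smul, ← map_smul]
      congr 2
      ext x i
      simp [mul_left_comm])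

theorem sharp_apply (ξ : Dual F (A →ₗ[F] A →ₗ[F] (Fin g → F))) (φ : Dual F A)
    (c : Fin g → Dual F A) : sharp ξ φ c = ξ (TS (φ.smulRight c)) := rfl

theorem sharp_sym (ξ : Dual F (A →ₗ[F] A →ₗ[F] (Fin g → F))) (φ ψ : Dual F A) (i : Fin g) :
    sharp ξ φ (Pi.single i ψ) = sharp ξ ψ (Pi.single i φ) := by
  rw [sharp_apply, sharp_apply]
  have h : TS (φ.smulRight (Pi.single i ψ)) = TS (ψ.smulRight (Pi.single i φ)) := by
    ext x y j
    simp only [TS_apply, LinearMap.smulRight_apply,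
      Pi.smul_apply, LinearMap.smul_apply, smul_eq_mul]
    by_cases hj : j = i
    · subst hj
      simp only [Pi.single_eq_same]
      ring
    · simp [Pi.single_eq_of_ne hj]
  rw [h]

theorem sharp_add (ξ η : Dual F (A →ₗ[F] A →ₗ[F] (Fin g → F))) (φ : Dual F A)
    (c : Fin g → Dual F A) : sharp (ξ + η) φ c = sharp ξ φ c + sharp η φ c := rfl

theorem sharp_smul (a : F) (ξ : Dual F (A →ₗ[F] A →ₗ[F] (Fin g → F))) (φ : Dual F A)
    (c : Fin g → Dual F A) : sharp (a • ξ) φ c = a * sharp ξ φ c := rfl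

section

variable [FiniteDimensional F A] {q : Fin g → (Dual F A →ₗ[F] A)}

theorem rank_core (hsym : ∀ (i : Fin g) (φ ψ : Dual F A), φ (q i ψ) = ψ (q i φ)) {m : ℕ} (hE : Expands q m)
    (ξ : Dual F (A →ₗ[F] A →ₗ[F] (Fin g → F))) (W : Submodule F A)
    (h3 : ∀ (φ : Dual F A) (c : Fin g → Dual F A), (∀ x ∈ W, φ x = 0) → tot q c = 0 →
      sharp ξ φ c = 0)
    (hd : finrank F A ≤ finrank F (LinearMap.ker (sharp ξ)) + finrank F W + m) :
    finrank F A ≤ finrank F (LinearMap.ker (sharp ξ)) + 2 * finrank F W := by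
  classical
  by_contra hcon
  have hW := Subspace.finrank_add_finrank_dualAnnihilator_eq (K := F) W
  have hmap := finrank_map_ge (sharp ξ) W.dualAnnihilator
  obtain ⟨φ, hφ, hφLI⟩ := exists_li_lift (sharp ξ) W.dualAnnihilator
    (u := finrank F A - finrank F (LinearMap.ker (sharp ξ)) - finrank F W) (by omega)
  have hex2 : ∀ j, ∃ ψ : Dual F A, ψ ∘ₗ tot q = sharp ξ (φ j) := by
    intro j
    have h1 : sharp ξ (φ j) ∈ (LinearMap.ker (tot q)).dualAnnihilator := by
      rw [Submodule.mem_dualAnnihilator]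
      intro c hc
      exact h3 _ c ((Submodule.mem_dualAnnihilator _).1 (hφ j)) (LinearMap.mem_ker.1 hc)
    rw [← LinearMap.range_dualMap_eq_dualAnnihilator_ker] at h1
    obtain ⟨ψ, hψ⟩ := h1
    exact ⟨ψ, hψ⟩
  choose ψ hψ using hex2
  have hLI : LinearIndependent F ψ := by
    refine LinearIndependent.of_comp (tot q).dualMap ?_
    have h1 : (tot q).dualMap ∘ ψ = fun j => sharp ξ (φ j) := by
      funext j
      exact hψ j
    rw [h1]
    exact hφLI
  have hco := Subspace.finrank_add_finrank_dualCoannihilator_eq (K := F) (V := A)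
    (LinearMap.ker (sharp ξ))
  have h5 := hE _ (by omega) ψ hLI (LinearMap.ker (sharp ξ)).dualCoannihilator (by
    intro i j
    rw [Submodule.mem_dualCoannihilator]
    intro φ' hφ'
    have h6 : ψ j (tot q (Pi.single i φ')) = sharp ξ (φ j) (Pi.single i φ') :=
      LinearMap.congr_fun (hψ j) (Pi.single i φ')
    rw [tot_single, sharp_sym] at h6
    have h7 : sharp ξ φ' = 0 := LinearMap.mem_ker.1 hφ'
    rw [h7, LinearMap.zero_apply] at h6
    rw [hsym i φ' (ψ j), h6])
  omega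

/-- The constraints that live on `W`. -/
def InD (q : Fin g → (Dual F A →ₗ[F] A)) (K : ℕ)
    (ξ : Dual F (A →ₗ[F] A →ₗ[F] (Fin g → F))) (W : Submodule F A) : Prop :=
  finrank F A ≤ finrank F (LinearMap.ker (sharp ξ)) + 2 * K ∧
  ∀ (φ : Dual F A) (c : Fin g → Dual F A), (∀ x ∈ W, φ x = 0) → tot q c = 0 → sharp ξ φ c = 0

theorem InD.mono {K : ℕ} {ξ : Dual F (A →ₗ[F] A →ₗ[F] (Fin g → F))} {W W' : Submodule F A}
    (h : InD q K ξ W) (hW : W ≤ W') : InD q K ξ W' :=
  ⟨h.1, fun φ c hφ hc => h.2 φ c (fun x hx => hφ x (hW hx)) hc⟩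

theorem InD.add (hsym : ∀ (i : Fin g) (φ ψ : Dual F A), φ (q i ψ) = ψ (q i φ)) {K : ℕ} (hE : Expands q (4 * K))
    {ξ η : Dual F (A →ₗ[F] A →ₗ[F] (Fin g → F))} {W : Submodule F A} (hW : finrank F W ≤ K)
    (h1 : InD q K ξ W) (h2 : InD q K η W) : InD q K (ξ + η) W := by
  have h3 : ∀ (φ : Dual F A) (c : Fin g → Dual F A), (∀ x ∈ W, φ x = 0) → tot q c = 0 →
      sharp (ξ + η) φ c = 0 := by
    intro φ c hφ hc
    rw [sharp_add, h1.2 φ c hφ hc, h2.2 φ c hφ hc, add_zero]
  refine ⟨?_, h3⟩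
  have h4 : LinearMap.ker (sharp ξ) ⊓ LinearMap.ker (sharp η) ≤ LinearMap.ker (sharp (ξ + η)) := by
    intro φ hφ
    have e1 : sharp ξ φ = 0 := LinearMap.mem_ker.1 hφ.1
    have e2 : sharp η φ = 0 := LinearMap.mem_ker.1 hφ.2
    rw [LinearMap.mem_ker]
    refine LinearMap.ext fun c => ?_
    rw [sharp_add, e1, e2]
    simp
  have h5 := Submodule.finrank_mono h4
  have h6 := Submodule.finrank_sup_add_finrank_inf_eq (LinearMap.ker (sharp ξ))
    (LinearMap.ker (sharp η))
  have h7 := Submodule.finrank_le (LinearMap.ker (sharp ξ) ⊔ LinearMap.ker (sharp η))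
  rw [Subspace.dual_finrank_eq] at h7
  have h8 := h1.1
  have h9 := h2.1
  have h10 : finrank F A ≤ finrank F (LinearMap.ker (sharp (ξ + η))) + 4 * K := by omega
  have h11 : finrank F A ≤ finrank F (LinearMap.ker (sharp (ξ + η))) + finrank F W + 4 * K := by
    omega
  have h12 := rank_core hsym hE (ξ + η) W h3 h11
  omega

theorem InD.zero {K : ℕ} {W : Submodule F A} : InD q K 0 W := by
  refine ⟨?_, fun φ c _ _ => rfl⟩
  have h : LinearMap.ker (sharp (0 : Dual F (A →ₗ[F] A →ₗ[F] (Fin g → F)))) = ⊤ := by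
    rw [LinearMap.ker_eq_top]
    rfl
  rw [h, finrank_top, Subspace.dual_finrank_eq]
  omega

theorem InD.smul {K : ℕ} {ξ : Dual F (A →ₗ[F] A →ₗ[F] (Fin g → F))} {W : Submodule F A} (a : F)
    (h1 : InD q K ξ W) : InD q K (a • ξ) W := by
  refine ⟨?_, ?_⟩
  · have h4 : LinearMap.ker (sharp ξ) ≤ LinearMap.ker (sharp (a • ξ)) := by
      intro φ hφ
      have e1 : sharp ξ φ = 0 := LinearMap.mem_ker.1 hφ
      rw [LinearMap.mem_ker]
      refine LinearMap.ext fun c => ?_
      rw [sharp_smul, e1]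
      simp
    have h5 := Submodule.finrank_mono h4
    have h6 := h1.1
    omega
  · intro φ c hφ hc
    rw [sharp_smul, h1.2 φ c hφ hc, mul_zero]

/-- The space of the constraints that live on `W`. -/
def DD (hsym : ∀ (i : Fin g) (φ ψ : Dual F A), φ (q i ψ) = ψ (q i φ)) {K : ℕ} (hE : Expands q (4 * K))
    (W : Submodule F A) (hW : finrank F W ≤ K) :
    Submodule F (Dual F (A →ₗ[F] A →ₗ[F] (Fin g → F))) where
  carrier := {ξ | InD q K ξ W}
  add_mem' h1 h2 := InD.add hsym hE hW h1 h2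
  zero_mem' := InD.zero
  smul_mem' a _ h := InD.smul a h

theorem extend (hsym : ∀ (i : Fin g) (φ ψ : Dual F A), φ (q i ψ) = ψ (q i φ)) {K : ℕ}
    (hE : Expands q (4 * K)) (f : A →ₗ[F] A →ₗ[F] (Fin g → F)) (W W' : Submodule F A)
    (hW' : finrank F W' ≤ K) (M : A →ₗ[F] (Fin g → Dual F A))
    (hM : ∀ x, tot q (M x) = 0) (hMW : ∀ ξ, InD q K ξ W → ξ (TS M) = ξ f) :
    ∃ M' : A →ₗ[F] (Fin g → Dual F A), (∀ x, tot q (M' x) = 0) ∧ (∀ x ∈ W, M' x = M x) ∧
      ∀ ξ, InD q K ξ W' → ξ (TS M') = ξ f := by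
  let S := DD hsym hE W' hW'
  let ev : (A →ₗ[F] A →ₗ[F] (Fin g → F)) →ₗ[F] Dual F S :=
    S.subtype.dualMap ∘ₗ Dual.eval F (A →ₗ[F] A →ₗ[F] (Fin g → F))
  have hev : ∀ (β : A →ₗ[F] A →ₗ[F] (Fin g → F)) (ξ : S), ev β ξ = (ξ : Dual F _) β :=
    fun β ξ => rfl
  have hsol : ∃ Z ∈ XX q W, (ev ∘ₗ TS) Z = ev (f - TS M) := by
    refine solve S (ev ∘ₗ TS) (XX q W) (ev (f - TS M)) ?_
    intro ξ hξ
    rw [hev, LinearMap.map_sub (ξ : Dual F _) f (TS M), sub_eq_zero]
    refine (hMW ξ ⟨ξ.2.1, ?_⟩).symm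
    intro φ c hφ hc
    have h1 := hξ (φ.smulRight c) ⟨fun x => by
      rw [LinearMap.smulRight_apply, map_smul, hc, smul_zero], fun x hx => by
      rw [LinearMap.smulRight_apply, hφ x hx, zero_smul]⟩
    exact h1
  obtain ⟨Z, hZ, hZ2⟩ := hsol
  refine ⟨M + Z, fun x => ?_, fun x hx => ?_, fun ξ hξ => ?_⟩
  · rw [LinearMap.add_apply, map_add, hM, hZ.1, add_zero]
  · rw [LinearMap.add_apply, hZ.2 x hx, add_zero]
  · have h2 : ξ (TS Z) = ξ (f - TS M) := LinearMap.congr_fun hZ2 (⟨ξ, hξ⟩ : S)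
    rw [map_add, map_add, h2, LinearMap.map_sub ξ f (TS M)]
    ring

/-- The constraints of `W` give the equation on `W`. -/
theorem eq_on {K : ℕ} (hK : 1 ≤ K) (f : A →ₗ[F] A →ₗ[F] (Fin g → F)) (W : Submodule F A)
    (M : A →ₗ[F] (Fin g → Dual F A)) (hMW : ∀ ξ, InD q K ξ W → ξ (TS M) = ξ f) {x y : A}
    (hx : x ∈ W) (hy : y ∈ W) : TS M x y = f x y := by
  funext i
  let ξ : Dual F (A →ₗ[F] A →ₗ[F] (Fin g → F)) :=
    LinearMap.proj i ∘ₗ LinearMap.applyₗ y ∘ₗ LinearMap.applyₗ x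
  have hξ : ∀ β, ξ β = β x y i := fun β => rfl
  rw [← hξ, ← hξ]
  apply hMW
  have h1 : ∀ φ c, sharp ξ φ c = φ x * c i y + φ y * c i x := by
    intro φ c
    rw [sharp_apply, hξ, TS_apply]
    simp
  refine ⟨?_, ?_⟩
  · let P : Submodule F A := Submodule.span F {x, y}
    have h2 : P.dualAnnihilator ≤ LinearMap.ker (sharp ξ) := by
      intro φ hφ
      rw [Submodule.mem_dualAnnihilator] at hφ
      rw [LinearMap.mem_ker]
      refine LinearMap.ext fun c => ?_
      rw [h1, hφ x (Submodule.subset_span (by simp)), hφ y (Submodule.subset_span (by simp))]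
      simp
    have h3 := Submodule.finrank_mono h2
    have h4 := Subspace.finrank_add_finrank_dualAnnihilator_eq (K := F) P
    have h5 : finrank F P ≤ 2 := by
      classical
      have h6 := finrank_span_finset_le_card (R := F) ({x, y} : Finset A)
      have h7 : (({x, y} : Finset A) : Set A) = {x, y} := by simp
      unfold Set.finrank at h6
      rw [h7] at h6
      exact h6.trans Finset.card_le_two
    omega
  · intro φ c hφ _
    rw [h1, hφ x hx, hφ y hy]
    ring

/-- The empty constraint space at the start. -/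
theorem start (hsym : ∀ (i : Fin g) (φ ψ : Dual F A), φ (q i ψ) = ψ (q i φ)) {K : ℕ}
    (hE : Expands q (4 * K)) (φ₀ : Dual F A) (c₀ : Fin g → Dual F A)
    (ξ : Dual F (A →ₗ[F] A →ₗ[F] (Fin g → F))) (hξ : InD q K ξ ⊥) :
    ξ (TS 0) = ξ (TS (φ₀.smulRight c₀)) := by
  have h1 := rank_core (m := 4 * K) hsym hE ξ ⊥ hξ.2 (by
    have := hξ.1
    omega)
  rw [finrank_bot, mul_zero, add_zero] at h1
  have h2 : LinearMap.ker (sharp ξ) = ⊤ := by
    apply Submodule.eq_top_of_finrank_eq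
    have h3 := Submodule.finrank_le (LinearMap.ker (sharp ξ))
    rw [Subspace.dual_finrank_eq] at h3 ⊢
    omega
  have h4 : sharp ξ = 0 := LinearMap.ker_eq_top.1 h2
  rw [map_zero, map_zero, ← sharp_apply, h4]
  simp

end

end Pool.Agent.Zk53.RW
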