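import Pool.Agent.W879.GW.Exist
import Pool.Agent.Zk53.RW1

/-!
# Existence of symmetric expanding families
-/

set_option autoImplicit false
set_option linter.unusedSectionVars false

namespace Pool.Agent.Zk53.RW

open Module Matrix
open Pool.Agent.W879.GW (Expands exists_dual_family orth finrank_orth exists_Y exists_family Ry)

section

variable {F : Type} [Field F] {a : ℕ}

/-- The symmetric map of a matrix. -/
def sm (R : Matrix (Fin a) (Fin a) F) : (Fin a → F) →ₗ[F] (Fin a → F) := (R + Rᵀ).mulVecLin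

theorem sm_apply (R : Matrix (Fin a) (Fin a) F) (x : Fin a → F) :
    sm R x = R *ᵥ x + Rᵀ *ᵥ x := by
  rw [sm, Matrix.mulVecLin_apply, Matrix.add_mulVec]

theorem sm_add (R R' : Matrix (Fin a) (Fin a) F) (x : Fin a → F) :
    sm (R + R') x = sm R x + sm R' x := by
  rw [sm_apply, sm_apply, sm_apply, Matrix.transpose_add, Matrix.add_mulVec, Matrix.add_mulVec]
  abel

theorem sm_sym (R : Matrix (Fin a) (Fin a) F) (x y : Fin a → F) :
    x ⬝ᵥ sm R y = y ⬝ᵥ sm R x := by
  rw [sm_apply, sm_apply, dotProduct_add, dotProduct_add, Matrix.dotProduct_mulVec x Rᵀ y,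
    Matrix.vecMul_transpose, Matrix.dotProduct_mulVec y Rᵀ x, Matrix.vecMul_transpose,
    dotProduct_comm (R *ᵥ x) y, dotProduct_comm (R *ᵥ y) x, add_comm]

theorem sm_zero (x : Fin a → F) : sm (0 : Matrix (Fin a) (Fin a) F) x = 0 := by
  rw [sm_apply]
  simp

theorem sm_sum {ι : Type} (s : Finset ι) (M : ι → Matrix (Fin a) (Fin a) F) (x : Fin a → F) :
    sm (∑ j ∈ s, M j) x = ∑ j ∈ s, sm (M j) x := by
  classical
  induction s using Finset.induction_on with
  | empty => simp [sm_zero]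
  | insert j s hj ih => rw [Finset.sum_insert hj, sm_add, ih, Finset.sum_insert hj]

theorem sm_vecMulVec (y d x : Fin a → F) :
    sm (vecMulVec y d) x = (d ⬝ᵥ x) • y + (y ⬝ᵥ x) • d := by
  rw [sm_apply, Matrix.transpose_vecMulVec, Matrix.vecMulVec_mulVec, Matrix.vecMulVec_mulVec,
    op_smul_eq_smul, op_smul_eq_smul]

theorem sm_Ry {u : ℕ} (v d y : Fin u → (Fin a → F))
    (hd : ∀ i j, d i ⬝ᵥ v j = if i = j then 1 else 0) (hy : ∀ i j, y i ⬝ᵥ v j = 0)
    (i : Fin u) : sm (Ry d y) (v i) = y i := by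
  rw [Ry, sm_sum, Finset.sum_eq_single i]
  · rw [sm_vecMulVec, hd, if_pos rfl, hy, zero_smul, one_smul, add_zero]
  · intro j _ hj
    rw [sm_vecMulVec, hd, if_neg hj, hy, zero_smul, zero_smul, add_zero]
  · intro h
    exact absurd (Finset.mem_univ i) h

/-- The matrices whose symmetric map sends the family into `W`. -/
def bad1 {u : ℕ} (v : Fin u → (Fin a → F)) (W : Submodule F (Fin a → F)) :
    Set (Matrix (Fin a) (Fin a) F) := {R | ∀ j, sm R (v j) ∈ W}

theorem card_bad1 [Finite F] {u : ℕ} (v : Fin u → (Fin a → F)) (hv : LinearIndependent F v)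
    (W : Submodule F (Fin a → F)) {r : ℕ} (hr : r + u + finrank F W ≤ a) :
    Nat.card (bad1 v W) * Nat.card F ^ (r * u) ≤ Nat.card (Matrix (Fin a) (Fin a) F) := by
  obtain ⟨d, hd⟩ := exists_dual_family v hv
  obtain ⟨Y, hY1, hY2, hY3⟩ := exists_Y v W
  have hYc : Nat.card F ^ (r * u) ≤ Nat.card (Fin u → Y) := by
    rw [Nat.card_pi, Finset.prod_const, Finset.card_univ, Fintype.card_fin,
      Module.natCard_eq_pow_finrank (K := F) (V := Y), ← pow_mul]
    apply Nat.pow_le_pow_right (Nat.card_pos)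
    exact Nat.mul_le_mul_right _ (by omega)
  refine (Nat.mul_le_mul_left _ hYc).trans ?_
  rw [← Nat.card_prod]
  let Ψ : bad1 v W × (Fin u → Y) → Matrix (Fin a) (Fin a) F :=
    fun x => x.1.1 + Ry d (fun j => ((x.2 j : Y) : Fin a → F))
  apply Nat.card_le_card_of_injective Ψ
  rintro ⟨R, y⟩ ⟨R', y'⟩ h
  have h1 : R.1 + Ry d (fun j => ((y j : Y) : Fin a → F)) =
      R'.1 + Ry d (fun j => ((y' j : Y) : Fin a → F)) := h
  have h2 : ∀ i, ((y i : Y) : Fin a → F) = y' i := by
    intro i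
    have h3 := congrArg (fun M => sm M (v i)) h1
    simp only [sm_add] at h3
    rw [sm_Ry v d _ hd (fun i j => hY1 (y i).2 j), sm_Ry v d _ hd (fun i j => hY1 (y' i).2 j)] at h3
    have h4 : ((y i : Y) : Fin a → F) - y' i = sm R'.1 (v i) - sm R.1 (v i) := by
      rw [sub_eq_sub_iff_add_eq_add, add_comm, h3, add_comm]
    have h5 : ((y i : Y) : Fin a → F) - y' i ∈ W := by
      rw [h4]
      exact W.sub_mem (R'.2 i) (R.2 i)
    have h6 : ((y i : Y) : Fin a → F) - y' i ∈ Y := Y.sub_mem (y i).2 (y' i).2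
    exact sub_eq_zero.1 ((Submodule.disjoint_def.1 hY2) _ h6 h5)
  have h7 : y = y' := funext fun i => Subtype.ext (h2 i)
  subst h7
  have h8 : R.1 = R'.1 := add_right_cancel h1
  exact Prod.ext (Subtype.ext h8) rfl

/-- The tuples of matrices that violate the expansion at a given family. -/
def Bad {u n : ℕ} (v : Fin u → (Fin a → F)) (w : Fin n → (Fin a → F)) :
    Set (Fin 6 → Matrix (Fin a) (Fin a) F) :=
  {R | LinearIndependent F v ∧ ∀ i, R i ∈ bad1 v (Submodule.span F (Set.range w))}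

theorem card_Bad [Finite F] {u n r : ℕ} (v : Fin u → (Fin a → F)) (w : Fin n → (Fin a → F))
    (hr : r + u + n ≤ a) :
    Nat.card (Bad v w) * Nat.card F ^ (r * u * 6) ≤
      Nat.card (Fin 6 → Matrix (Fin a) (Fin a) F) := by
  by_cases hv : LinearIndependent F v
  · have h1 : finrank F (Submodule.span F (Set.range w)) ≤ n := by
      have := finrank_range_le_card (R := F) w
      rwa [Fintype.card_fin] at this
    have h2 := card_bad1 v hv (Submodule.span F (Set.range w)) (r := r) (by omega)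
    have h3 : Nat.card (Bad v w) ≤ Nat.card (bad1 v (Submodule.span F (Set.range w))) ^ 6 := by
      have h4 : Nat.card (Fin 6 → bad1 v (Submodule.span F (Set.range w))) =
          Nat.card (bad1 v (Submodule.span F (Set.range w))) ^ 6 := by
        rw [Nat.card_pi, Finset.prod_const, Finset.card_univ, Fintype.card_fin]
      rw [← h4]
      refine Nat.card_le_card_of_injective (fun R i => ⟨R.1 i, R.2.2 i⟩) ?_
      intro R R' h
      refine Subtype.ext (funext fun i => ?_)
      exact congrArg Subtype.val (congrFun h i)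
    calc Nat.card (Bad v w) * Nat.card F ^ (r * u * 6) ≤
        Nat.card (bad1 v (Submodule.span F (Set.range w))) ^ 6 * Nat.card F ^ (r * u * 6) :=
          Nat.mul_le_mul_right _ h3
      _ = (Nat.card (bad1 v (Submodule.span F (Set.range w))) * Nat.card F ^ (r * u)) ^ 6 := by
          rw [mul_pow, ← pow_mul]
      _ ≤ Nat.card (Matrix (Fin a) (Fin a) F) ^ 6 := Nat.pow_le_pow_left h2 6
      _ = _ := by
          rw [Nat.card_pi, Finset.prod_const, Finset.card_univ, Fintype.card_fin]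
  · have h1 : IsEmpty (Bad v w) := ⟨fun R => hv R.2.1⟩
    rw [Nat.card_of_isEmpty, zero_mul]
    exact Nat.zero_le _

theorem exists_good [Finite F] (m : ℕ) (ha : a = 6 * m) :
    ∃ R : Fin 6 → Matrix (Fin a) (Fin a) F, ∀ u : ℕ, u ≤ m → ∀ v : Fin u → (Fin a → F),
      LinearIndependent F v → ∀ W : Submodule F (Fin a → F),
      (∀ i j, sm (R i) (v j) ∈ W) → 2 * u ≤ finrank F W := by
  classical
  by_contra hcon
  push Not at hcon
  have : Fintype F := Fintype.ofFinite F
  let I : Type := Σ u : Fin m, (Fin (u.1 + 1) → (Fin a → F)) × (Fin (2 * u.1 + 1) → (Fin a → F))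
  have hex : ∀ R : Fin 6 → Matrix (Fin a) (Fin a) F, ∃ t : I, R ∈ Bad t.2.1 t.2.2 := by
    intro R
    obtain ⟨u, hu, v, hv, W, hW, hlt⟩ := hcon R
    obtain ⟨u', rfl⟩ : ∃ u', u = u' + 1 := ⟨u - 1, by omega⟩
    obtain ⟨w, hw⟩ := exists_family W (n := 2 * u' + 1) (by omega)
    exact ⟨⟨⟨u', by omega⟩, v, w⟩, hv, fun i j => by
      rw [hw]
      exact hW i j⟩
  choose t ht using hex
  have h1 : Nat.card (Fin 6 → Matrix (Fin a) (Fin a) F) ≤
      Nat.card (Σ t : I, Bad t.2.1 t.2.2) := by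
    refine Nat.card_le_card_of_injective (fun R => ⟨t R, R, ht R⟩) ?_
    intro R R' h
    exact congrArg (fun z : (Σ t : I, Bad t.2.1 t.2.2) => z.2.1) h
  rw [Nat.card_sigma, Fintype.sum_sigma] at h1
  set X := Nat.card (Fin 6 → Matrix (Fin a) (Fin a) F) with hX
  set P := Nat.card F with hP
  have hP1 : 1 < P := Finite.one_lt_card
  have hX0 : 0 < X := Nat.card_pos
  have hsum : ∀ u : Fin m, (∑ y : (Fin (u.1 + 1) → (Fin a → F)) ×
      (Fin (2 * u.1 + 1) → (Fin a → F)), Nat.card (Bad y.1 y.2)) * P ^ a ≤ X := by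
    intro u
    have hu := u.2
    have e1 : ∀ y : (Fin (u.1 + 1) → (Fin a → F)) × (Fin (2 * u.1 + 1) → (Fin a → F)),
        Nat.card (Bad y.1 y.2) * P ^ (a * (3 * u.1 + 3)) ≤ X := by
      intro y
      refine le_trans (Nat.mul_le_mul_left _ (Nat.pow_le_pow_right (by omega) ?_))
        (card_Bad y.1 y.2 (r := a - (3 * u.1 + 2)) (by omega))
      have e2 : a ≤ 2 * (a - (3 * u.1 + 2)) := by omega
      calc a * (3 * u.1 + 3) ≤ 2 * (a - (3 * u.1 + 2)) * (3 * u.1 + 3) :=
            Nat.mul_le_mul_right _ e2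
        _ = (a - (3 * u.1 + 2)) * (u.1 + 1) * 6 := by ring
    have e3 : (∑ y : (Fin (u.1 + 1) → (Fin a → F)) × (Fin (2 * u.1 + 1) → (Fin a → F)),
        Nat.card (Bad y.1 y.2)) * P ^ (a * (3 * u.1 + 3)) ≤ P ^ (a * (3 * u.1 + 2)) * X := by
      rw [Finset.sum_mul]
      refine (Finset.sum_le_sum fun y _ => e1 y).trans ?_
      rw [Finset.sum_const, smul_eq_mul]
      refine Nat.mul_le_mul_right _ (le_of_eq ?_)
      rw [Finset.card_univ, Fintype.card_prod]
      simp only [Fintype.card_fun, Fintype.card_fin]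
      rw [hP, Nat.card_eq_fintype_card, ← pow_mul, ← pow_mul, ← pow_add]
      congr 1
      ring
    have e4 : a * (3 * u.1 + 3) = a + a * (3 * u.1 + 2) := by ring
    rw [e4, pow_add, ← mul_assoc, mul_comm (P ^ (a * (3 * u.1 + 2))) X] at e3
    exact Nat.le_of_mul_le_mul_right e3 (pow_pos (by omega) _)
  have h2 : X * P ^ a ≤ m * X := by
    refine (Nat.mul_le_mul_right _ h1).trans ?_
    rw [Finset.sum_mul]
    refine (Finset.sum_le_sum fun u _ => hsum u).trans ?_
    rw [Finset.sum_const, smul_eq_mul, Finset.card_univ, Fintype.card_fin]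
  have h3 : m < P ^ a := by
    calc m < 2 ^ m := Nat.lt_two_pow_self
      _ ≤ P ^ m := Nat.pow_le_pow_left hP1 m
      _ ≤ P ^ a := Nat.pow_le_pow_right (by omega) (by omega)
  have h4 : m * X < X * P ^ a := by
    rw [mul_comm m X]
    exact Nat.mul_lt_mul_of_pos_left h3 hX0
  omega

/-- The symmetric maps on the dual. -/
noncomputable def qs (R : Fin 6 → Matrix (Fin a) (Fin a) F) (i : Fin 6) :
    Dual F (Fin a → F) →ₗ[F] (Fin a → F) :=
  sm (R i) ∘ₗ ((dotProductEquiv F (Fin a)).symm : Dual F (Fin a → F) →ₗ[F] (Fin a → F))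

theorem qs_sym (R : Fin 6 → Matrix (Fin a) (Fin a) F) (i : Fin 6) (φ ψ : Dual F (Fin a → F)) :
    φ (qs R i ψ) = ψ (qs R i φ) := by
  obtain ⟨x, rfl⟩ := (dotProductEquiv F (Fin a)).surjective φ
  obtain ⟨y, rfl⟩ := (dotProductEquiv F (Fin a)).surjective ψ
  show (dotProductEquiv F (Fin a)) x (sm (R i) ((dotProductEquiv F (Fin a)).symm
    ((dotProductEquiv F (Fin a)) y))) = (dotProductEquiv F (Fin a)) y (sm (R i)
    ((dotProductEquiv F (Fin a)).symm ((dotProductEquiv F (Fin a)) x)))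
  rw [LinearEquiv.symm_apply_apply, LinearEquiv.symm_apply_apply]
  exact sm_sym (R i) x y

theorem exists_expander [Finite F] (m : ℕ) :
    ∃ q : Fin 6 → (Dual F (Fin (6 * m) → F) →ₗ[F] (Fin (6 * m) → F)),
      (∀ (i : Fin 6) (φ ψ : Dual F (Fin (6 * m) → F)), φ (q i ψ) = ψ (q i φ)) ∧
      Expands q m := by
  obtain ⟨R, hR⟩ := exists_good (F := F) m rfl
  refine ⟨qs R, qs_sym R, ?_⟩
  intro u hu v hv W hW
  refine hR u hu (fun j => (dotProductEquiv F (Fin (6 * m))).symm (v j)) ?_ W hW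
  exact hv.map' ((dotProductEquiv F (Fin (6 * m))).symm :
    Dual F (Fin (6 * m) → F) →ₗ[F] (Fin (6 * m) → F)) (LinearEquiv.ker _)

end

end Pool.Agent.Zk53.RW
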