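import Pool.Agent.W879.GW.Dim
import Pool.Agent.Zk53.RW1

/-!
# Dimension counts and the trace obstruction: the symmetric case
-/

set_option autoImplicit false
set_option linter.unusedSectionVars false

namespace Pool.Agent.Zk53.RW

open Module
open Pool.Agent.W879.GW (tot tot_apply tot_single evB evB_apply Expands finrank_map_ge
  exists_li_lift finrank_inf_ker exists_li_ann CW resW resW_surj mem_ker_resW)

section

variable {F A : Type} [Field F] [AddCommGroup A] [Module F A] {g : ℕ}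
  [FiniteDimensional F A] {q : Fin g → (Dual F A →ₗ[F] A)}

theorem trace_sym_alt (hsym : ∀ (i : Fin g) (φ ψ : Dual F A), φ (q i ψ) = ψ (q i φ))
    (h2 : (2 : F) ≠ 0) (i : Fin g) (N : A →ₗ[F] Dual F A) (hN : ∀ x y, N x y = - N y x) :
    LinearMap.trace F A (q i ∘ₗ N) = 0 := by
  have h1 : (q i ∘ₗ N).dualMap + (N ∘ₗ q i) = 0 := by
    ext φ x
    show φ (q i (N x)) + (N (q i φ)) x = 0
    rw [hsym i φ (N x), hN]
    ring
  have h3 : LinearMap.trace F (Dual F A) (q i ∘ₗ N).dualMap = LinearMap.trace F A (q i ∘ₗ N) :=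
    LinearMap.trace_transpose' (q i ∘ₗ N)
  have h4 : LinearMap.trace F (Dual F A) (N ∘ₗ q i) = LinearMap.trace F A (q i ∘ₗ N) :=
    LinearMap.trace_comp_comm' (q i) N
  have h6 := congrArg (LinearMap.trace F (Dual F A)) h1
  rw [map_add, map_zero, h3, h4] at h6
  have h5 : 2 * LinearMap.trace F A (q i ∘ₗ N) = 0 := by linear_combination h6
  rcases mul_eq_zero.1 h5 with h | h
  · exact absurd h h2
  · exact h

/-- The trace obstruction. -/
theorem obstruction (hsym : ∀ (i : Fin g) (φ ψ : Dual F A), φ (q i ψ) = ψ (q i φ))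
    (h2 : (2 : F) ≠ 0)
    (M : A →ₗ[F] (Fin g → Dual F A)) (hM : ∀ x, tot q (M x) = 0) (φ₀ : Dual F A)
    (c₀ : Fin g → Dual F A) (h0 : φ₀ (tot q c₀) ≠ 0) : TS M ≠ TS (φ₀.smulRight c₀) := by
  intro hT
  let N : A →ₗ[F] (Fin g → Dual F A) := φ₀.smulRight c₀ - M
  have hs : ∀ i x y, N x i y = - N y i x := by
    intro i x y
    have h1 : TS M x y i = TS (φ₀.smulRight c₀) x y i := by rw [hT]
    rw [TS_apply, TS_apply] at h1
    show (φ₀.smulRight c₀ x) i y - M x i y = -((φ₀.smulRight c₀ y) i x - M y i x)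
    linear_combination -h1
  have h3 : tot q ∘ₗ N = φ₀.smulRight (tot q c₀) := by
    ext x
    show tot q (φ₀ x • c₀ - M x) = φ₀ x • tot q c₀
    rw [LinearMap.map_sub (tot q) (φ₀ x • c₀) (M x), hM, sub_zero, map_smul]
  have h4 : tot q ∘ₗ N = ∑ i, q i ∘ₗ (LinearMap.proj i ∘ₗ N) := by
    ext x
    simp [tot_apply]
  have h5 : LinearMap.trace F A (tot q ∘ₗ N) = 0 := by
    rw [h4, map_sum]
    refine Finset.sum_eq_zero fun i _ => ?_
    exact trace_sym_alt hsym h2 i (LinearMap.proj i ∘ₗ N) (fun x y => hs i x y)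
  rw [h3, LinearMap.trace_smulRight] at h5
  exact h0 h5

theorem dim_ineq (hsym : ∀ (i : Fin g) (φ ψ : Dual F A), φ (q i ψ) = ψ (q i φ)) {m : ℕ}
    (hE : Expands q m) (hg : 2 ≤ g) (ha : finrank F A < (g - 1) * (2 * m))
    (W : Submodule F A) (hW : W ≠ ⊥) :
    finrank F W + finrank F (LinearMap.ker (tot q) ⊓ CW W : Submodule F (Fin g → Dual F A)) <
      finrank F (LinearMap.ker (tot q)) := by
  by_contra hcon
  have hw : 0 < finrank F W := by
    rw [Nat.pos_iff_ne_zero]
    intro h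
    exact hW (Submodule.finrank_eq_zero.1 h)
  have e1 := finrank_inf_ker (resW (g := g) W) (LinearMap.ker (tot q))
  have e2 : LinearMap.ker (resW (g := g) W) = CW W := Submodule.ext (mem_ker_resW W)
  rw [e2] at e1
  have e3 : finrank F (Fin g → Dual F W) = g * finrank F W := by
    rw [Module.finrank_pi_fintype]
    simp [Subspace.dual_finrank_eq]
  have e4 : g * finrank F W = (g - 1) * finrank F W + finrank F W := by
    obtain ⟨g', rfl⟩ : ∃ g', g = g' + 1 := ⟨g - 1, by omega⟩
    rw [Nat.add_sub_cancel]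
    ring
  have key : ∀ u : ℕ, u ≤ (g - 1) * finrank F W → ∃ ψ : Fin u → Dual F A,
      LinearIndependent F ψ ∧ ∀ i j, q i (ψ j) ∈ W := by
    intro u hu
    obtain ⟨ψ, hψ, hψ2⟩ := exists_li_ann (resW (g := g) W) (resW_surj W) (tot q) (u := u)
      (by omega)
    refine ⟨ψ, hψ, fun i j => ?_⟩
    have h1 : W = W.dualAnnihilator.dualCoannihilator :=
      (Subspace.dualAnnihilator_dualCoannihilator_eq).symm
    rw [h1, Submodule.mem_dualCoannihilator]
    intro φ hφ
    rw [hsym i φ (ψ j)]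
    have h2 := hψ2 j (Pi.single i φ) (by
      rw [mem_ker_resW]
      intro l x hx
      by_cases hl : l = i
      · subst hl
        rw [Pi.single_eq_same]
        exact (Submodule.mem_dualAnnihilator _).1 hφ x hx
      · rw [Pi.single_eq_of_ne hl]
        rfl)
    rw [tot_single] at h2
    exact h2
  by_cases hm : (g - 1) * finrank F W ≤ m
  · obtain ⟨ψ, hψ, hψ2⟩ := key _ le_rfl
    have h1 := hE _ hm ψ hψ W hψ2
    have h2 : 1 * finrank F W ≤ (g - 1) * finrank F W := Nat.mul_le_mul_right _ (by omega)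
    omega
  · obtain ⟨ψ, hψ, hψ2⟩ := key m (by omega)
    have h1 := hE _ le_rfl ψ hψ W hψ2
    obtain ⟨ψ', hψ', -⟩ := key _ le_rfl
    have h2 := hψ'.fintype_card_le_finrank
    rw [Fintype.card_fin, Subspace.dual_finrank_eq] at h2
    have h3 : (g - 1) * (2 * m) ≤ (g - 1) * finrank F W := Nat.mul_le_mul_left _ h1
    omega

end

end Pool.Agent.Zk53.RW
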