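import Mathlib

/-!
# The local ring of a symmetric bilinear map
-/

set_option autoImplicit false
set_option linter.unusedSectionVars false

namespace Pool.Agent.Zk53.RW

/-- A symmetric bilinear map. -/
structure SBil (F V Γ : Type) [Field F] [AddCommGroup V] [Module F V] [AddCommGroup Γ]
    [Module F Γ] where
  /-- the function -/
  fn : V →ₗ[F] V →ₗ[F] Γ
  symm : ∀ u v, fn u v = fn v u

/-- The underlying set of the ring of the symmetric bilinear map `β`. -/
def RB {F V Γ : Type} [Field F] [AddCommGroup V] [Module F V] [AddCommGroup Γ]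
    [Module F Γ] (_ : SBil F V Γ) : Type := F × V × Γ

section

variable {F V Γ : Type} [Field F] [AddCommGroup V] [Module F V] [AddCommGroup Γ]
    [Module F Γ] {β : SBil F V Γ}

instance instACG : AddCommGroup (RB β) := inferInstanceAs (AddCommGroup (F × V × Γ))

/-- The element with the given components. -/
def mk (β : SBil F V Γ) (r : F) (v : V) (z : Γ) : RB β := (r, v, z)

/-- The scalar component. -/
def rc (a : RB β) : F := a.1

/-- The component in `V`. -/
def vc (a : RB β) : V := a.2.1

/-- The component in `Γ`. -/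
def zc (a : RB β) : Γ := a.2.2

@[simp] theorem rc_mk (r : F) (v : V) (z : Γ) : rc (mk β r v z) = r := rfl
@[simp] theorem vc_mk (r : F) (v : V) (z : Γ) : vc (mk β r v z) = v := rfl
@[simp] theorem zc_mk (r : F) (v : V) (z : Γ) : zc (mk β r v z) = z := rfl
@[simp] theorem rc_add (a b : RB β) : rc (a + b) = rc a + rc b := rfl
@[simp] theorem vc_add (a b : RB β) : vc (a + b) = vc a + vc b := rfl
@[simp] theorem zc_add (a b : RB β) : zc (a + b) = zc a + zc b := rfl
@[simp] theorem rc_zero : rc (0 : RB β) = 0 := rfl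
@[simp] theorem vc_zero : vc (0 : RB β) = 0 := rfl
@[simp] theorem zc_zero : zc (0 : RB β) = 0 := rfl

theorem RB_ext {a b : RB β} (h0 : rc a = rc b) (h1 : vc a = vc b) (h2 : zc a = zc b) : a = b :=
  Prod.ext h0 (Prod.ext h1 h2)

instance instMul : Mul (RB β) where
  mul a b := mk β (rc a * rc b) (rc a • vc b + rc b • vc a)
    (rc a • zc b + rc b • zc a + β.fn (vc a) (vc b))

instance instOne : One (RB β) where
  one := mk β 1 0 0

@[simp] theorem rc_mul (a b : RB β) : rc (a * b) = rc a * rc b := rfl
@[simp] theorem vc_mul (a b : RB β) : vc (a * b) = rc a • vc b + rc b • vc a := rfl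
@[simp] theorem zc_mul (a b : RB β) :
    zc (a * b) = rc a • zc b + rc b • zc a + β.fn (vc a) (vc b) := rfl
@[simp] theorem rc_one : rc (1 : RB β) = 1 := rfl
@[simp] theorem vc_one : vc (1 : RB β) = 0 := rfl
@[simp] theorem zc_one : zc (1 : RB β) = 0 := rfl

instance instCR : CommRing (RB β) :=
  { instACG, instMul, instOne with
    mul_assoc := by
      intro a b c
      refine RB_ext ?_ ?_ ?_
      · simp [mul_assoc]
      · simp only [vc_mul, rc_mul, smul_add, smul_smul]
        rw [mul_comm (rc c) (rc a), mul_comm (rc c) (rc b)]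
        abel
      · simp only [zc_mul, vc_mul, rc_mul, smul_add, smul_smul, map_add, map_smul,
          LinearMap.add_apply, LinearMap.smul_apply]
        rw [mul_comm (rc c) (rc a), mul_comm (rc c) (rc b)]
        abel
    one_mul := by
      intro a
      refine RB_ext ?_ ?_ ?_ <;> simp
    mul_one := by
      intro a
      refine RB_ext ?_ ?_ ?_ <;> simp
    left_distrib := by
      intro a b c
      refine RB_ext ?_ ?_ ?_
      · simp [mul_add]
      · simp only [vc_mul, vc_add, rc_add, smul_add, add_smul]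
        abel
      · simp only [zc_mul, vc_add, rc_add, zc_add, smul_add, add_smul, map_add]
        abel
    right_distrib := by
      intro a b c
      refine RB_ext ?_ ?_ ?_
      · simp [add_mul]
      · simp only [vc_mul, vc_add, rc_add, smul_add, add_smul]
        abel
      · simp only [zc_mul, vc_add, rc_add, zc_add, smul_add, add_smul, map_add,
          LinearMap.add_apply]
        abel
    zero_mul := by
      intro a
      refine RB_ext ?_ ?_ ?_ <;> simp
    mul_zero := by
      intro a
      refine RB_ext ?_ ?_ ?_ <;> simp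
    mul_comm := by
      intro a b
      refine RB_ext ?_ ?_ ?_
      · simp [mul_comm]
      · simp only [vc_mul]
        abel
      · simp only [zc_mul]
        rw [β.symm (vc a) (vc b)]
        abel }

@[simp] theorem rc_sub (a b : RB β) : rc (a - b) = rc a - rc b := rfl
@[simp] theorem vc_sub (a b : RB β) : vc (a - b) = vc a - vc b := rfl
@[simp] theorem zc_sub (a b : RB β) : zc (a - b) = zc a - zc b := rfl
@[simp] theorem rc_neg (a : RB β) : rc (-a) = - rc a := rfl
@[simp] theorem vc_neg (a : RB β) : vc (-a) = - vc a := rfl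
@[simp] theorem zc_neg (a : RB β) : zc (-a) = - zc a := rfl

instance instNT : Nontrivial (RB β) :=
  ⟨⟨0, 1, fun h => zero_ne_one (congrArg rc h : (0 : F) = 1)⟩⟩

/-- The ring homomorphism to the residue field. -/
def rcHom (β : SBil F V Γ) : RB β →+* F where
  toFun := rc
  map_one' := rfl
  map_mul' _ _ := rfl
  map_zero' := rfl
  map_add' _ _ := rfl

theorem isUnit_iff (a : RB β) : IsUnit a ↔ rc a ≠ 0 := by
  constructor
  · intro h
    exact (h.map (rcHom β)).ne_zero
  · intro h
    let w : V := -((rc a)⁻¹ * (rc a)⁻¹) • vc a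
    refine IsUnit.of_mul_eq_one (mk β (rc a)⁻¹ w
      (-(rc a)⁻¹ • ((rc a)⁻¹ • zc a + β.fn (vc a) w))) ?_
    refine RB_ext ?_ ?_ ?_
    · simp [h]
    · show rc a • w + (rc a)⁻¹ • vc a = 0
      show rc a • (-((rc a)⁻¹ * (rc a)⁻¹) • vc a) + (rc a)⁻¹ • vc a = 0
      rw [smul_smul, ← add_smul]
      have : rc a * -((rc a)⁻¹ * (rc a)⁻¹) + (rc a)⁻¹ = 0 := by
        field_simp
        ring
      rw [this, zero_smul]
    · show rc a • (-(rc a)⁻¹ • ((rc a)⁻¹ • zc a + β.fn (vc a) w)) + (rc a)⁻¹ • zc a +
        β.fn (vc a) w = 0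
      rw [smul_smul, mul_neg, mul_inv_cancel₀ h, neg_smul, one_smul]
      abel

instance instLR : IsLocalRing (RB β) := by
  refine IsLocalRing.of_isUnit_or_isUnit_one_sub_self fun a => ?_
  by_cases h : rc a = 0
  · right
    rw [isUnit_iff]
    simp [h]
  · left
    rwa [isUnit_iff]

theorem mem_max (a : RB β) : a ∈ IsLocalRing.maximalIdeal (RB β) ↔ rc a = 0 := by
  rw [IsLocalRing.mem_maximalIdeal, mem_nonunits_iff, isUnit_iff, not_not]

theorem mul3 (a b c : RB β) (ha : rc a = 0) (hb : rc b = 0) (hc : rc c = 0) :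
    a * b * c = 0 := by
  refine RB_ext ?_ ?_ ?_ <;> simp [ha, hb, hc]

theorem max_pow : IsLocalRing.maximalIdeal (RB β) ^ 3 = ⊥ := by
  rw [eq_bot_iff, pow_succ, pow_two]
  refine Ideal.mul_le.2 fun r hr s hs => ?_
  rw [Ideal.mem_bot]
  rw [mem_max] at hs
  refine Submodule.mul_induction_on hr (fun a ha b hb => ?_) (fun a b ha hb => ?_)
  · rw [mem_max] at ha hb
    exact mul3 a b s ha hb hs
  · rw [add_mul, ha, hb, add_zero]

theorem rcHom_surj : Function.Surjective (rcHom β) := fun r => ⟨mk β r 0 0, rfl⟩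

theorem card_residue : Nat.card (IsLocalRing.ResidueField (RB β)) = Nat.card F := by
  have h : IsLocalRing.maximalIdeal (RB β) = RingHom.ker (rcHom β) := by
    ext a
    rw [mem_max, RingHom.mem_ker]
    rfl
  have e : (RB β ⧸ IsLocalRing.maximalIdeal (RB β)) ≃+* F :=
    (Ideal.quotEquivOfEq h).trans (RingHom.quotientKerEquivOfSurjective rcHom_surj)
  exact Nat.card_congr e.toEquiv

noncomputable instance instFT [Fintype F] [Fintype V] [Fintype Γ] : Fintype (RB β) :=
  inferInstanceAs (Fintype (F × V × Γ))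

theorem card_RB [Fintype F] [Fintype V] [Fintype Γ] :
    Fintype.card (RB β) = Fintype.card F * (Fintype.card V * Fintype.card Γ) :=
  (Fintype.card_prod F (V × Γ)).trans (by rw [Fintype.card_prod])

theorem natCast_rc (n : ℕ) : ((n : RB β) = mk β (n : F) 0 0) := by
  induction n with
  | zero =>
    rw [Nat.cast_zero, Nat.cast_zero]
    rfl
  | succ n ih =>
    rw [Nat.cast_succ, Nat.cast_succ, ih]
    refine RB_ext ?_ ?_ ?_ <;> simp

theorem charP_RB (p : ℕ) [hp : CharP F p] : CharP (RB β) p := by
  refine ⟨fun n => ?_⟩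
  rw [natCast_rc, ← CharP.cast_eq_zero_iff F p n]
  exact ⟨fun h => congrArg rc h, fun h => RB_ext h rfl rfl⟩

end

end Pool.Agent.Zk53.RW
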