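import Pool.Agent.W879.GW.NonIso
import Pool.Agent.Zk53.RW3
import Pool.Agent.Zk53.RW4

/-!
# The two rings are not isomorphic
-/

set_option autoImplicit false
set_option linter.unusedSectionVars false

namespace Pool.Agent.Zk53.RW

open Module
open Pool.Agent.W879.GW (tot tot_apply tot_single evB evB_apply Expands CW exists_range)

section

variable {F A : Type} [Field F] [AddCommGroup A] [Module F A] {g : ℕ}

/-- The symmetric bilinear map `(x, c), (y, d) ↦ f (x, y) + c (y) + d (x)`. -/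
def bet (B : Submodule F (Fin g → Dual F A)) (f : SBil F A (Fin g → F)) :
    SBil F (A × B) (Fin g → F) where
  fn := LinearMap.mk₂ F (fun u v => f.fn u.1 v.1 +
      (evB (u.2 : Fin g → Dual F A) v.1 + evB (v.2 : Fin g → Dual F A) u.1))
    (fun u u' v => by
      simp only [Prod.fst_add, Prod.snd_add, map_add, LinearMap.add_apply, Submodule.coe_add]
      abel)
    (fun c u v => by
      simp only [Prod.smul_fst, Prod.smul_snd, map_smul, LinearMap.smul_apply, Submodule.coe_smul,
        smul_add])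
    (fun u v v' => by
      simp only [Prod.fst_add, Prod.snd_add, map_add, LinearMap.add_apply, Submodule.coe_add]
      abel)
    (fun c u v => by
      simp only [Prod.smul_fst, Prod.smul_snd, map_smul, LinearMap.smul_apply, Submodule.coe_smul,
        smul_add])
  symm u v := by
    show f.fn u.1 v.1 + (evB (u.2 : Fin g → Dual F A) v.1 + evB (v.2 : Fin g → Dual F A) u.1) =
      f.fn v.1 u.1 + (evB (v.2 : Fin g → Dual F A) u.1 + evB (u.2 : Fin g → Dual F A) v.1)
    rw [f.symm, add_comm (evB (u.2 : Fin g → Dual F A) v.1)]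

theorem bet_apply (B : Submodule F (Fin g → Dual F A)) (f : SBil F A (Fin g → F))
    (u v : A × B) : (bet B f).fn u v = f.fn u.1 v.1 + (evB (u.2 : Fin g → Dual F A) v.1 +
      evB (v.2 : Fin g → Dual F A) u.1) := rfl

/-- The zero map. -/
def sz : SBil F A (Fin g → F) := ⟨0, fun _ _ => rfl⟩

/-- The symmetrization as a symmetric bilinear map. -/
def st (M : A →ₗ[F] (Fin g → Dual F A)) : SBil F A (Fin g → F) :=
  ⟨TS M, fun x y => by
    funext i
    rw [TS_apply, TS_apply, add_comm]⟩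

@[simp] theorem sz_fn : (sz : SBil F A (Fin g → F)).fn = 0 := rfl
@[simp] theorem st_fn (M : A →ₗ[F] (Fin g → Dual F A)) : (st M).fn = TS M := rfl

variable {B : Submodule F (Fin g → Dual F A)} {f f' : SBil F A (Fin g → F)}

/-- The component in `A`. -/
def ac (a : RB (bet B f)) : A := (vc a).1

/-- The component in `B`. -/
def bc (a : RB (bet B f)) : B := (vc a).2

@[simp] theorem ac_mk (r : F) (x : A) (c : B) (z : Fin g → F) :
    ac (mk (bet B f) r (x, c) z) = x := rfl
@[simp] theorem bc_mk (r : F) (x : A) (c : B) (z : Fin g → F) :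
    bc (mk (bet B f) r (x, c) z) = c := rfl

theorem ac_add (a b : RB (bet B f)) : ac (a + b) = ac a + ac b := rfl
theorem bc_add (a b : RB (bet B f)) : bc (a + b) = bc a + bc b := rfl
theorem ac_mul (a b : RB (bet B f)) : ac (a * b) = rc a • ac b + rc b • ac a := rfl
theorem bc_mul (a b : RB (bet B f)) : bc (a * b) = rc a • bc b + rc b • bc a := rfl

theorem RB_ext' {a b : RB (bet B f)} (h0 : rc a = rc b) (h1 : ac a = ac b) (h1' : bc a = bc b)
    (h2 : zc a = zc b) : a = b := RB_ext h0 (Prod.ext h1 h1') h2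

end

section

variable {p : ℕ} [Fact p.Prime] {A : Type} [AddCommGroup A] [Module (ZMod p) A] [Finite A]
  {g : ℕ} {q : Fin g → (Dual (ZMod p) A →ₗ[ZMod p] A)}
  {B : Submodule (ZMod p) (Fin g → Dual (ZMod p) A)}
  {f f' : SBil (ZMod p) A (Fin g → ZMod p)}

/-- The map from `B × Γ` to `A`. -/
def lam (θ : RB (bet B f) ≃+* RB (bet B f')) (u : B × (Fin g → ZMod p)) : A :=
  ac (θ (mk (bet B f) 0 (0, u.1) u.2))

theorem lam_add (θ : RB (bet B f) ≃+* RB (bet B f')) (u v : B × (Fin g → ZMod p)) :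
    lam θ (u + v) = lam θ u + lam θ v := by
  have h : mk (bet B f) 0 (0, (u + v).1) (u + v).2 =
      mk (bet B f) 0 (0, u.1) u.2 + mk (bet B f) 0 (0, v.1) v.2 := by
    refine RB_ext' ?_ ?_ rfl rfl
    · simp
    · simp [ac_add]
  unfold lam
  rw [h, map_add, ac_add]

theorem rc_map (θ : RB (bet B f) ≃+* RB (bet B f')) (a : RB (bet B f)) (ha : rc a = 0) :
    rc (θ a) = 0 := by
  by_contra h
  rw [← ne_eq, ← isUnit_iff] at h
  have h1 := h.map θ.symm
  rw [RingEquiv.symm_apply_apply, isUnit_iff] at h1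
  exact h1 ha

theorem lam_zero (hsym : ∀ (i : Fin g) (φ ψ : Dual (ZMod p) A), φ (q i ψ) = ψ (q i φ))
    {m : ℕ} (hE : Expands q m) (hg : 2 ≤ g)
    (ha : finrank (ZMod p) A < (g - 1) * (2 * m)) (hB : B = LinearMap.ker (tot q))
    (θ : RB (bet B f) ≃+* RB (bet B f')) (u : B × (Fin g → ZMod p)) : lam θ u = 0 := by
  classical
  by_contra hne
  have : FiniteDimensional (ZMod p) A := Module.Finite.of_finite
  have : Finite (Dual (ZMod p) A) := Module.finite_of_finite (ZMod p)
  have : Finite (Fin g → Dual (ZMod p) A) := inferInstance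
  have : Finite B := inferInstance
  obtain ⟨W, hWmem, h6'⟩ := exists_range (p := p) A (lam θ) (lam_add θ)
  have hW : W ≠ ⊥ := by
    intro h
    have h1 : lam θ u ∈ W := (hWmem _).2 ⟨u, rfl⟩
    rw [h, Submodule.mem_bot] at h1
    exact hne h1
  have hdim := dim_ineq hsym hE hg ha W hW
  rw [← hB] at hdim
  -- the kernel
  have hCW : ∀ v, lam θ v = 0 → ((bc (θ (mk (bet B f) 0 (0, v.1) v.2)) : B) :
      Fin g → Dual (ZMod p) A) ∈ (B ⊓ CW W : Submodule (ZMod p) (Fin g → Dual (ZMod p) A)) := by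
    intro v hv
    refine ⟨(bc _).2, ?_⟩
    intro i x hx
    obtain ⟨w, hw⟩ := (hWmem x).1 hx
    have hv0 : ac (θ (mk (bet B f) 0 (0, v.1) v.2)) = 0 := hv
    have hw0 : ac (θ (mk (bet B f) 0 (0, w.1) w.2)) = x := hw
    have hzero : mk (bet B f) 0 (0, v.1) v.2 * mk (bet B f) 0 (0, w.1) w.2 = 0 := by
      refine RB_ext' ?_ ?_ ?_ ?_
      · simp
      · rw [ac_mul]
        simp
        rfl
      · rw [bc_mul]
        simp
        rfl
      · rw [zc_mul, bet_apply]
        simp
    have h2 := congrArg (fun z => zc z) (congrArg θ hzero)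
    simp only [map_mul, map_zero, zc_mul, zc_zero] at h2
    rw [rc_map θ _ rfl, rc_map θ _ rfl, zero_smul, zero_smul, zero_add, zero_add, bet_apply] at h2
    have h3 : f'.fn (ac (θ (mk (bet B f) 0 (0, v.1) v.2)))
        (ac (θ (mk (bet B f) 0 (0, w.1) w.2))) +
        (evB ((bc (θ (mk (bet B f) 0 (0, v.1) v.2)) : B) : Fin g → Dual (ZMod p) A)
        (ac (θ (mk (bet B f) 0 (0, w.1) w.2))) +
        evB ((bc (θ (mk (bet B f) 0 (0, w.1) w.2)) : B) : Fin g → Dual (ZMod p) A)
        (ac (θ (mk (bet B f) 0 (0, v.1) v.2)))) = 0 := h2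
    rw [hv0, hw0, map_zero, map_zero, LinearMap.zero_apply, zero_add, add_zero] at h3
    exact congrFun h3 i
  let κ : {v // lam θ v = 0} → (B ⊓ CW W : Submodule (ZMod p) (Fin g → Dual (ZMod p) A)) ×
      (Fin g → ZMod p) := fun v => (⟨_, hCW v.1 v.2⟩, zc (θ (mk (bet B f) 0 (0, v.1.1) v.1.2)))
  have hκ : Function.Injective κ := by
    intro v w hvw
    have h1 : ((bc (θ (mk (bet B f) 0 (0, v.1.1) v.1.2)) : B) : Fin g → Dual (ZMod p) A) =
        ((bc (θ (mk (bet B f) 0 (0, w.1.1) w.1.2)) : B) : Fin g → Dual (ZMod p) A) :=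
      congrArg (fun z => ((z.1 : (B ⊓ CW W : Submodule (ZMod p) (Fin g → Dual (ZMod p) A))) :
        Fin g → Dual (ZMod p) A)) hvw
    have h2 : zc (θ (mk (bet B f) 0 (0, v.1.1) v.1.2)) =
        zc (θ (mk (bet B f) 0 (0, w.1.1) w.1.2)) := congrArg (fun z => z.2) hvw
    have hv0 : ac (θ (mk (bet B f) 0 (0, v.1.1) v.1.2)) = 0 := v.2
    have hw0 : ac (θ (mk (bet B f) 0 (0, w.1.1) w.1.2)) = 0 := w.2
    have h3 : θ (mk (bet B f) 0 (0, v.1.1) v.1.2) = θ (mk (bet B f) 0 (0, w.1.1) w.1.2) :=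
      RB_ext' ((rc_map θ _ rfl).trans (rc_map θ _ rfl).symm) (hv0.trans hw0.symm)
        (Subtype.ext h1) h2
    have h4 := θ.injective h3
    have h5 := congrArg (fun z => bc z) h4
    have h6 := congrArg (fun z => zc z) h4
    exact Subtype.ext (Prod.ext h5 h6)
  have hcard : Nat.card {v // lam θ v = 0} ≤
      Nat.card (B ⊓ CW W : Submodule (ZMod p) (Fin g → Dual (ZMod p) A)) *
        Nat.card (Fin g → ZMod p) := by
    rw [← Nat.card_prod]
    exact Nat.card_le_card_of_injective κ hκ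
  have h6 : Nat.card {v // lam θ v = 0} * Nat.card W = Nat.card B * Nat.card (Fin g → ZMod p) := by
    rw [h6', Nat.card_prod]
  have h7 : Nat.card W = p ^ finrank (ZMod p) W := by
    rw [Module.natCard_eq_pow_finrank (K := ZMod p), Nat.card_zmod]
  have h8 : Nat.card B = p ^ finrank (ZMod p) B := by
    rw [Module.natCard_eq_pow_finrank (K := ZMod p), Nat.card_zmod]
  have h9 : Nat.card (B ⊓ CW W : Submodule (ZMod p) (Fin g → Dual (ZMod p) A)) =
      p ^ finrank (ZMod p) (B ⊓ CW W : Submodule (ZMod p) (Fin g → Dual (ZMod p) A)) := by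
    rw [Module.natCard_eq_pow_finrank (K := ZMod p), Nat.card_zmod]
  have hp1 : 1 < p := (Fact.out : p.Prime).one_lt
  have hΓ : 0 < Nat.card (Fin g → ZMod p) := Nat.card_pos
  have h10 : Nat.card B ≤ Nat.card (B ⊓ CW W : Submodule (ZMod p) (Fin g → Dual (ZMod p) A)) *
      Nat.card W := by
    refine Nat.le_of_mul_le_mul_right ?_ hΓ
    rw [← h6]
    calc Nat.card {v // lam θ v = 0} * Nat.card W ≤
        (Nat.card (B ⊓ CW W : Submodule (ZMod p) (Fin g → Dual (ZMod p) A)) *
          Nat.card (Fin g → ZMod p)) * Nat.card W := Nat.mul_le_mul_right _ hcard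
      _ = _ := by ring
  rw [h7, h8, h9, ← pow_add, Nat.pow_le_pow_iff_right hp1] at h10
  omega

theorem not_iso (hp : p ≠ 2)
    (hsym : ∀ (i : Fin g) (φ ψ : Dual (ZMod p) A), φ (q i ψ) = ψ (q i φ))
    {m : ℕ} (hE : Expands q m) (hg : 2 ≤ g)
    (ha : finrank (ZMod p) A < (g - 1) * (2 * m)) (hB : B = LinearMap.ker (tot q))
    (φ₀ : Dual (ZMod p) A) (c₀ : Fin g → Dual (ZMod p) A) (h0 : φ₀ (tot q c₀) ≠ 0) :
    IsEmpty (RB (bet B (st (φ₀.smulRight c₀))) ≃+* RB (bet B (sz : SBil (ZMod p) A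
      (Fin g → ZMod p)))) := by
  refine ⟨fun θ => ?_⟩
  have : FiniteDimensional (ZMod p) A := Module.Finite.of_finite
  -- the complement
  let e : A → RB (bet B (st (φ₀.smulRight c₀))) := fun x => θ.symm (mk (bet B sz) 0 (x, 0) 0)
  have he : ∀ x y, e (x + y) = e x + e y := by
    intro x y
    show θ.symm _ = θ.symm _ + θ.symm _
    rw [← map_add]
    congr 1
    refine RB_ext' ?_ ?_ ?_ ?_
    · simp
    · simp [ac_add]
    · simp [bc_add]
    · simp
  have he0 : ∀ x y, e x * e y = 0 := by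
    intro x y
    show θ.symm _ * θ.symm _ = 0
    rw [← map_mul, EmbeddingLike.map_eq_zero_iff]
    refine RB_ext' ?_ ?_ ?_ ?_
    · simp
    · rw [ac_mul]
      simp
      rfl
    · rw [bc_mul]
      simp
      rfl
    · rw [zc_mul, bet_apply]
      simp
  have hr : ∀ x, rc (e x) = 0 := fun x => rc_map θ.symm _ rfl
  let a1 : A →+ A := AddMonoidHom.mk' (fun x => ac (e x)) fun x y => by
    rw [he, ac_add]
  let b1 : A →+ B := AddMonoidHom.mk' (fun x => bc (e x)) fun x y => by
    rw [he, bc_add]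
  have hinj : Function.Injective a1 := by
    rw [injective_iff_map_eq_zero]
    intro x hx
    have h1 : e x = mk _ 0 (0, bc (e x)) (zc (e x)) := RB_ext' (hr x) hx rfl rfl
    have h2 := lam_zero hsym hE hg ha hB θ (bc (e x), zc (e x))
    have h3 : ac (θ (e x)) = 0 := by
      rw [h1]
      exact h2
    have h4 : θ (e x) = mk (bet B sz) 0 (x, 0) 0 := θ.apply_symm_apply _
    rw [h4] at h3
    exact h3
  have hrel : ∀ x y, TS (φ₀.smulRight c₀) (a1 x) (a1 y) +
      (evB ((b1 x : B) : Fin g → Dual (ZMod p) A) (a1 y) +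
      evB ((b1 y : B) : Fin g → Dual (ZMod p) A) (a1 x)) = 0 := by
    intro x y
    have h1 := congrArg (fun z => zc z) (he0 x y)
    simp only [zc_mul, zc_zero] at h1
    rw [hr, hr, zero_smul, zero_smul, zero_add, zero_add, bet_apply] at h1
    exact h1
  -- the inverse of `a1`
  have hbij : Function.Bijective a1 := Finite.injective_iff_bijective.1 hinj
  let a2 : A ≃+ A := AddEquiv.ofBijective a1 hbij
  have ha2 : ∀ x, a1 (a2.symm x) = x := fun x => a2.apply_symm_apply x
  let M : A →+ (Fin g → Dual (ZMod p) A) :=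
    { toFun := fun x => - ((b1 (a2.symm x) : B) : Fin g → Dual (ZMod p) A)
      map_zero' := by
        rw [map_zero, map_zero]
        simp
      map_add' := fun x y => by
        rw [map_add, map_add, Submodule.coe_add]
        abel }
  have hM : ∀ x, tot q (M x) = 0 := by
    intro x
    have h1 : M x ∈ B := B.neg_mem (b1 (a2.symm x)).2
    rw [hB] at h1
    exact LinearMap.mem_ker.1 h1
  refine obstruction hsym (Pool.Agent.W879.GW.two_ne hp) (M.toZModLinearMap p) hM φ₀ c₀ h0 ?_
  refine LinearMap.ext fun x => LinearMap.ext fun y => funext fun i => ?_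
  have h1 := congrFun (hrel (a2.symm x) (a2.symm y)) i
  rw [ha2, ha2] at h1
  have h2 : TS (φ₀.smulRight c₀) x y i +
    (((b1 (a2.symm x) : B) : Fin g → Dual (ZMod p) A) i y +
    ((b1 (a2.symm y) : B) : Fin g → Dual (ZMod p) A) i x) = 0 := h1
  rw [TS_apply (M.toZModLinearMap p)]
  show -(((b1 (a2.symm x) : B) : Fin g → Dual (ZMod p) A) i y) +
    -(((b1 (a2.symm y) : B) : Fin g → Dual (ZMod p) A) i x) = TS (φ₀.smulRight c₀) x y i
  linear_combination -h2

end

end Pool.Agent.Zk53.RW
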