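import Pool.Agent.TH658.Sos.ImGrp

/-!
# Weisfeiler-Leman equivalence from a locally consistent system
-/

set_option autoImplicit false
set_option linter.unusedSectionVars false

namespace Pool.Agent.Zk53.RW

open Pool.Agent.W185.SRG Pool.Agent.TH658.Sos Pool.Agent.TH658.Sos.Act

variable {X L : Type} [AddCommGroup X] [SemilatticeSup L] [OrderBot L] {S : Sys X L}
  {V V' : Type} {G : SimpleGraph V} {H : SimpleGraph V'} [Fintype V] [Fintype V']

/-- The relation between tuples given by local solutions. -/
def GoodA (A : Act S G H) {k : ℕ} (u : Fin k → V) (v : Fin k → V') : Prop :=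
  ∃ M ∈ S.Sol (lvT A.lv u), v = fun a => A.b M (u a)

theorem step_goodA (A : Act S G H) {k : ℕ} (hsz : A.c * (k + 1) ≤ S.K) (u : Fin k → V)
    (v : Fin k → V') (h : GoodA A u v) : ∃ β : V ≃ V', ∀ x i,
      GoodA A (Function.update u i x) (Function.update v i (β x)) := by
  obtain ⟨M, hM, rfl⟩ := h
  have hex : ∀ l : L, S.size l ≤ A.c → ∃ M', M' ∈ S.Sol (lvT A.lv u ⊔ l) ∧
      M' - M ∈ S.N (lvT A.lv u) := by
    intro l hl
    have h1 := S.extend (lvT A.lv u) (lvT A.lv u ⊔ l) le_sup_left (by
      have h2 := S.size_sup (lvT A.lv u) l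
      have h3 := A.size_lvT u
      rw [Fintype.card_fin] at h3
      rw [mul_add, mul_one] at hsz
      omega) M hM
    obtain ⟨M', h1, h2⟩ := h1
    exact ⟨M', h1, h2⟩
  classical
  let ch : L → X := fun l => if hl : S.size l ≤ A.c then (hex l hl).choose else 0
  have hch : ∀ l, S.size l ≤ A.c → ch l ∈ S.Sol (lvT A.lv u ⊔ l) ∧
      ch l - M ∈ S.N (lvT A.lv u) := by
    intro l hl
    have h1 : ch l = (hex l hl).choose := dif_pos hl
    rw [h1]
    exact (hex l hl).choose_spec
  let β : V ≃ V' :=
    { toFun := fun x => A.b (ch (A.lv x)) x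
      invFun := fun y => (A.b (ch (A.lv' y))).symm y
      left_inv := by
        intro x
        show (A.b (ch (A.lv' (A.b (ch (A.lv x)) x)))).symm (A.b (ch (A.lv x)) x) = x
        rw [A.lev, Equiv.symm_apply_apply]
      right_inv := by
        intro y
        show A.b (ch (A.lv ((A.b (ch (A.lv' y))).symm y))) ((A.b (ch (A.lv' y))).symm y) = y
        have h1 : A.lv ((A.b (ch (A.lv' y))).symm y) = A.lv' y := by
          rw [← A.lev (ch (A.lv' y)), Equiv.apply_symm_apply]
        rw [h1, Equiv.apply_symm_apply] }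
  refine ⟨β, fun x i => ⟨ch (A.lv x), ?_, ?_⟩⟩
  · refine S.Sol_anti _ _ ?_ (hch _ (A.size x)).1
    refine Finset.sup_le fun a _ => ?_
    by_cases ha : a = i
    · subst ha
      rw [Function.update_self]
      exact le_sup_right
    · rw [Function.update_of_ne ha]
      exact (lv_le_lvT u a).trans le_sup_left
  · funext a
    by_cases ha : a = i
    · subst ha
      rw [Function.update_self, Function.update_self]
      rfl
    · rw [Function.update_of_ne ha, Function.update_of_ne ha]
      have h1 := A.inv M (ch (A.lv x) - M) (u a)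
        (S.N_anti _ _ (lv_le_lvT u a) (hch _ (A.size x)).2)
      rw [add_sub_cancel] at h1
      exact h1.symm

/-- A locally consistent system gives equivalence under the Weisfeiler-Leman method. -/
theorem wlEquivalent (A : Act S G H) {k : ℕ} (hsz : A.c * (k + 1) ≤ S.K) :
    WLEquivalent k G H := by
  have hszT : ∀ w : Fin k → V, S.size (lvT A.lv w) ≤ S.K := by
    intro w
    have := A.size_lvT w
    rw [Fintype.card_fin] at this
    rw [mul_add, mul_one] at hsz
    omega
  have lb : ∀ (M : X) (w : Fin k → V), lvT A.lv' (fun a => A.b M (w a)) = lvT A.lv w :=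
    fun M w => lvT_congr fun a => A.lev M _
  refine ⟨⟨fun u a => A.b (S.pt (lvT A.lv u)) (u a),
      fun v a => (A.b (S.pt (lvT A.lv' v))).symm (v a), ?_, ?_⟩, ?_⟩
  · intro u
    funext a
    show (A.b (S.pt (lvT A.lv' fun a => A.b (S.pt (lvT A.lv u)) (u a)))).symm
      (A.b (S.pt (lvT A.lv u)) (u a)) = u a
    rw [lb, Equiv.symm_apply_apply]
  · intro v
    funext a
    show A.b (S.pt (lvT A.lv fun a => (A.b (S.pt (lvT A.lv' v))).symm (v a)))
      ((A.b (S.pt (lvT A.lv' v))).symm (v a)) = v a
    have h1 : lvT A.lv (fun a => (A.b (S.pt (lvT A.lv' v))).symm (v a)) = lvT A.lv' v := by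
      refine lvT_congr fun a => ?_
      rw [← A.lev (S.pt (lvT A.lv' v)), Equiv.apply_symm_apply]
    rw [h1, Equiv.apply_symm_apply]
  · intro t u
    refine Pool.Agent.W879.GW.wl_of_good G H (GoodA A) ?_ ?_ t u _ ?_
    · rintro w _ ⟨M, hM, rfl⟩
      refine Prod.ext ?_ ?_
      · funext i j
        exact propext (A.b M).injective.eq_iff.symm
      · funext i j
        exact propext (A.iso _ _ M (S.Sol_anti _ _
          (sup_le (lv_le_lvT w i) (lv_le_lvT w j)) hM))
    · intro w w' h
      exact step_goodA A hsz w w' h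
    · exact ⟨_, S.pt_mem (S.nonempty _ (hszT u)), rfl⟩

end Pool.Agent.Zk53.RW
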