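import Pool.Agent.TH658.Sos.ImGrp
import Pool.Agent.Zk53.RW5

/-!
# The affine system of the two rings
-/

set_option autoImplicit false
set_option linter.unusedSectionVars false

namespace Pool.Agent.Zk53.RW

open Module
open Pool.Agent.W879.GW (tot tot_apply tot_single evB evB_apply Expands)
open Pool.Agent.TH658.Sos (Sys Act instX cB cB_add om om_apply om_eq)

/-- Two families of elements of commutative rings satisfy the same polynomial equations with
integer coefficients; in other words, there is an isomorphism of the subrings generated by them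
which maps one family to the other. -/
def SameType {ι R S : Type} [CommRing R] [CommRing S] (u : ι → R) (v : ι → S) : Prop :=
  ∀ P : MvPolynomial ι ℤ, MvPolynomial.aeval u P = 0 ↔ MvPolynomial.aeval v P = 0

theorem SameType.eq_iff {ι R S : Type} [CommRing R] [CommRing S] {u : ι → R} {v : ι → S}
    (h : SameType u v) (P Q : MvPolynomial ι ℤ) :
    MvPolynomial.aeval u P = MvPolynomial.aeval u Q ↔
      MvPolynomial.aeval v P = MvPolynomial.aeval v Q := by
  rw [← sub_eq_zero, ← map_sub, h, map_sub, sub_eq_zero]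

/-- The bijection of the subtypes given by a bijection. -/
noncomputable def bEq {V V' T T' : Type} (e : V ↪ T) (e' : V' ↪ T') (s : T ≃ T')
    (h : ∀ t, t ∈ Set.range e ↔ s t ∈ Set.range e') : V ≃ V' :=
  (Equiv.ofInjective e e.injective).trans ((s.subtypeEquiv h).trans
    (Equiv.ofInjective e' e'.injective).symm)

theorem bEq_key {V V' T T' : Type} (e : V ↪ T) (e' : V' ↪ T') (s : T ≃ T')
    (h : ∀ t, t ∈ Set.range e ↔ s t ∈ Set.range e') (v : V) :
    e' (bEq e e' s h v) = s (e v) :=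
  Equiv.apply_ofInjective_symm e'.injective (s.subtypeEquiv h (Equiv.ofInjective e e.injective v))

section

variable {F A : Type} [Field F] [AddCommGroup A] [Module F A] {g : ℕ}
  {B : Submodule F (Fin g → Dual F A)} {f f' : SBil F A (Fin g → F)}

/-- The shear. -/
def sh (M : A →ₗ[F] B) (a : RB (bet B f)) : RB (bet B f') :=
  mk _ (rc a) (ac a, bc a + M (ac a)) (zc a)

@[simp] theorem ac_sh (M : A →ₗ[F] B) (a : RB (bet B f)) :
    ac (sh M a : RB (bet B f')) = ac a := rfl

@[simp] theorem rc_sh (M : A →ₗ[F] B) (a : RB (bet B f)) :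
    rc (sh M a : RB (bet B f')) = rc a := rfl

/-- The inverse shear. -/
def shn (M : A →ₗ[F] B) (a : RB (bet B f)) : RB (bet B f') :=
  mk _ (rc a) (ac a, bc a - M (ac a)) (zc a)

@[simp] theorem ac_shn (M : A →ₗ[F] B) (a : RB (bet B f)) :
    ac (shn M a : RB (bet B f')) = ac a := rfl

theorem sh_neg (M : A →ₗ[F] B) (a : RB (bet B f)) :
    shn M (sh M a : RB (bet B f')) = a := by
  refine RB_ext' rfl rfl ?_ rfl
  show bc a + M (ac a) - M (ac a) = bc a
  abel

theorem sh_neg' (M : A →ₗ[F] B) (a : RB (bet B f)) :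
    sh M (shn M a : RB (bet B f')) = a := by
  refine RB_ext' rfl rfl ?_ rfl
  show bc a - M (ac a) + M (ac a) = bc a
  abel

theorem sh_inj (M : A →ₗ[F] B) :
    Function.Injective (sh M : RB (bet B f) → RB (bet B f')) := by
  intro a b h
  rw [← sh_neg (f' := f') M a, h, sh_neg]

theorem sh_add (M : A →ₗ[F] B) (a b : RB (bet B f)) :
    (sh M (a + b) : RB (bet B f')) = sh M a + sh M b := by
  refine RB_ext' rfl rfl ?_ rfl
  show bc a + bc b + M (ac a + ac b) = bc a + M (ac a) + (bc b + M (ac b))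
  rw [map_add]
  abel

theorem sh_zero (M : A →ₗ[F] B) : (sh M (0 : RB (bet B f)) : RB (bet B f')) = 0 := by
  refine RB_ext' rfl rfl ?_ rfl
  show (0 : B) + M 0 = 0
  rw [map_zero, add_zero]

theorem sh_one (M : A →ₗ[F] B) : (sh M (1 : RB (bet B f)) : RB (bet B f')) = 1 := by
  refine RB_ext' rfl rfl ?_ rfl
  show (0 : B) + M 0 = 0
  rw [map_zero, add_zero]

theorem sh_mul (M : A →ₗ[F] B) (a b : RB (bet B f))
    (h : TS (B.subtype ∘ₗ M) (ac a) (ac b) = f.fn (ac a) (ac b)) :
    (sh M (a * b) : RB (bet B sz)) = sh M a * sh M b := by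
  refine RB_ext' rfl rfl ?_ ?_
  · show rc a • bc b + rc b • bc a + M (rc a • ac b + rc b • ac a) =
      rc a • (bc b + M (ac b)) + rc b • (bc a + M (ac a))
    rw [map_add, map_smul, map_smul, smul_add, smul_add]
    abel
  · rw [zc_mul]
    show rc a • zc b + rc b • zc a + (f.fn (ac a) (ac b) +
      (evB (bc a : Fin g → Dual F A) (ac b) + evB (bc b : Fin g → Dual F A) (ac a))) =
      rc a • zc b + rc b • zc a + ((0 : A →ₗ[F] A →ₗ[F] (Fin g → F)) (ac a) (ac b) +
      (evB ((bc a + M (ac a) : B) : Fin g → Dual F A) (ac b) +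
      evB ((bc b + M (ac b) : B) : Fin g → Dual F A) (ac a)))
    rw [← h]
    have h2 : TS (B.subtype ∘ₗ M) (ac a) (ac b) =
      evB ((M (ac a) : B) : Fin g → Dual F A) (ac b) +
      evB ((M (ac b) : B) : Fin g → Dual F A) (ac a) := rfl
    rw [h2, Submodule.coe_add, Submodule.coe_add, map_add, map_add, LinearMap.add_apply,
      LinearMap.add_apply, LinearMap.zero_apply, LinearMap.zero_apply]
    abel

/-- The subring of the elements whose component in `A` is in `W`. -/
def WR (B : Submodule F (Fin g → Dual F A)) (f : SBil F A (Fin g → F)) (W : Submodule F A) :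
    Subring (RB (bet B f)) where
  carrier := {a | ac a ∈ W}
  mul_mem' := by
    intro a b ha hb
    show ac (a * b) ∈ W
    rw [ac_mul]
    exact W.add_mem (W.smul_mem _ hb) (W.smul_mem _ ha)
  one_mem' := W.zero_mem
  add_mem' := by
    intro a b ha hb
    exact W.add_mem ha hb
  zero_mem' := W.zero_mem
  neg_mem' := by
    intro a ha
    exact W.neg_mem ha

/-- The shear as a ring homomorphism. -/
def shHom (W : Submodule F A) (M : A →ₗ[F] B)
    (h : ∀ x ∈ W, ∀ y ∈ W, TS (B.subtype ∘ₗ M) x y = f.fn x y) :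
    WR B f W →+* RB (bet B sz) where
  toFun a := sh M a.1
  map_one' := sh_one M
  map_mul' a b := sh_mul M a.1 b.1 (h _ a.2 _ b.2)
  map_zero' := sh_zero M
  map_add' a b := sh_add M a.1 b.1

theorem sameType_sh {ι : Type} (W : Submodule F A) (M : A →ₗ[F] B)
    (h : ∀ x ∈ W, ∀ y ∈ W, TS (B.subtype ∘ₗ M) x y = f.fn x y) (u : ι → RB (bet B f))
    (hu : ∀ i, ac (u i) ∈ W) : SameType u (fun i => (sh M (u i) : RB (bet B sz))) := by
  intro P
  let u' : ι → WR B f W := fun i => ⟨u i, hu i⟩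
  have h1 : MvPolynomial.aeval u P = (WR B f W).subtype (MvPolynomial.aeval u' P) :=
    (MvPolynomial.map_aeval u' (WR B f W).subtype P).symm ▸ by
      rw [MvPolynomial.aeval_def, MvPolynomial.coe_eval₂Hom]
      congr 1
  have h2 : MvPolynomial.aeval (fun i => (sh M (u i) : RB (bet B sz))) P =
      shHom W M h (MvPolynomial.aeval u' P) :=
    (MvPolynomial.map_aeval u' (shHom W M h) P).symm ▸ by
      rw [MvPolynomial.aeval_def, MvPolynomial.coe_eval₂Hom]
      congr 1
      exact RingHom.ext_int _ _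
  rw [h1, h2]
  constructor
  · intro h3
    have h4 : MvPolynomial.aeval u' P = 0 := Subtype.ext h3
    rw [h4, map_zero]
  · intro h3
    have h5 : (sh M (MvPolynomial.aeval u' P : WR B f W).1 : RB (bet B sz)) = 0 := h3
    rw [← sh_zero (f := f) M] at h5
    exact sh_inj M h5

theorem sh_torsor (M h : A →ₗ[F] B) (a : RB (bet B f)) :
    (sh (M + h) a : RB (bet B sz)) = sh M (shn 0 (sh h a : RB (bet B sz)) : RB (bet B f)) := by
  refine RB_ext' rfl rfl ?_ rfl
  show bc a + (M (ac a) + h (ac a)) = bc a + h (ac a) - 0 + M (ac a)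
  abel

/-- The shear of tuples. -/
def shT {d : ℕ} (f f' : SBil F A (Fin g → F)) (M : A →ₗ[F] B) :
    (Fin d → RB (bet B f)) ≃ (Fin d → RB (bet B f')) where
  toFun u j := sh M (u j)
  invFun u j := shn M (u j)
  left_inv u := funext fun j => sh_neg M (u j)
  right_inv u := funext fun j => sh_neg' M (u j)

end

section

variable {F A : Type} [Field F] [AddCommGroup A] [Module F A] {g : ℕ}
  [FiniteDimensional F A] {q : Fin g → (Dual F A →ₗ[F] A)}

/-- The constraints as homomorphisms. -/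
noncomputable def th {B : Submodule F (Fin g → Dual F A)}
    (ξ : Dual F (A →ₗ[F] A →ₗ[F] (Fin g → F))) : (A →ₗ[F] B) →+ F :=
  AddMonoidHom.mk' (fun Z => ξ (TS (cB Z))) fun Z Z' => by
    rw [cB_add, map_add, map_add]

theorem th_apply {B : Submodule F (Fin g → Dual F A)}
    (ξ : Dual F (A →ₗ[F] A →ₗ[F] (Fin g → F))) (Z : A →ₗ[F] B) : th ξ Z = ξ (TS (cB Z)) := rfl

/-- The maps with the constraints of the levels. -/
noncomputable def rgSys (hsym : ∀ (i : Fin g) (φ ψ : Dual F A), φ (q i ψ) = ψ (q i φ)) {K : ℕ}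
    (hE : Expands q (4 * K)) (B : Submodule F (Fin g → Dual F A))
    (hB : B = LinearMap.ker (tot q)) (φ₀ : Dual F A) (c₀ : Fin g → Dual F A) :
    Sys (A →ₗ[F] B) (Submodule F A) where
  N W :=
    { carrier := {Z | ∀ x ∈ W, ∀ i y, om x i y Z = 0}
      add_mem' := fun {Z Z'} h h' x hx i y => by
        rw [map_add, h x hx, h' x hx, add_zero]
      zero_mem' := fun x _ i y => map_zero _
      neg_mem' := fun {Z} h x hx i y => by rw [map_neg, h x hx, neg_zero] }
  D W :=
    { carrier := {Z | ∀ ξ, InD q K ξ W → th ξ Z = 0}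
      add_mem' := fun {Z Z'} h h' ξ hξ => by
        rw [map_add, h ξ hξ, h' ξ hξ, add_zero]
      zero_mem' := fun ξ _ => map_zero _
      neg_mem' := fun {Z} h ξ hξ => by
        rw [map_neg, h ξ hξ, neg_zero] }
  Sol W := {M | ∀ ξ, InD q K ξ W → th ξ M = ξ (TS (φ₀.smulRight c₀))}
  size W := finrank F W
  K := K
  N_anti W W' h Z hZ x hx := hZ x (h hx)
  D_anti W W' h Z hZ ξ hξ := hZ ξ (hξ.mono h)
  Sol_anti W W' h M hM ξ hξ := hM ξ (hξ.mono h)
  sol_iff W M M' hM := by
    constructor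
    · intro hM' ξ hξ
      rw [map_sub, hM ξ hξ, hM' ξ hξ, sub_self]
    · intro h ξ hξ
      have h1 := h ξ hξ
      rw [map_sub, hM ξ hξ] at h1
      exact sub_eq_zero.1 h1
  size_bot := finrank_bot F A
  size_sup W W' := Submodule.finrank_add_le_finrank_add_finrank W W'
  nonempty W hW := by
    obtain ⟨M₁, h1, h2, h3⟩ := extend hsym hE (TS (φ₀.smulRight c₀)) ⊥ W hW 0
      (fun x => by simp) (fun ξ hξ => start hsym hE φ₀ c₀ ξ hξ)
    have h1' : ∀ x, M₁ x ∈ B := by
      intro x
      rw [hB]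
      exact h1 x
    refine ⟨LinearMap.codRestrict B M₁ h1', fun ξ hξ => ?_⟩
    have h4 : cB (LinearMap.codRestrict B M₁ h1') = M₁ := by
      ext x
      rfl
    rw [th_apply, h4]
    exact h3 ξ hξ
  extend W W' h hW' M hM := by
    have hBm : ∀ c ∈ B, tot q c = 0 := by
      intro c hc
      rw [hB] at hc
      exact LinearMap.mem_ker.1 hc
    obtain ⟨M₁, h1, h2, h3⟩ := Pool.Agent.Zk53.RW.extend hsym hE (TS (φ₀.smulRight c₀)) W W' hW'
      (cB M) (fun x => hBm _ (M x).2) hM
    have h1' : ∀ x, M₁ x ∈ B := by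
      intro x
      rw [hB]
      exact h1 x
    have h4 : cB (LinearMap.codRestrict B M₁ h1') = M₁ := by
      ext x
      rfl
    refine ⟨LinearMap.codRestrict B M₁ h1', fun ξ hξ => ?_, fun x hx i y => ?_⟩
    · rw [th_apply, h4]
      exact h3 ξ hξ
    · rw [map_sub, sub_eq_zero, om_apply, om_apply]
      have h5 : ((LinearMap.codRestrict B M₁ h1') x : Fin g → Dual F A) = M₁ x := rfl
      rw [h5, h2 x hx]
      rfl

/-- The bijections of tuples of ring elements. -/
noncomputable def rgAct (hsym : ∀ (i : Fin g) (φ ψ : Dual F A), φ (q i ψ) = ψ (q i φ)) {K : ℕ}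
    (hK : 1 ≤ K) (hE : Expands q (4 * K)) (B : Submodule F (Fin g → Dual F A))
    (hB : B = LinearMap.ker (tot q)) (φ₀ : Dual F A) (c₀ : Fin g → Dual F A)
    {d : ℕ} {V V' : Type} (e : V ↪ (Fin d → RB (bet B (st (φ₀.smulRight c₀)))))
    (e' : V' ↪ (Fin d → RB (bet B (sz : SBil F A (Fin g → F)))))
    (hV : ∀ (M : A →ₗ[F] B) (u : Fin d → RB (bet B (st (φ₀.smulRight c₀)))),
      u ∈ Set.range e ↔ shT (st (φ₀.smulRight c₀)) sz M u ∈ Set.range e')
    (G : SimpleGraph V) (H : SimpleGraph V')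
    (hadj : ∀ u u' v v', SameType (Sum.elim (e u) (e u')) (Sum.elim (e' v) (e' v')) →
      (G.Adj u u' ↔ H.Adj v v')) :
    Act (rgSys hsym hE B hB φ₀ c₀) G H where
  b M := bEq e e' (shT (st (φ₀.smulRight c₀)) sz M) (hV M)
  lv u := Submodule.span F (Set.range fun j => ac (e u j))
  lv' v := Submodule.span F (Set.range fun j => ac (e' v j))
  c := d
  inv M n u hn := by
    apply e'.injective
    rw [bEq_key, bEq_key]
    funext j
    have h1 : (M + n) (ac (e u j)) = M (ac (e u j)) := by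
      refine om_eq fun i y => ?_
      rw [map_add, hn _ (Submodule.subset_span ⟨j, rfl⟩), add_zero]
    show sh (M + n) (e u j) = sh M (e u j)
    unfold sh
    rw [h1]
  lev M u := by
    rw [bEq_key]
    rfl
  size u := by
    show finrank F (Submodule.span F (Set.range fun j => ac (e u j))) ≤ d
    have h := finrank_range_le_card (R := F) (fun j => ac (e u j))
    rwa [Fintype.card_fin] at h
  iso u u' M hM := by
    apply hadj
    rw [bEq_key, bEq_key]
    have h1 : (Sum.elim (shT (st (φ₀.smulRight c₀)) sz M (e u))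
        (shT (st (φ₀.smulRight c₀)) sz M (e u'))) =
        fun i => (sh M (Sum.elim (e u) (e u') i) : RB (bet B sz)) := by
      funext i
      rcases i with i | i <;> rfl
    rw [h1]
    refine sameType_sh (Submodule.span F (Set.range fun j => ac (e u j)) ⊔
      Submodule.span F (Set.range fun j => ac (e u' j))) M (fun x hx y hy => ?_) _ (fun i => ?_)
    · exact eq_on hK (TS (φ₀.smulRight c₀)) _ _ hM hx hy
    · rcases i with i | i
      · exact Submodule.mem_sup_left (Submodule.subset_span ⟨i, rfl⟩)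
      · exact Submodule.mem_sup_right (Submodule.subset_span ⟨i, rfl⟩)

theorem rgAct_key (hsym : ∀ (i : Fin g) (φ ψ : Dual F A), φ (q i ψ) = ψ (q i φ)) {K : ℕ}
    (hK : 1 ≤ K) (hE : Expands q (4 * K)) (B : Submodule F (Fin g → Dual F A))
    (hB : B = LinearMap.ker (tot q)) (φ₀ : Dual F A) (c₀ : Fin g → Dual F A)
    {d : ℕ} {V V' : Type} (e : V ↪ (Fin d → RB (bet B (st (φ₀.smulRight c₀)))))
    (e' : V' ↪ (Fin d → RB (bet B (sz : SBil F A (Fin g → F)))))
    (hV : ∀ (M : A →ₗ[F] B) (u : Fin d → RB (bet B (st (φ₀.smulRight c₀)))),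
      u ∈ Set.range e ↔ shT (st (φ₀.smulRight c₀)) sz M u ∈ Set.range e')
    (G : SimpleGraph V) (H : SimpleGraph V')
    (hadj : ∀ u u' v v', SameType (Sum.elim (e u) (e u')) (Sum.elim (e' v) (e' v')) →
      (G.Adj u u' ↔ H.Adj v v')) (M : A →ₗ[F] B) (u : V) :
    e' ((rgAct hsym hK hE B hB φ₀ c₀ e e' hV G H hadj).b M u) =
      fun j => (sh M (e u j) : RB (bet B sz)) :=
  bEq_key e e' (shT (st (φ₀.smulRight c₀)) sz M) (hV M) u

theorem rgAct_torsor (hsym : ∀ (i : Fin g) (φ ψ : Dual F A), φ (q i ψ) = ψ (q i φ)) {K : ℕ}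
    (hK : 1 ≤ K) (hE : Expands q (4 * K)) (B : Submodule F (Fin g → Dual F A))
    (hB : B = LinearMap.ker (tot q)) (φ₀ : Dual F A) (c₀ : Fin g → Dual F A)
    {d : ℕ} {V V' : Type} (e : V ↪ (Fin d → RB (bet B (st (φ₀.smulRight c₀)))))
    (e' : V' ↪ (Fin d → RB (bet B (sz : SBil F A (Fin g → F)))))
    (hV : ∀ (M : A →ₗ[F] B) (u : Fin d → RB (bet B (st (φ₀.smulRight c₀)))),
      u ∈ Set.range e ↔ shT (st (φ₀.smulRight c₀)) sz M u ∈ Set.range e')
    (G : SimpleGraph V) (H : SimpleGraph V')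
    (hadj : ∀ u u' v v', SameType (Sum.elim (e u) (e u')) (Sum.elim (e' v) (e' v')) →
      (G.Adj u u' ↔ H.Adj v v')) :
    (rgAct hsym hK hE B hB φ₀ c₀ e e' hV G H hadj).Torsor := by
  intro M h u
  apply e'.injective
  set Ac := rgAct hsym hK hE B hB φ₀ c₀ e e' hV G H hadj with hAc
  have hsymm : ∀ w, e ((Ac.b 0).symm w) = fun j => shn 0 (e' w j) := by
    intro w
    have h1 := rgAct_key hsym hK hE B hB φ₀ c₀ e e' hV G H hadj 0 ((Ac.b 0).symm w)
    rw [← hAc, Equiv.apply_symm_apply] at h1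
    rw [h1]
    funext j
    exact (sh_neg 0 _).symm
  rw [hAc, rgAct_key, rgAct_key, ← hAc, hsymm, hAc, rgAct_key]
  funext j
  exact sh_torsor M h (e u j)

end

end Pool.Agent.Zk53.RW
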