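import Mathlib

/-!
# The affine group of a local ring determines the ring
-/

set_option autoImplicit false
set_option linter.unusedSectionVars false

namespace Pool.Agent.Zk53.RW

/-- The affine maps `x ↦ u x + t` of the commutative ring `R` (`t` in `R`, `u` a unit). -/
@[ext] structure Aff (R : Type) [CommRing R] where
  /-- the translation part -/
  t : R
  /-- the unit -/
  u : Rˣ

section

variable {R S : Type} [CommRing R] [CommRing S]

namespace Aff

/-- The composition of the affine maps, `x ↦ u (u' x + t') + t`. -/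
instance : Mul (Aff R) where
  mul a b := ⟨a.t + a.u * b.t, a.u * b.u⟩

instance : One (Aff R) where
  one := ⟨0, 1⟩

instance : Inv (Aff R) where
  inv a := ⟨-((a.u⁻¹ : Rˣ) * a.t), a.u⁻¹⟩

@[simp] theorem mul_t (a b : Aff R) : (a * b).t = a.t + a.u * b.t := rfl
@[simp] theorem mul_u (a b : Aff R) : (a * b).u = a.u * b.u := rfl
@[simp] theorem one_t : (1 : Aff R).t = 0 := rfl
@[simp] theorem one_u : (1 : Aff R).u = 1 := rfl
@[simp] theorem inv_t (a : Aff R) : (a⁻¹).t = -((a.u⁻¹ : Rˣ) * a.t) := rfl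
@[simp] theorem inv_u (a : Aff R) : (a⁻¹).u = a.u⁻¹ := rfl

instance : Group (Aff R) where
  mul_assoc a b c := by
    refine Aff.ext ?_ ?_
    · simp only [mul_t, mul_u, Units.val_mul]
      ring
    · simp only [mul_u, mul_assoc]
  one_mul a := by
    refine Aff.ext ?_ ?_ <;> simp
  mul_one a := by
    refine Aff.ext ?_ ?_ <;> simp
  inv_mul_cancel a := by
    refine Aff.ext ?_ ?_ <;> simp

/-- Affine maps as pairs. -/
def equivProd : Aff R ≃ R × Rˣ where
  toFun a := (a.t, a.u)
  invFun a := ⟨a.1, a.2⟩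
  left_inv _ := rfl
  right_inv _ := rfl

noncomputable instance [Fintype R] : Fintype (Aff R) := by
  classical
  exact Fintype.ofEquiv _ equivProd.symm

/-- The linear part as a homomorphism. -/
def uHom : Aff R →* Rˣ where
  toFun := Aff.u
  map_one' := rfl
  map_mul' _ _ := rfl

end Aff

theorem Aff.le_card [Fintype R] : Fintype.card R ≤ Fintype.card (Aff R) := by
  refine Fintype.card_le_of_injective (fun x : R => (⟨x, 1⟩ : Aff R)) ?_
  intro x y h
  exact congrArg Aff.t h

/-- The translation. -/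
def trn (x : R) : Aff R := ⟨x, 1⟩

/-- The homothety. -/
def hom (a : Rˣ) : Aff R := ⟨0, a⟩

theorem trn_add (x y : R) : trn (x + y) = trn x * trn y := by
  refine Aff.ext ?_ ?_
  · show x + y = x + ((1 : Rˣ) : R) * y
    simp
  · show (1 : Rˣ) = 1 * 1
    simp

theorem hom_mul_trn (a : Rˣ) (x : R) : hom a * trn x = trn (a * x) * hom a := by
  refine Aff.ext ?_ ?_
  · show (0 : R) + a * x = a * x + ((1 : Rˣ) : R) * 0
    simp
  · show a * (1 : Rˣ) = (1 : Rˣ) * a
    simp

theorem trn_comm (w : Rˣ) (hw : (w : R) = 2) (x : R) :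
    trn x = hom w * trn x * (hom w)⁻¹ * (trn x)⁻¹ := by
  rw [hom_mul_trn, mul_inv_cancel_right, hw, two_mul, trn_add, mul_inv_cancel_right]

theorem u_trn (w : Rˣ) (hw : (w : R) = 2) (θ : Aff R →* Aff S) (x : R) : (θ (trn x)).u = 1 := by
  have h : (Aff.uHom (θ (trn x)) : Sˣ) = 1 := by
    rw [trn_comm w hw x]
    simp only [map_mul, map_inv]
    rw [mul_right_comm, mul_inv_cancel_right, mul_inv_cancel]
  exact h

theorem theta_trn (w : Rˣ) (hw : (w : R) = 2) (θ : Aff R →* Aff S) (x : R) :
    θ (trn x) = trn (θ (trn x)).t :=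
  Aff.ext rfl (u_trn w hw θ x)

/-- The affine group of a local ring in which `2` is a unit determines the ring. -/
theorem ring_iso_of_aff [IsLocalRing R] (h2R : IsUnit (2 : R)) (h2S : IsUnit (2 : S))
    (θ : Aff R ≃* Aff S) : Nonempty (R ≃+* S) := by
  obtain ⟨w, hw⟩ := h2R
  obtain ⟨w', hw'⟩ := h2S
  let τ : R → S := fun x => (θ (trn x)).t
  let τ' : S → R := fun x => (θ.symm (trn x)).t
  have hτ : ∀ x, θ (trn x) = trn (τ x) := theta_trn w hw θ.toMonoidHom
  have hτ' : ∀ x, θ.symm (trn x) = trn (τ' x) := theta_trn w' hw' θ.symm.toMonoidHom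
  have hadd : ∀ x y, τ (x + y) = τ x + τ y := by
    intro x y
    have h : trn (τ (x + y)) = trn (τ x + τ y) := by
      rw [← hτ, trn_add, map_mul, hτ, hτ, trn_add]
    exact congrArg Aff.t h
  have hinv : ∀ x, τ' (τ x) = x := by
    intro x
    have h : trn (τ' (τ x)) = trn x := by
      rw [← hτ', ← hτ, θ.symm_apply_apply]
    exact congrArg Aff.t h
  have hinv' : ∀ x, τ (τ' x) = x := by
    intro x
    have h : trn (τ (τ' x)) = trn x := by
      rw [← hτ, ← hτ', θ.apply_symm_apply]
    exact congrArg Aff.t h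
  have hsub : ∀ x y, τ (x - y) = τ x - τ y := by
    intro x y
    rw [eq_sub_iff_add_eq, ← hadd, sub_add_cancel]
  have hmul : ∀ (a : Rˣ) (x : R), τ (a * x) = (θ (hom a)).u * τ x := by
    intro a x
    have h := congrArg θ (hom_mul_trn a x)
    rw [map_mul, map_mul, hτ, hτ] at h
    have h2 := congrArg Aff.t h
    simp only [Aff.mul_t] at h2
    have h3 : (trn (τ (a * x)) : Aff S).u = 1 := rfl
    have h4 : (trn (τ (a * x)) : Aff S).t = τ (a * x) := rfl
    have h5 : (trn (τ x) : Aff S).t = τ x := rfl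
    rw [h3, h4, h5, Units.val_one, one_mul, add_comm] at h2
    exact (add_right_cancel h2).symm
  have hdec : ∀ a : R, IsUnit a ∨ IsUnit (1 - a) := IsLocalRing.isUnit_or_isUnit_one_sub_self
  have hlin : ∀ a : R, ∃ s : S, ∀ x, τ (a * x) = s * τ x := by
    intro a
    rcases hdec a with ⟨b, hb⟩ | ⟨b, hb⟩
    · exact ⟨_, fun x => by rw [← hb]; exact hmul b x⟩
    · refine ⟨1 - (θ (hom b)).u, fun x => ?_⟩
      have h1 : a * x = x - (b : R) * x := by
        rw [hb]
        ring
      rw [h1, hsub, hmul]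
      ring
  have hunit : IsUnit (τ 1) := by
    obtain ⟨s, hs⟩ := hlin (τ' 1)
    have h1 := hs 1
    rw [mul_one, hinv'] at h1
    exact IsUnit.of_mul_eq_one_right s h1.symm
  obtain ⟨t, ht⟩ := hunit
  have key : ∀ a x, τ (a * x) = τ a * (t⁻¹ : Sˣ) * τ x := by
    intro a x
    obtain ⟨s, hs⟩ := hlin a
    have h1 := hs 1
    rw [mul_one, ← ht] at h1
    rw [hs x, h1, Units.mul_inv_cancel_right]
  refine ⟨RingEquiv.ofBijective
    ({ toFun := fun x => τ x * (t⁻¹ : Sˣ)
       map_one' := by rw [← ht, Units.mul_inv]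
       map_mul' := fun x y => by
        rw [key]
        ring
       map_zero' := by
        have h : τ 0 = 0 := by
          have h1 := hsub 0 0
          rwa [sub_self, sub_self] at h1
        rw [h, zero_mul]
       map_add' := fun x y => by rw [hadd, add_mul] } : R →+* S) ⟨?_, ?_⟩⟩
  · intro x y h
    have h1 : τ x * (t⁻¹ : Sˣ) = τ y * (t⁻¹ : Sˣ) := h
    have h2 : τ x = τ y := by
      have h3 := congrArg (fun z => z * (t : S)) h1
      simpa using h3
    rw [← hinv x, h2, hinv]
  · intro y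
    refine ⟨τ' (y * t), ?_⟩
    show τ (τ' (y * t)) * (t⁻¹ : Sˣ) = y
    rw [hinv', Units.mul_inv_cancel_right]

end

end Pool.Agent.Zk53.RW
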