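import Pool.Agent.Zk53.RW2
import Pool.Agent.Zk53.RW6
import Pool.Agent.Zk53.RW7
import Pool.Agent.Zk53.RW8

/-!
# Finite commutative local rings need Weisfeiler-Leman dimension of order `log n`
-/

set_option autoImplicit false
set_option linter.unusedSectionVars false

namespace Pool.Agent.Zk53.RW

open Module
open Pool.Agent.W185.SRG Pool.Agent.W185.LSQ
open Pool.Agent.W879.GW (tot Expands exists_target group_iso_of_latin)
open Pool.Agent.TH658.Sos (IMEquiv instX PCRefutes PosRefutes Act)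

section

variable {R S : Type} [CommRing R] [CommRing S]

/-- The four ring elements of a pair of affine maps. -/
def e4 (R : Type) [CommRing R] : (Aff R × Aff R) ↪ (Fin 4 → R) where
  toFun c := ![c.1.t, c.1.u, c.2.t, c.2.u]
  inj' := by
    intro c c' h
    have h0 : c.1.t = c'.1.t := congrFun h 0
    have h1 : (c.1.u : R) = c'.1.u := congrFun h 1
    have h2 : c.2.t = c'.2.t := congrFun h 2
    have h3 : (c.2.u : R) = c'.2.u := congrFun h 3
    exact Prod.ext (Aff.ext h0 (Units.ext h1)) (Aff.ext h2 (Units.ext h3))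

theorem mem_e4 (t : Fin 4 → R) : t ∈ Set.range (e4 R) ↔ IsUnit (t 1) ∧ IsUnit (t 3) := by
  constructor
  · rintro ⟨c, rfl⟩
    exact ⟨c.1.u.isUnit, c.2.u.isUnit⟩
  · rintro ⟨⟨a, ha⟩, ⟨b, hb⟩⟩
    refine ⟨(⟨t 0, a⟩, ⟨t 2, b⟩), ?_⟩
    funext j
    fin_cases j
    · rfl
    · exact ha
    · rfl
    · exact hb

theorem adj4 (c c' : Aff R × Aff R) (w w' : Aff S × Aff S)
    (h : SameType (Sum.elim (e4 R c) (e4 R c')) (Sum.elim (e4 S w) (e4 S w'))) :
    ((latinGraph fun a b : Aff R => a * b).Adj c c' ↔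
      (latinGraph fun a b : Aff S => a * b).Adj w w') := by
  have q0 : c.1.t = c'.1.t ↔ w.1.t = w'.1.t := by
    have := h.eq_iff (MvPolynomial.X (Sum.inl 0)) (MvPolynomial.X (Sum.inr 0))
    simp only [MvPolynomial.aeval_X, Sum.elim_inl, Sum.elim_inr] at this
    exact this
  have q1 : (c.1.u : R) = c'.1.u ↔ (w.1.u : S) = w'.1.u := by
    have := h.eq_iff (MvPolynomial.X (Sum.inl 1)) (MvPolynomial.X (Sum.inr 1))
    simp only [MvPolynomial.aeval_X, Sum.elim_inl, Sum.elim_inr] at this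
    exact this
  have q2 : c.2.t = c'.2.t ↔ w.2.t = w'.2.t := by
    have := h.eq_iff (MvPolynomial.X (Sum.inl 2)) (MvPolynomial.X (Sum.inr 2))
    simp only [MvPolynomial.aeval_X, Sum.elim_inl, Sum.elim_inr] at this
    exact this
  have q3 : (c.2.u : R) = c'.2.u ↔ (w.2.u : S) = w'.2.u := by
    have := h.eq_iff (MvPolynomial.X (Sum.inl 3)) (MvPolynomial.X (Sum.inr 3))
    simp only [MvPolynomial.aeval_X, Sum.elim_inl, Sum.elim_inr] at this
    exact this
  have q4 : c.1.t + c.1.u * c.2.t = c'.1.t + c'.1.u * c'.2.t ↔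
      w.1.t + w.1.u * w.2.t = w'.1.t + w'.1.u * w'.2.t := by
    have := h.eq_iff
      (MvPolynomial.X (Sum.inl 0) + MvPolynomial.X (Sum.inl 1) * MvPolynomial.X (Sum.inl 2))
      (MvPolynomial.X (Sum.inr 0) + MvPolynomial.X (Sum.inr 1) * MvPolynomial.X (Sum.inr 2))
    simp only [map_add, map_mul, MvPolynomial.aeval_X, Sum.elim_inl, Sum.elim_inr] at this
    exact this
  have q5 : ((c.1.u * c.2.u : Rˣ) : R) = (c'.1.u * c'.2.u : Rˣ) ↔
      ((w.1.u * w.2.u : Sˣ) : S) = (w'.1.u * w'.2.u : Sˣ) := by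
    have := h.eq_iff
      (MvPolynomial.X (Sum.inl 1) * MvPolynomial.X (Sum.inl 3))
      (MvPolynomial.X (Sum.inr 1) * MvPolynomial.X (Sum.inr 3))
    simp only [map_mul, MvPolynomial.aeval_X, Sum.elim_inl, Sum.elim_inr] at this
    rw [Units.val_mul, Units.val_mul, Units.val_mul, Units.val_mul]
    exact this
  have r1 : c.1 = c'.1 ↔ w.1 = w'.1 := by
    rw [Aff.ext_iff, Aff.ext_iff, ← Units.val_inj, ← Units.val_inj, q0, q1]
  have r2 : c.2 = c'.2 ↔ w.2 = w'.2 := by
    rw [Aff.ext_iff, Aff.ext_iff, ← Units.val_inj, ← Units.val_inj, q2, q3]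
  have r3 : c.1 * c.2 = c'.1 * c'.2 ↔ w.1 * w.2 = w'.1 * w'.2 := by
    rw [Aff.ext_iff, Aff.ext_iff, ← Units.val_inj, ← Units.val_inj]
    simp only [Aff.mul_t, Aff.mul_u]
    rw [q4, q5]
  show (c ≠ c' ∧ (c.1 = c'.1 ∨ c.2 = c'.2 ∨ c.1 * c.2 = c'.1 * c'.2)) ↔
    (w ≠ w' ∧ (w.1 = w'.1 ∨ w.2 = w'.2 ∨ w.1 * w.2 = w'.1 * w'.2))
  rw [r1, r2, r3, ne_eq, ne_eq, Prod.ext_iff, Prod.ext_iff, r1, r2]

end

/-- `R` is a local ring of characteristic `p` whose residue field has order `p` and whose maximal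
ideal `m` satisfies `m ^ 3 = 0`. -/
def CubeZeroLocal (p : ℕ) (R : Type) [CommRing R] : Prop :=
  CharP R p ∧ ∃ _ : IsLocalRing R, IsLocalRing.maximalIdeal R ^ 3 = ⊥ ∧
    Nat.card (IsLocalRing.ResidueField R) = p

theorem cubeZeroLocal {p : ℕ} [Fact p.Prime] {V Γ : Type} [AddCommGroup V] [Module (ZMod p) V]
    [AddCommGroup Γ] [Module (ZMod p) Γ] (β : SBil (ZMod p) V Γ) : CubeZeroLocal p (RB β) :=
  ⟨charP_RB p, instLR, max_pow, by rw [card_residue, Nat.card_zmod]⟩

theorem two_unit {p : ℕ} [Fact p.Prime] (hp2 : p ≠ 2) {V Γ : Type} [AddCommGroup V]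
    [Module (ZMod p) V] [AddCommGroup Γ] [Module (ZMod p) Γ] (β : SBil (ZMod p) V Γ) :
    IsUnit (2 : RB β) := by
  rw [isUnit_iff]
  have h : (2 : RB β) = ((2 : ℕ) : RB β) := by norm_num
  rw [h, natCast_rc]
  show ((2 : ℕ) : ZMod p) ≠ 0
  have := Pool.Agent.W879.GW.two_ne (p := p) hp2
  exact_mod_cast this

/-- The graphs `G` and `H` are not distinguished by the Weisfeiler-Leman method of dimension `k`, by
the invertible-map test of dimension `k` over the fields of characteristic different from `p`, by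
polynomial calculus proofs of degree `k` over these fields, and by Positivstellensatz proofs of
degree `k`. -/
def Fooled (p k : ℕ) {V V' : Type} [Fintype V] [Fintype V'] (G : SimpleGraph V)
    (H : SimpleGraph V') : Prop :=
  WLEquivalent k G H ∧ IMEquiv p k G H ∧
    (∀ (K : Type) [Field K], (p : K) ≠ 0 → ¬ PCRefutes K G H k) ∧ ¬ PosRefutes G H k

theorem fooled {X L : Type} [AddCommGroup X] [Fintype X] [SemilatticeSup L] [OrderBot L]
    {Sy : Pool.Agent.TH658.Sos.Sys X L} {V V' : Type} [Fintype V] [Fintype V']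
    {G : SimpleGraph V} {H : SimpleGraph V'} (A : Act Sy G H) (hA : A.Torsor) {p k : ℕ}
    (hk : 1 ≤ k)
    (hX : ∀ (K : Type) [Field K], (p : K) ≠ 0 → (Fintype.card X : K) ≠ 0)
    (hK : 6 * (A.c * k) ≤ Sy.K) : Fooled p k G H := by
  have h1 : A.c ≤ A.c * k := Nat.le_mul_of_pos_right _ hk
  have h2 : 3 * (A.c * (k + 1)) ≤ Sy.K := by
    rw [mul_add, mul_one]
    omega
  refine ⟨wlEquivalent A (by omega), A.imEquiv hA hX (by omega) (by omega), fun K _ hp => ?_, ?_⟩
  · exact A.not_pcRefutes K (hX K hp) h2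
  · exact A.not_posRefutes h2

theorem main (p : ℕ) (hp : p.Prime) (hp2 : p ≠ 2) (d k : ℕ) (hd : 1 ≤ d) (hk : 1 ≤ k) :
    ∃ (R S : Type) (_ : CommRing R) (_ : CommRing S) (_ : Fintype R) (_ : Fintype S) (r : ℕ),
      r ≤ 4039 * (d * k) ∧ Fintype.card R = p ^ r ∧ Fintype.card S = p ^ r ∧
      CubeZeroLocal p R ∧ CubeZeroLocal p S ∧ IsEmpty (R ≃+* S) ∧
      (∀ (G : SimpleGraph (Fin d → R)) (H : SimpleGraph (Fin d → S)),
        (∀ u u' v v', SameType (Sum.elim u u') (Sum.elim v v') → (G.Adj u u' ↔ H.Adj v v')) →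
        Fooled p k G H) ∧
      IsEmpty (latinGraph (fun a b : Aff R => a * b) ≃g latinGraph (fun a b : Aff S => a * b)) ∧
      Fooled p k (latinGraph fun a b : Aff R => a * b)
        (latinGraph fun a b : Aff S => a * b) := by
  classical
  have : Fact p.Prime := ⟨hp⟩
  have hdk : 1 ≤ d * k := Nat.mul_pos hd hk
  have hdk1 : d ≤ d * k := Nat.le_mul_of_pos_right d hk
  have hdk2 : k ≤ d * k := Nat.le_mul_of_pos_left k hd
  obtain ⟨q, hsym, hE⟩ := exists_expander (F := ZMod p) (4 * (24 * (d * k)))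
  have hfr : finrank (ZMod p) (Fin (6 * (4 * (24 * (d * k)))) → ZMod p) =
      6 * (4 * (24 * (d * k))) := Module.finrank_fin_fun _
  obtain ⟨φ₀, c₀, h0⟩ := exists_target hE (by omega) (by
    rw [hfr]
    omega)
  let A : Type := Fin (6 * (4 * (24 * (d * k)))) → ZMod p
  let B : Submodule (ZMod p) (Fin 6 → Dual (ZMod p) A) := LinearMap.ker (tot q)
  let f : SBil (ZMod p) A (Fin 6 → ZMod p) := st (φ₀.smulRight c₀)
  have hfin : Finite (Dual (ZMod p) A) := Module.finite_of_finite (ZMod p)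
  have hfin2 : Finite (Fin 6 → Dual (ZMod p) A) := inferInstance
  have hfinB : Finite B := inferInstance
  have : Fintype B := Fintype.ofFinite B
  have : Fintype A := inferInstance
  have hcB : Fintype.card B = p ^ finrank (ZMod p) B := by
    rw [← Nat.card_eq_fintype_card, Module.natCard_eq_pow_finrank (K := ZMod p), Nat.card_zmod]
  have hcA : Fintype.card A = p ^ (6 * (4 * (24 * (d * k)))) := by
    rw [← Nat.card_eq_fintype_card, Module.natCard_eq_pow_finrank (K := ZMod p), Nat.card_zmod,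
      hfr]
  have hcard : ∀ f' : SBil (ZMod p) A (Fin 6 → ZMod p),
      Fintype.card (RB (bet B f')) =
        p ^ (1 + (6 * (4 * (24 * (d * k))) + finrank (ZMod p) B + 6)) := by
    intro f'
    rw [card_RB, Fintype.card_prod, hcB, hcA, Fintype.card_fun, ZMod.card, Fintype.card_fin,
      ← pow_add, ← pow_add, ← pow_succ', add_comm 1]
  have hfrB : finrank (ZMod p) B ≤ 6 * (6 * (4 * (24 * (d * k)))) := by
    refine (Submodule.finrank_le _).trans (le_of_eq ?_)
    rw [Module.finrank_pi_fintype]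
    simp only [Subspace.dual_finrank_eq, Finset.sum_const, Finset.card_univ, Fintype.card_fin,
      smul_eq_mul]
    exact congrArg (fun x => 6 * x) hfr
  have hiso : IsEmpty (RB (bet B f) ≃+* RB (bet B (sz : SBil (ZMod p) A (Fin 6 → ZMod p)))) :=
    not_iso hp2 hsym hE (by omega) (by
      rw [hfr]
      omega) rfl φ₀ c₀ h0
  have hfinM : Finite (A →ₗ[ZMod p] B) := Module.finite_of_finite (ZMod p)
  have : Fintype (A →ₗ[ZMod p] B) := Fintype.ofFinite _
  have hcX : ∃ m, Fintype.card (A →ₗ[ZMod p] B) = p ^ m := by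
    refine ⟨finrank (ZMod p) (A →ₗ[ZMod p] B), ?_⟩
    rw [← Nat.card_eq_fintype_card, Module.natCard_eq_pow_finrank (K := ZMod p), Nat.card_zmod]
  have hX : ∀ (K : Type) [Field K], (p : K) ≠ 0 →
      (Fintype.card (A →ₗ[ZMod p] B) : K) ≠ 0 := by
    intro K _ hpK
    obtain ⟨m, hm⟩ := hcX
    rw [hm, Nat.cast_pow]
    exact pow_ne_zero _ hpK
  have hV4 : ∀ (M : A →ₗ[ZMod p] B) (u : Fin 4 → RB (bet B f)),
      u ∈ Set.range (e4 (RB (bet B f))) ↔
        shT f (sz : SBil (ZMod p) A (Fin 6 → ZMod p)) M u ∈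
          Set.range (e4 (RB (bet B (sz : SBil (ZMod p) A (Fin 6 → ZMod p))))) := by
    intro M u
    rw [mem_e4, mem_e4, isUnit_iff, isUnit_iff, isUnit_iff, isUnit_iff]
    rfl
  let act4 := rgAct hsym (K := 24 * (d * k)) (by omega) hE B rfl φ₀ c₀
    (e4 (RB (bet B f))) (e4 (RB (bet B (sz : SBil (ZMod p) A (Fin 6 → ZMod p))))) hV4
    (latinGraph fun a b => a * b) (latinGraph fun a b => a * b)
    (fun c c' w w' h => adj4 c c' w w' h)
  refine ⟨RB (bet B f), RB (bet B (sz : SBil (ZMod p) A (Fin 6 → ZMod p))), inferInstance,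
    inferInstance, inferInstance, inferInstance,
    1 + (6 * (4 * (24 * (d * k))) + finrank (ZMod p) B + 6), ?_, hcard f, hcard sz,
    cubeZeroLocal _, cubeZeroLocal _, hiso, ?_, ?_, ?_⟩
  · omega
  · intro G H hadj
    let act := rgAct hsym (K := 24 * (d * k)) (by omega) hE B rfl φ₀ c₀
      (Function.Embedding.refl _) (Function.Embedding.refl _)
      (fun M u => by simp) G H (fun u u' v v' h => hadj u u' v v' h)
    refine fooled act
      (rgAct_torsor hsym (K := 24 * (d * k)) (by omega) hE B rfl φ₀ c₀ _ _ _ G H _) hk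
      (fun K _ hpK => hX K hpK) ?_
    show 6 * (d * k) ≤ 24 * (d * k)
    omega
  · refine ⟨fun Φ => ?_⟩
    have hc2 : Fintype.card (Aff (RB (bet B f))) * Fintype.card (Aff (RB (bet B f))) =
        Fintype.card (Aff (RB (bet B (sz : SBil (ZMod p) A (Fin 6 → ZMod p))))) *
        Fintype.card (Aff (RB (bet B (sz : SBil (ZMod p) A (Fin 6 → ZMod p))))) := by
      rw [← Fintype.card_prod, ← Fintype.card_prod]
      exact Fintype.card_congr Φ.toEquiv
    have hc3 := Nat.mul_self_inj.1 hc2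
    obtain ⟨θ⟩ := group_iso_of_latin hc3 (by
      refine le_trans ?_ Aff.le_card
      rw [hcard sz]
      calc 5 ≤ 2 ^ 6 := by norm_num
        _ ≤ p ^ 6 := Nat.pow_le_pow_left hp.two_le 6
        _ ≤ _ := Nat.pow_le_pow_right hp.pos (by omega)) Φ
    obtain ⟨ρ⟩ := ring_iso_of_aff (two_unit hp2 _) (two_unit hp2 _) θ
    exact hiso.false ρ
  · refine fooled act4
      (rgAct_torsor hsym (K := 24 * (d * k)) (by omega) hE B rfl φ₀ c₀ _ _ _ _ _ _) hk
      (fun K _ hpK => hX K hpK) ?_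
    show 6 * (4 * k) ≤ 24 * (d * k)
    omega

end Pool.Agent.Zk53.RW
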